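import Pool.Agent.K7.H8.AV.Count

/-!
# The growth of the number of sets of basis vectors with weights in a monoid
-/

set_option autoImplicit false

namespace Pool.Agent.K7.H8.AV

open Finset Module

section binom

lemma sixteen_le (n : ℕ) (hn : 1 ≤ n) : (16 : ℝ) ^ n ≤ 4 * n * ((2 * n).choose n : ℝ) ^ 2 := by
  induction n, hn using Nat.le_induction with
  | base => norm_num [Nat.choose]
  | succ n hn ih =>
    have h1 : ((n : ℝ) + 1) * ((2 * (n + 1)).choose (n + 1) : ℝ) =
        2 * (2 * n + 1) * ((2 * n).choose n : ℝ) := by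
      have := Nat.succ_mul_centralBinom_succ n
      unfold Nat.centralBinom at this
      exact_mod_cast this
    have hn0 : (0 : ℝ) < (n : ℝ) + 1 := by positivity
    have h2 : ((2 * (n + 1)).choose (n + 1) : ℝ) =
        2 * (2 * n + 1) * ((2 * n).choose n : ℝ) / ((n : ℝ) + 1) := by
      rw [eq_div_iff hn0.ne', ← h1]; ring
    rw [h2, pow_succ]
    push_cast
    rw [div_pow, ← mul_div_assoc, le_div_iff₀ (by positivity)]
    have hC : 0 ≤ ((2 * n).choose n : ℝ) ^ 2 := by positivity
    nlinarith [mul_le_mul_of_nonneg_right ih (by positivity : (0 : ℝ) ≤ 16 * ((n : ℝ) + 1) ^ 2),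
      mul_nonneg hC (by positivity : (0 : ℝ) ≤ (n : ℝ) + 1)]

lemma le_sixteen (n : ℕ) : ((2 * n).choose n : ℝ) ^ 2 * (2 * n + 1) ≤ 16 ^ n := by
  induction n with
  | zero => norm_num
  | succ n ih =>
    have h1 : ((n : ℝ) + 1) * ((2 * (n + 1)).choose (n + 1) : ℝ) =
        2 * (2 * n + 1) * ((2 * n).choose n : ℝ) := by
      have := Nat.succ_mul_centralBinom_succ n
      unfold Nat.centralBinom at this
      exact_mod_cast this
    have hn0 : (0 : ℝ) < (n : ℝ) + 1 := by positivity
    have h2 : ((2 * (n + 1)).choose (n + 1) : ℝ) =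
        2 * (2 * n + 1) * ((2 * n).choose n : ℝ) / ((n : ℝ) + 1) := by
      rw [eq_div_iff hn0.ne', ← h1]; ring
    rw [h2, pow_succ (16 : ℝ) n]
    push_cast
    rw [div_pow, div_mul_eq_mul_div, div_le_iff₀ (by positivity)]
    have hC : 0 ≤ ((2 * n).choose n : ℝ) ^ 2 := by positivity
    nlinarith [mul_le_mul_of_nonneg_right ih (by positivity : (0 : ℝ) ≤ 16 * ((n : ℝ) + 1) ^ 2),
      mul_nonneg hC (by positivity : (0 : ℝ) ≤ 2 * (n : ℝ) + 1)]

lemma choose_ratio (n k : ℕ) (hk : k ≤ n) :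
    ((n : ℤ) + 1 - k ^ 2) * (2 * n).choose n ≤ (n + 1) * (2 * n).choose (n + k) := by
  induction k with
  | zero => simp
  | succ k ih =>
    have ih := ih (by omega)
    have h1 : ((2 * n).choose (n + (k + 1)) : ℤ) * (n + k + 1) =
        (2 * n).choose (n + k) * ((n : ℤ) - k) := by
      have := Nat.choose_succ_right_eq (2 * n) (n + k)
      have h2 : 2 * n - (n + k) = n - k := by omega
      rw [h2] at this
      zify [show k ≤ n by omega] at this
      rw [← add_assoc]
      exact this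
    have hpos : (0 : ℤ) < n + k + 1 := by positivity
    have hnk : (0 : ℤ) ≤ (n : ℤ) - k := by omega
    have hC : (0 : ℤ) ≤ (2 * n).choose n := by positivity
    have h3 := mul_le_mul_of_nonneg_right ih hnk
    have h4 : ((n : ℤ) + 1 - (k + 1) ^ 2) * (2 * n).choose n * (n + k + 1) ≤
        ((n : ℤ) + 1 - k ^ 2) * (2 * n).choose n * ((n : ℤ) - k) := by
      have h5 : ((n : ℤ) + 1 - k ^ 2) * ((n : ℤ) - k) -
          ((n : ℤ) + 1 - (k + 1) ^ 2) * (n + k + 1) = (2 * k + 1) * (k + k ^ 2) := by ring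
      have h6 : (0 : ℤ) ≤ (2 * k + 1) * (k + k ^ 2) := by positivity
      nlinarith [mul_nonneg h6 hC]
    have h7 : ((n : ℤ) + 1 - (k + 1) ^ 2) * (2 * n).choose n * (n + k + 1) ≤
        ((n + 1) * (2 * n).choose (n + (k + 1))) * (n + k + 1) := by
      calc _ ≤ _ := h4
        _ ≤ _ := h3
        _ = _ := by rw [mul_assoc, mul_assoc, ← h1]
    have := le_of_mul_le_mul_right h7 hpos
    push_cast
    push_cast at this
    linarith

lemma choose_half (n k : ℕ) (hk : 2 * k ^ 2 ≤ n) :
    ((2 * n).choose n : ℝ) / 2 ≤ (2 * n).choose (n + k) := by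
  have hkn : k ≤ n := by nlinarith
  have h1 := choose_ratio n k hkn
  have h2 : ((n : ℝ) + 1 - k ^ 2) * (2 * n).choose n ≤ (n + 1) * (2 * n).choose (n + k) := by
    exact_mod_cast h1
  have h3 : (2 : ℝ) * k ^ 2 ≤ n := by exact_mod_cast hk
  have hC : (0 : ℝ) ≤ (2 * n).choose n := by positivity
  have hC' : (0 : ℝ) ≤ (2 * n).choose (n + k) := by positivity
  have hn : (0 : ℝ) < (n : ℝ) + 1 := by positivity
  have h4 : ((n : ℝ) + 1) / 2 * (2 * n).choose n ≤ (n + 1) * (2 * n).choose (n + k) := by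
    refine le_trans ?_ h2
    apply mul_le_mul_of_nonneg_right _ hC
    linarith
  have h5 : ((n : ℝ) + 1) * (((2 * n).choose n : ℝ) / 2) ≤ (n + 1) * (2 * n).choose (n + k) := by
    linarith
  exact le_of_mul_le_mul_left h5 hn

lemma sum_choose (n : ℕ) :
    ∑ k ∈ Finset.Icc (-(n : ℤ)) n, (2 * n).choose (n + k.natAbs) = 4 ^ n := by
  have h1 : (4 : ℕ) ^ n = ∑ m ∈ Finset.range (2 * n + 1), (2 * n).choose m := by
    rw [Nat.sum_range_choose, pow_mul]
    norm_num
  rw [h1]
  symm
  refine Finset.sum_bij (fun m _ => (m : ℤ) - n) ?_ ?_ ?_ ?_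
  · intro m hm
    rw [Finset.mem_range] at hm
    rw [Finset.mem_Icc]
    omega
  · intro m _ m' _ h
    omega
  · intro k hk
    rw [Finset.mem_Icc] at hk
    refine ⟨(k + n).toNat, ?_, ?_⟩
    · rw [Finset.mem_range]; omega
    · omega
  · intro m hm
    rw [Finset.mem_range] at hm
    by_cases h : n ≤ m
    · congr 1
      omega
    · rw [← Nat.choose_symm (show n + ((m : ℤ) - n).natAbs ≤ 2 * n by omega)]
      congr 1
      omega

end binom

section upper

variable {g : ℕ}

/-- coordinates on which a set of vectors is determined -/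
lemma exists_coords (M : Set (Fin g → ℤ)) :
    ∃ I : Finset (Fin g), I.card ≤ rk M ∧ ∀ ν ∈ M, ∀ μ ∈ M, (∀ i ∈ I, ν i = μ i) → ν = μ := by
  classical
  set U := Submodule.span ℚ ((fun (ν : Fin g → ℤ) (i : Fin g) => (ν i : ℚ)) '' M) with hU
  set ψ : Fin g → Module.Dual ℚ U := fun i => (LinearMap.proj i).comp U.subtype with hψ
  obtain ⟨f, hf, hspan, _⟩ := Submodule.exists_fun_fin_finrank_span_eq ℚ (Set.range ψ)
  choose a ha using hf
  refine ⟨Finset.univ.image a, ?_, ?_⟩
  · refine le_trans Finset.card_image_le ?_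
    rw [Finset.card_univ, Fintype.card_fin]
    refine le_trans (Submodule.finrank_le _) ?_
    rw [Subspace.dual_finrank_eq]
    exact le_rfl
  · intro ν hν μ hμ h
    have hν' : (fun i => (ν i : ℚ)) ∈ U := Submodule.subset_span ⟨ν, hν, rfl⟩
    have hμ' : (fun i => (μ i : ℚ)) ∈ U := Submodule.subset_span ⟨μ, hμ, rfl⟩
    have key : ∀ l ∈ Submodule.span ℚ (Set.range ψ), l ⟨_, hν'⟩ = l ⟨_, hμ'⟩ := by
      intro l hl
      rw [← hspan] at hl
      induction hl using Submodule.span_induction with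
      | mem l hl =>
        obtain ⟨k, rfl⟩ := hl
        rw [← ha k]
        show ((ν (a k) : ℤ) : ℚ) = ((μ (a k) : ℤ) : ℚ)
        rw [h (a k) (Finset.mem_image_of_mem a (Finset.mem_univ k))]
      | zero => simp
      | add x y _ _ hx hy => rw [LinearMap.add_apply, LinearMap.add_apply, hx, hy]
      | smul c x _ hx => rw [LinearMap.smul_apply, LinearMap.smul_apply, hx]
    funext i
    have := key (ψ i) (Submodule.subset_span ⟨i, rfl⟩)
    have h2 : ((ν i : ℤ) : ℚ) = ((μ i : ℤ) : ℚ) := this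
    exact_mod_cast h2

theorem rk_le (M : Set (Fin g → ℤ)) : rk M ≤ g := by
  unfold rk
  refine le_trans (Submodule.finrank_le _) ?_
  simp

open Classical in
lemma cnt_upper (n : ℕ) (M : Set (Fin g → ℤ)) :
    cnt g n M ≤ (2 * n).choose n ^ (g - rk M) * (4 ^ n) ^ rk M := by
  classical
  obtain ⟨I, hI, hinj⟩ := exists_coords M
  have h4 : (2 * n).choose n ≤ 4 ^ n := by
    have h1 : (4 : ℕ) ^ n = ∑ m ∈ Finset.range (2 * n + 1), (2 * n).choose m := by
      rw [Nat.sum_range_choose, pow_mul]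
      norm_num
    rw [h1]
    exact Finset.single_le_sum (f := fun m => (2 * n).choose m) (fun _ _ => Nat.zero_le _)
      (Finset.mem_range.2 (by omega))
  have h1 : cnt g n M ≤ (2 * n).choose n ^ (g - I.card) * (4 ^ n) ^ I.card := by
    rw [cnt_eq]
    calc ∑ ν ∈ (box g n).filter (· ∈ M), ∏ i, (2 * n).choose (n + (ν i).natAbs)
        ≤ ∑ ν ∈ (box g n).filter (· ∈ M), (2 * n).choose n ^ (g - I.card) *
            ∏ i : I, (2 * n).choose (n + (ν i).natAbs) := by
          refine Finset.sum_le_sum fun ν _ => ?_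
          rw [← Finset.prod_mul_prod_compl I, mul_comm]
          refine Nat.mul_le_mul ?_ (le_of_eq ?_)
          · calc ∏ i ∈ Iᶜ, (2 * n).choose (n + (ν i).natAbs)
                ≤ ∏ i ∈ Iᶜ, (2 * n).choose n := by
                  refine Finset.prod_le_prod' fun i _ => ?_
                  have := Nat.choose_le_centralBinom (n + (ν i).natAbs) n
                  exact this
              _ = (2 * n).choose n ^ (g - I.card) := by
                  rw [Finset.prod_const, Finset.card_compl, Fintype.card_fin]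
          · rw [Finset.prod_coe_sort I (fun i => (2 * n).choose (n + (ν i).natAbs))]
      _ = (2 * n).choose n ^ (g - I.card) * ∑ ν ∈ (box g n).filter (· ∈ M),
            ∏ i : I, (2 * n).choose (n + (ν i).natAbs) := by rw [Finset.mul_sum]
      _ ≤ (2 * n).choose n ^ (g - I.card) * ∑ μ ∈ Fintype.piFinset fun _ : I =>
            Finset.Icc (-(n : ℤ)) n, ∏ i : I, (2 * n).choose (n + (μ i).natAbs) := by
          refine Nat.mul_le_mul le_rfl ?_
          have h5 : Set.InjOn (fun (ν : Fin g → ℤ) (i : I) => ν i) ((box g n).filter (· ∈ M)) := by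
            intro ν hν μ hμ h
            rw [Finset.mem_coe, Finset.mem_filter] at hν hμ
            exact hinj ν hν.2 μ hμ.2 fun i hi => congrFun h ⟨i, hi⟩
          rw [← Finset.sum_image (f := fun μ : I → ℤ => ∏ i : I, (2 * n).choose (n + (μ i).natAbs))
            h5]
          refine Finset.sum_le_sum_of_subset ?_
          intro μ hμ
          rw [Finset.mem_image] at hμ
          obtain ⟨ν, hν, rfl⟩ := hμ
          rw [Finset.mem_filter, mem_box] at hν
          rw [Fintype.mem_piFinset]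
          intro i
          rw [Finset.mem_Icc, ← abs_le]
          exact hν.1 i
      _ = (2 * n).choose n ^ (g - I.card) * (4 ^ n) ^ I.card := by
          rw [← Finset.prod_univ_sum (fun _ : I => Finset.Icc (-(n : ℤ)) n)
            (fun _ k => (2 * n).choose (n + k.natAbs))]
          rw [Finset.prod_const, sum_choose, Finset.card_univ, Fintype.card_coe]
  refine h1.trans ?_
  have hr := rk_le M
  obtain ⟨d, hd⟩ := Nat.exists_eq_add_of_le hI
  have e1 : g - I.card = (g - rk M) + d := by omega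
  rw [e1, pow_add, mul_assoc]
  refine Nat.mul_le_mul le_rfl ?_
  rw [hd, pow_add, mul_comm]
  exact Nat.mul_le_mul le_rfl (Nat.pow_le_pow_left h4 d)

/-- upper bound: at most `4 ^ (g n) / n ^ (e / 2)`, where `e = g - rk M` -/
theorem cnt_le (n : ℕ) (hn : 1 ≤ n) (M : Set (Fin g → ℤ)) :
    (cnt g n M : ℝ) ≤ 4 ^ (g * n) / Real.sqrt n ^ (g - rk M) := by
  have hn0 : (0 : ℝ) < n := by exact_mod_cast hn
  have h1 : (cnt g n M : ℝ) ≤ ((2 * n).choose n : ℝ) ^ (g - rk M) * (4 ^ n) ^ rk M := by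
    exact_mod_cast cnt_upper n M
  refine h1.trans ?_
  have h2 : ((2 * n).choose n : ℝ) ≤ 4 ^ n / Real.sqrt n := by
    rw [le_div_iff₀ (Real.sqrt_pos.2 hn0)]
    have h3 := le_sixteen n
    have h4 : (((2 * n).choose n : ℝ) * Real.sqrt n) ^ 2 ≤ (4 ^ n) ^ 2 := by
      rw [mul_pow, Real.sq_sqrt hn0.le, ← pow_mul, mul_comm n 2, pow_mul]
      norm_num
      have hC : 0 ≤ ((2 * n).choose n : ℝ) ^ 2 := by positivity
      nlinarith
    exact (pow_le_pow_iff_left₀ (by positivity) (by positivity) two_ne_zero).1 h4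
  calc ((2 * n).choose n : ℝ) ^ (g - rk M) * (4 ^ n) ^ rk M
      ≤ (4 ^ n / Real.sqrt n) ^ (g - rk M) * (4 ^ n) ^ rk M := by
        gcongr
    _ = 4 ^ (g * n) / Real.sqrt n ^ (g - rk M) := by
        rw [div_pow, div_mul_eq_mul_div, ← pow_add, Nat.sub_add_cancel (rk_le M), ← pow_mul,
          mul_comm n g]

end upper

section lower

variable {g : ℕ}

/-- lower bound for monoids -/
theorem cnt_ge (M : AddSubmonoid (Fin g → ℤ)) :
    ∃ c : ℝ, 0 < c ∧ ∀ n : ℕ, 1 ≤ n →
      c * (4 ^ (g * n) / Real.sqrt n ^ (g - rk (M : Set (Fin g → ℤ)))) ≤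
        cnt g n (M : Set (Fin g → ℤ)) := by
  classical
  set r := rk (M : Set (Fin g → ℤ)) with hr
  obtain ⟨f, hf, -, hli⟩ := Submodule.exists_fun_fin_finrank_span_eq ℚ
    ((fun (ν : Fin g → ℤ) (i : Fin g) => (ν i : ℚ)) '' (M : Set (Fin g → ℤ)))
  change ∀ i : Fin r, _ at hf
  change LinearIndependent ℚ (fun i : Fin r => f i) at hli
  choose w hwM hw using hf
  set B : ℕ := 1 + ∑ k, ∑ i, (w k i).natAbs with hB
  have hB1 : 1 ≤ B := by omega
  refine ⟨1 / ((2 * B : ℝ) ^ r * 4 ^ g), by positivity, fun n hn => ?_⟩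
  have hn0 : (0 : ℝ) < n := by exact_mod_cast hn
  set K : ℕ := Nat.sqrt (n / (2 * B ^ 2)) with hK
  -- the vectors
  set Φ : (Fin r → Fin (K + 1)) → (Fin g → ℤ) := fun c => ∑ k, (c k : ℕ) • w k with hΦ
  have hΦinj : Function.Injective Φ := by
    intro c c' hcc
    have h1 : ∑ k, ((c k : ℕ) : ℚ) • f k = ∑ k, ((c' k : ℕ) : ℚ) • f k := by
      funext i
      have h2 := congrFun hcc i
      simp only [hΦ, Finset.sum_apply, Pi.smul_apply, nsmul_eq_mul] at h2
      simp only [Finset.sum_apply, Pi.smul_apply, smul_eq_mul, ← hw]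
      exact_mod_cast h2
    have h3 : ∑ k, (((c k : ℕ) : ℚ) - ((c' k : ℕ) : ℚ)) • f k = 0 := by
      simp only [sub_smul, Finset.sum_sub_distrib]
      rw [h1, sub_self]
    have h4 := Fintype.linearIndependent_iff.1 hli _ h3
    funext k
    have h5 := h4 k
    rw [sub_eq_zero] at h5
    exact Fin.ext (by exact_mod_cast h5)
  have hΦM : ∀ c, Φ c ∈ M := by
    intro c
    exact AddSubmonoid.sum_mem _ fun k _ => AddSubmonoid.nsmul_mem _ (hwM k) _
  have hKB : 2 * (K * B) ^ 2 ≤ n := by
    have h1 : K * K ≤ n / (2 * B ^ 2) := Nat.sqrt_le _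
    have h2 : n / (2 * B ^ 2) * (2 * B ^ 2) ≤ n := Nat.div_mul_le_self _ _
    calc 2 * (K * B) ^ 2 = K * K * (2 * B ^ 2) := by ring
      _ ≤ n / (2 * B ^ 2) * (2 * B ^ 2) := Nat.mul_le_mul h1 le_rfl
      _ ≤ n := h2
  have hΦB : ∀ c i, (Φ c i).natAbs ≤ K * B := by
    intro c i
    simp only [hΦ, Finset.sum_apply, Pi.smul_apply, nsmul_eq_mul]
    calc (∑ k, (((c k : ℕ) : ℤ)) * w k i).natAbs ≤ ∑ k, ((((c k : ℕ) : ℤ)) * w k i).natAbs := by
          have := Finset.abs_sum_le_sum_abs (fun k => (((c k : ℕ) : ℤ)) * w k i) Finset.univ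
          zify
          exact this
      _ ≤ ∑ k, K * (w k i).natAbs := by
          refine Finset.sum_le_sum fun k _ => ?_
          rw [Int.natAbs_mul, Int.natAbs_natCast]
          exact Nat.mul_le_mul (by have := (c k).2; omega) le_rfl
      _ = K * ∑ k, (w k i).natAbs := by rw [Finset.mul_sum]
      _ ≤ K * B := by
          refine Nat.mul_le_mul le_rfl ?_
          rw [hB]
          refine le_trans ?_ (Nat.le_add_left _ _)
          refine Finset.sum_le_sum fun k _ => ?_
          exact Finset.single_le_sum (f := fun i => (w k i).natAbs) (fun _ _ => Nat.zero_le _)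
            (Finset.mem_univ i)
  have hKBn : K * B ≤ n := by nlinarith
  have h1 : ((K + 1 : ℕ) : ℝ) ^ r * (((2 * n).choose n : ℝ) / 2) ^ g ≤ cnt g n (M : Set _) := by
    rw [cnt_eq]
    push_cast
    calc ((K : ℝ) + 1) ^ r * (((2 * n).choose n : ℝ) / 2) ^ g
        = ∑ _c : Fin r → Fin (K + 1), (((2 * n).choose n : ℝ) / 2) ^ g := by
          rw [Finset.sum_const, Finset.card_univ, Fintype.card_fun, Fintype.card_fin,
            Fintype.card_fin, nsmul_eq_mul]
          push_cast
          rfl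
      _ ≤ ∑ c : Fin r → Fin (K + 1), ∏ i, ((2 * n).choose (n + (Φ c i).natAbs) : ℝ) := by
          refine Finset.sum_le_sum fun c _ => ?_
          rw [show (((2 * n).choose n : ℝ) / 2) ^ g = ∏ _i : Fin g, (((2 * n).choose n : ℝ) / 2) by
            rw [Finset.prod_const, Finset.card_univ, Fintype.card_fin]]
          refine Finset.prod_le_prod (fun _ _ => by positivity) fun i _ => ?_
          apply choose_half
          refine le_trans ?_ hKB
          exact Nat.mul_le_mul le_rfl (Nat.pow_le_pow_left (hΦB c i) 2)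
      _ = ∑ ν ∈ Finset.univ.image Φ, ∏ i, ((2 * n).choose (n + (ν i).natAbs) : ℝ) := by
          rw [Finset.sum_image hΦinj.injOn]
      _ ≤ _ := by
          refine Finset.sum_le_sum_of_subset_of_nonneg ?_ (fun _ _ _ => by positivity)
          intro ν hν
          rw [Finset.mem_image] at hν
          obtain ⟨c, -, rfl⟩ := hν
          rw [Finset.mem_filter, mem_box]
          refine ⟨fun i => ?_, hΦM c⟩
          have := (hΦB c i).trans hKBn
          zify at this
          exact this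
  refine le_trans ?_ h1
  have hs : 0 < Real.sqrt n := Real.sqrt_pos.2 hn0
  have hBr : (0 : ℝ) < B := by exact_mod_cast hB1
  have h2 : Real.sqrt n / (2 * B) ≤ ((K + 1 : ℕ) : ℝ) := by
    rw [div_le_iff₀ (by positivity)]
    apply Real.sqrt_le_iff.2
    refine ⟨by positivity, ?_⟩
    have h3 : n / (2 * B ^ 2) < (K + 1) * (K + 1) := Nat.lt_succ_sqrt _
    have h4 : n < (K + 1) * (K + 1) * (2 * B ^ 2) := by
      rwa [Nat.div_lt_iff_lt_mul (by positivity)] at h3
    have h5 : (n : ℝ) < ((K : ℝ) + 1) * (K + 1) * (2 * B ^ 2) := by exact_mod_cast h4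
    push_cast
    nlinarith [mul_nonneg (mul_nonneg (by positivity : (0 : ℝ) ≤ (K : ℝ) + 1)
      (by positivity : (0 : ℝ) ≤ (K : ℝ) + 1)) (by positivity : (0 : ℝ) ≤ (B : ℝ) ^ 2)]
  have h3 : 4 ^ n / (4 * Real.sqrt n) ≤ ((2 * n).choose n : ℝ) / 2 := by
    rw [div_le_iff₀ (by positivity)]
    have h4 := sixteen_le n hn
    have h5 : ((4 : ℝ) ^ n) ^ 2 ≤ (((2 * n).choose n : ℝ) / 2 * (4 * Real.sqrt n)) ^ 2 := by
      rw [mul_pow, mul_pow, Real.sq_sqrt hn0.le, ← pow_mul, mul_comm n 2, pow_mul]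
      norm_num
      nlinarith
    exact (pow_le_pow_iff_left₀ (by positivity) (by positivity) two_ne_zero).1 h5
  calc 1 / ((2 * B : ℝ) ^ r * 4 ^ g) * (4 ^ (g * n) / Real.sqrt n ^ (g - r))
      = (Real.sqrt n / (2 * B)) ^ r * (4 ^ n / (4 * Real.sqrt n)) ^ g := by
        have h4 : Real.sqrt n ^ g = Real.sqrt n ^ (g - r) * Real.sqrt n ^ r := by
          rw [← pow_add, Nat.sub_add_cancel (rk_le _)]
        rw [div_pow, div_pow, mul_pow 4, h4, ← pow_mul, mul_comm n g]
        field_simp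
    _ ≤ _ := by
        gcongr

end lower

end Pool.Agent.K7.H8.AV
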