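import Pool.Agent.K7.H8.AV.Wts

/-!
# Counting the sets of basis vectors with a given weight
-/

set_option autoImplicit false

namespace Pool.Agent.K7.H8.AV

open Finset

/-- the weight of a set of basis vectors -/
noncomputable def wt {g n : ℕ} (J : Finset (Ix g n)) (i : Fin g) : ℤ :=
  (tp J i true : ℤ) - tp J i false

section

variable {g n : ℕ}

/-- the vectors with `s = false` -/
noncomputable def fal (g n : ℕ) : Finset (Ix g n) := Finset.univ.filter fun k => k.s = false

/-- the vectors with a given `i` -/
noncomputable def blk (g n : ℕ) (i : Fin g) : Finset (Ix g n) := Finset.univ.filter fun k => k.i = i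

lemma blk_card (i : Fin g) : (blk g n i).card = 2 * n := by
  classical
  have h1 : blk g n i = (Finset.univ.filter fun k : Ix g n => k.i = i ∧ k.s = true) ∪
      (Finset.univ.filter fun k : Ix g n => k.i = i ∧ k.s = false) := by
    ext k
    simp only [blk, Finset.mem_filter, Finset.mem_univ, true_and, Finset.mem_union]
    cases k.s <;> simp
  rw [h1, Finset.card_union_of_disjoint]
  · have h2 := tp_univ (g := g) n i true
    have h3 := tp_univ (g := g) n i false
    unfold tp at h2 h3
    rw [h2, h3]
    ring
  · rw [Finset.disjoint_left]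
    intro k hk hk'
    simp only [Finset.mem_filter] at hk hk'
    rw [hk.2.2] at hk'
    simp at hk'

lemma tp_le (J : Finset (Ix g n)) (i : Fin g) (s : Bool) : tp J i s ≤ n := by
  conv_rhs => rw [← tp_univ (g := g) n i s]
  exact Finset.card_le_card (Finset.filter_subset_filter _ (Finset.subset_univ J))

lemma flip_card (J : Finset (Ix g n)) (i : Fin g) :
    (((symmDiff J (fal g n)).filter fun k => k.i = i).card : ℤ) = n + wt J i := by
  classical
  have h1 : (symmDiff J (fal g n)).filter (fun k => k.i = i) =
      (J.filter fun k => k.i = i ∧ k.s = true) ∪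
        ((Finset.univ \ J).filter fun k => k.i = i ∧ k.s = false) := by
    ext k
    simp only [fal, Finset.mem_filter, Finset.mem_univ, true_and, Finset.mem_union,
      Finset.mem_symmDiff, Finset.mem_sdiff]
    cases k.s <;> simp
  have h2 : ((Finset.univ \ J).filter fun k => k.i = i ∧ k.s = false).card + tp J i false = n := by
    have : (Finset.univ \ J : Finset (Ix g n)) ∪ J = Finset.univ := by
      rw [Finset.sdiff_union_of_subset (Finset.subset_univ J)]
    have h3 := tp_union (g := g) (J := Finset.univ \ J) (J' := J) Finset.sdiff_disjoint i false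
    rw [this, tp_univ] at h3
    exact h3.symm
  rw [h1, Finset.card_union_of_disjoint]
  · unfold wt
    have h4 : tp J i true = (J.filter fun k => k.i = i ∧ k.s = true).card := rfl
    rw [← h4]
    push_cast
    have : (((Finset.univ \ J).filter fun k => k.i = i ∧ k.s = false).card : ℤ) + tp J i false = n := by
      exact_mod_cast h2
    linarith
  · rw [Finset.disjoint_left]
    intro k hk hk'
    simp only [Finset.mem_filter] at hk hk'
    rw [hk.2.2] at hk'
    simp at hk'

/-- the number of sets of basis vectors of given weight -/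
theorem card_fiber (ν : Fin g → ℤ) (hν : ∀ i, |ν i| ≤ n) :
    (Finset.univ.filter fun J : Finset (Ix g n) => wt J = ν).card =
      ∏ i, (2 * n).choose (n + (ν i).natAbs) := by
  classical
  have h0 : ∏ i, (2 * n).choose (n + (ν i).natAbs) =
      (Fintype.piFinset fun i => (blk g n i).powersetCard ((n : ℤ) + ν i).toNat).card := by
    rw [Fintype.card_piFinset]
    refine Finset.prod_congr rfl fun i _ => ?_
    rw [Finset.card_powersetCard, blk_card]
    have h1 := hν i
    rw [abs_le] at h1
    by_cases h : 0 ≤ ν i
    · congr 1
      omega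
    · rw [← Nat.choose_symm (show n + (ν i).natAbs ≤ 2 * n by omega)]
      congr 1
      omega
  rw [h0]
  refine Finset.card_bij (fun J _ => fun i => (symmDiff J (fal g n)).filter fun k => k.i = i) ?_ ?_ ?_
  · intro J hJ
    rw [Finset.mem_filter] at hJ
    rw [Fintype.mem_piFinset]
    intro i
    rw [Finset.mem_powersetCard]
    refine ⟨?_, ?_⟩
    · intro k hk
      simp only [blk, Finset.mem_filter, Finset.mem_univ, true_and] at hk ⊢
      exact hk.2
    · have := flip_card J i
      rw [hJ.2] at this
      omega
  · intro J _ J' _ h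
    have h1 : symmDiff J (fal g n) = symmDiff J' (fal g n) := by
      ext k
      have h2 := congrFun h k.i
      have h3 : k ∈ (symmDiff J (fal g n)).filter (fun l => l.i = k.i) ↔
        k ∈ (symmDiff J' (fal g n)).filter (fun l => l.i = k.i) := by
        rw [h2]
      simpa using h3
    exact symmDiff_left_injective _ h1
  · intro f hf
    rw [Fintype.mem_piFinset] at hf
    set K : Finset (Ix g n) := Finset.univ.filter fun k => k ∈ f k.i with hK
    have hKf : ∀ i, K.filter (fun k => k.i = i) = f i := by
      intro i
      ext k
      simp only [hK, Finset.mem_filter, Finset.mem_univ, true_and]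
      constructor
      · rintro ⟨h1, h2⟩
        rwa [h2] at h1
      · intro h1
        have h2 := (Finset.mem_powersetCard.1 (hf i)).1 h1
        have h3 : k.i = i := by simpa [blk] using h2
        exact ⟨by rwa [h3], h3⟩
    have h1 : symmDiff (symmDiff K (fal g n)) (fal g n) = K := symmDiff_symmDiff_cancel_right _ _
    refine ⟨symmDiff K (fal g n), ?_, ?_⟩
    · rw [Finset.mem_filter]
      refine ⟨Finset.mem_univ _, ?_⟩
      funext i
      have h2 := flip_card (symmDiff K (fal g n)) i
      rw [h1, hKf] at h2
      have h3 := (Finset.mem_powersetCard.1 (hf i)).2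
      have h4 := hν i
      rw [abs_le] at h4
      omega
    · funext i
      rw [h1, hKf]

lemma wt_abs_le (J : Finset (Ix g n)) (i : Fin g) : |wt J i| ≤ n := by
  have h1 := tp_le J i true
  have h2 := tp_le J i false
  unfold wt
  rw [abs_le]
  omega

open Classical in
/-- the number of sets of basis vectors with weights in a set -/
noncomputable def cnt (g n : ℕ) (M : Set (Fin g → ℤ)) : ℕ :=
  (Finset.univ.filter fun J : Finset (Ix g n) => wt J ∈ M).card

/-- the box -/
noncomputable def box (g n : ℕ) : Finset (Fin g → ℤ) :=
  Fintype.piFinset fun _ => Finset.Icc (-(n : ℤ)) n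

lemma mem_box {g n : ℕ} {ν : Fin g → ℤ} : ν ∈ box g n ↔ ∀ i, |ν i| ≤ n := by
  unfold box
  rw [Fintype.mem_piFinset]
  simp only [Finset.mem_Icc, abs_le]

open Classical in
theorem cnt_eq (g n : ℕ) (M : Set (Fin g → ℤ)) :
    cnt g n M = ∑ ν ∈ (box g n).filter (· ∈ M), ∏ i, (2 * n).choose (n + (ν i).natAbs) := by
  unfold cnt
  rw [Finset.card_eq_sum_card_fiberwise (f := wt) (t := (box g n).filter (· ∈ M))]
  · refine Finset.sum_congr rfl fun ν hν => ?_
    rw [Finset.mem_filter, mem_box] at hν
    rw [← card_fiber ν hν.1]
    congr 1
    ext J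
    simp only [Finset.mem_filter, Finset.mem_univ, true_and]
    constructor
    · exact fun h => h.2
    · intro h
      exact ⟨h ▸ hν.2, h⟩
  · intro J hJ
    rw [Finset.mem_coe, Finset.mem_filter] at hJ
    rw [Finset.mem_coe, Finset.mem_filter, mem_box]
    exact ⟨wt_abs_le J, hJ.2⟩

end

end Pool.Agent.K7.H8.AV
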