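import Mathlib

/-!
# Cohomology of the powers of an abelian variety over a finite field: definitions
-/

set_option autoImplicit false

namespace Pool.Agent.K7.H8.AV

/-- The action of a matrix of endomorphisms: the pull-back on the first cohomology along the
homomorphism `A ^ n → A ^ m` with this matrix. -/
noncomputable def act {Ω V : Type*} [Field Ω] [AddCommGroup V] [Module Ω V] {m n : ℕ}
    (M : Fin n → Fin m → Module.End Ω V) : (Fin m → V) →ₗ[Ω] (Fin n → V) :=
  LinearMap.pi fun i => ∑ j, M i j ∘ₗ LinearMap.proj j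

/-- pull-back along the first projection `A ^ n × A → A ^ n` -/
noncomputable def fstS (Ω V : Type*) [Field Ω] [AddCommGroup V] [Module Ω V] (n : ℕ) :
    (Fin n → V) →ₗ[Ω] (Fin (n + 1) → V) :=
  act fun i j => if i = Fin.castSucc j then 1 else 0

/-- pull-back along the second projection `A ^ n × A → A` -/
noncomputable def sndS (Ω V : Type*) [Field Ω] [AddCommGroup V] [Module Ω V] (n : ℕ) :
    (Fin 1 → V) →ₗ[Ω] (Fin (n + 1) → V) :=
  act fun i _ => if i = Fin.last n then 1 else 0

/-- Tate's theorem on endomorphisms: the endomorphisms of `V` that commute with Frobenius are linear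
combinations of elements of `R`. -/
def TateEnd {Ω V : Type*} [Field Ω] [AddCommGroup V] [Module Ω V] (F : Module.End Ω V)
    (R : Subring (Module.End Ω V)) : Prop :=
  ∀ φ : Module.End Ω V, φ * F = F * φ → φ ∈ Submodule.span Ω (R : Set (Module.End Ω V))

/-- The first cohomology of an abelian variety of dimension `g` over the field with `q` elements:
`F` is the Frobenius, `b` is a basis of eigenvectors, with eigenvalues `α i` and `q / α i`, and `R` is
the ring of endomorphisms. -/
structure AVData (Ω V : Type*) [Field Ω] [AddCommGroup V] [Module Ω V] (g q : ℕ) where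
  /-- Frobenius -/
  F : Module.End Ω V
  /-- half of the eigenvalues -/
  α : Fin g → Ω
  /-- eigenvectors -/
  b : Module.Basis (Fin g × Bool) Ω V
  hα : ∀ i, α i ≠ 0
  hq : 2 ≤ q
  hFb : ∀ i s, F (b (i, s)) = (if s then α i else (q : Ω) / α i) • b (i, s)
  /-- the endomorphisms of the abelian variety -/
  R : Subring (Module.End Ω V)
  /-- Tate's theorem on endomorphisms -/
  hR : TateEnd F R

/-- the relations `(∏ α i ^ ν i) ^ s = q ^ (s k)`, where `∑ ν i = 2 k` and `s ∈ E` -/
def rel {Ω : Type*} [Field Ω] {g : ℕ} (q : ℕ) (α : Fin g → Ω) (E : Set ℕ) : Set (Fin g → ℤ) :=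
  {ν | ∃ s ∈ E, ∃ k : ℤ, ∑ i, ν i = 2 * k ∧ (∏ i, α i ^ ν i) ^ s = (q : Ω) ^ ((s : ℤ) * k)}

/-- positive integers -/
abbrev pos : Set ℕ := {s | 0 < s}

/-- the rank of a set of integral vectors -/
noncomputable def rk {g : ℕ} (M : Set (Fin g → ℤ)) : ℕ :=
  Module.finrank ℚ (Submodule.span ℚ ((fun (ν : Fin g → ℤ) (i : Fin g) => (ν i : ℚ)) '' M))

section exponents

variable {Ω V : Type*} [Field Ω] [AddCommGroup V] [Module Ω V] {g q : ℕ} (D : AVData Ω V g q)

/-- the relations of length two -/
def short : Set (Fin g → ℤ) := {ν | ν ∈ rel q D.α pos ∧ ∑ i, |ν i| = 2}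

/-- the exponent of the Tate classes (the angle rank) -/
noncomputable def theta : ℕ := g - rk (rel q D.α pos)

/-- the exponent of the products of divisor classes -/
noncomputable def kappa : ℕ := g - rk (short D)

end exponents

/-- `f n` is of the exact order `4 ^ (g n) / n ^ (e / 2)`. -/
def Growth (g e : ℕ) (f : ℕ → ℕ) : Prop :=
  ∃ c : ℝ, 0 < c ∧ ∀ n : ℕ, 1 ≤ n →
    c * (4 ^ (g * n) / Real.sqrt n ^ e) ≤ f n ∧ (f n : ℝ) ≤ 4 ^ (g * n) / Real.sqrt n ^ e

section coh

variable (Ω V : Type*) [Field Ω] [AddCommGroup V] [Module Ω V]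

/-- the cohomology of `A ^ n`: the exterior algebra of `n` copies of the first cohomology `V` of `A` -/
def Coh (n : ℕ) : Type _ := ExteriorAlgebra Ω (Fin n → V)

noncomputable instance (n : ℕ) : Ring (Coh Ω V n) :=
  inferInstanceAs (Ring (ExteriorAlgebra Ω (Fin n → V)))

noncomputable instance (n : ℕ) : Algebra Ω (Coh Ω V n) :=
  inferInstanceAs (Algebra Ω (ExteriorAlgebra Ω (Fin n → V)))

/-- the classes of degree `d` -/
def degree (n d : ℕ) : Submodule Ω (Coh Ω V n) :=
  (⋀[Ω]^d (Fin n → V) : Submodule Ω (ExteriorAlgebra Ω (Fin n → V)))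

variable {Ω V}

/-- the map on the cohomology induced by a map on the first cohomology, as a ring homomorphism -/
noncomputable def extHom {m n : ℕ} (f : (Fin m → V) →ₗ[Ω] (Fin n → V)) :
    Coh Ω V m →ₐ[Ω] Coh Ω V n :=
  ExteriorAlgebra.map f

/-- the map on the cohomology induced by a map on the first cohomology -/
noncomputable def ext {m n : ℕ} (f : (Fin m → V) →ₗ[Ω] (Fin n → V)) (x : Coh Ω V m) : Coh Ω V n :=
  extHom f x

/-- the product of the pull-backs of `x` and `t` along the projections of `A ^ n × A` -/
noncomputable def cross (n : ℕ) (x : Coh Ω V n) (t : Coh Ω V 1) : Coh Ω V (n + 1) :=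
  ext (fstS Ω V n) x * ext (sndS Ω V n) t

/-- Tate classes of degree `2 j` on `A ^ n`, over the extension of degree `s` of the base field: the
`s`-th power of Frobenius multiplies them by `q ^ (s j)`. -/
def IsTateClass (F : Module.End Ω V) (q n s j : ℕ) (x : Coh Ω V n) : Prop :=
  x ∈ degree Ω V n (2 * j) ∧ ext ((F ^ s).compLeft (Fin n)) x = (q : Ω) ^ (s * j) • x

/-- the span of all Tate classes, over all finite extensions of the base field -/
noncomputable def tateSpan (F : Module.End Ω V) (q n : ℕ) : Submodule Ω (Coh Ω V n) :=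
  Submodule.span Ω {x | ∃ s : ℕ, 0 < s ∧ ∃ j : ℕ, IsTateClass F q n s j x}

/-- the algebra generated by the Tate classes of degree two, over all finite extensions of the base
field; these are the combinations of products of classes of divisors (Tate) -/
noncomputable def lefschetz (F : Module.End Ω V) (q n : ℕ) : Submodule Ω (Coh Ω V n) :=
  Subalgebra.toSubmodule
    (Algebra.adjoin Ω {x : Coh Ω V n | ∃ s : ℕ, 0 < s ∧ IsTateClass F q n s 1 x})

/-- the dimension of a space of classes -/
noncomputable def dim {n : ℕ} (C : Submodule Ω (Coh Ω V n)) : ℕ := Module.finrank Ω C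

/-- stable under products, with unit -/
def MulClosed (cls : (n : ℕ) → Submodule Ω (Coh Ω V n)) : Prop :=
  ∀ n : ℕ, 1 ∈ cls n ∧ ∀ x ∈ cls n, ∀ y ∈ cls n, x * y ∈ cls n

/-- stable under the pull-backs along the homomorphisms `A ^ n → A ^ m` that are given by matrices
with entries in `R` -/
def PullClosed (R : Subring (Module.End Ω V)) (cls : (n : ℕ) → Submodule Ω (Coh Ω V n)) : Prop :=
  ∀ (m n : ℕ) (M : Fin n → Fin m → Module.End Ω V), (∀ i j, M i j ∈ R) →
    ∀ x ∈ cls m, ext (act M) x ∈ cls n

/-- a multiple of the class of a point of `A` -/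
def IsPointClass (g : ℕ) (t : Coh Ω V 1) : Prop := t ∈ degree Ω V 1 (2 * g) ∧ t ≠ 0

/-- If the product of the pull-backs of `x` and of the class `t` of a point of `A` along the
projections of `A ^ n × A` belongs to the system then `x` does, since `x` is proportional to the
push-forward of the product. -/
def PushClosed (g : ℕ) (cls : (n : ℕ) → Submodule Ω (Coh Ω V n)) : Prop :=
  ∀ (n : ℕ) (x : Coh Ω V n) (t : Coh Ω V 1), IsPointClass g t → cross n x t ∈ cls (n + 1) →
    x ∈ cls n

end coh

/-- A system of classes on the powers of an abelian variety with formal properties of the spans of the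
classes of the algebraic cycles over an algebraic closure of the base field. -/
structure AlgSystem {Ω V : Type*} [Field Ω] [AddCommGroup V] [Module Ω V] {g q : ℕ}
    (D : AVData Ω V g q) where
  /-- the span of the classes of algebraic cycles on `A ^ n` -/
  cls : (n : ℕ) → Submodule Ω (Coh Ω V n)
  /-- it is contained in the span of the Tate classes -/
  le_tate : ∀ n, cls n ≤ tateSpan D.F q n
  /-- intersection products and the class of `A ^ n` -/
  mul_closed : MulClosed cls
  /-- pull-backs -/
  pull_closed : PullClosed D.R cls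
  /-- push-forwards -/
  push_closed : PushClosed g cls
  /-- Tate's theorem on divisors -/
  divisors : ∀ (n s : ℕ) (x : Coh Ω V n), 0 < s → IsTateClass D.F q n s 1 x → x ∈ cls n

end Pool.Agent.K7.H8.AV
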