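import Mathlib

/-!
# Pull-backs along linear combinations of maps

If `x` is sent to the subspace `C'` by all maps in an additive submonoid `N` of linear maps then it is
sent to `C'` by all linear combinations of these maps (the image is a polynomial in the coefficients).
-/

set_option autoImplicit false

namespace Pool.Agent.K7.H8.AV

open Finset Module

section

variable {Ω : Type*} [Field Ω] {W : Type*} [AddCommGroup W] [Module Ω W]
  {W' : Type*} [AddCommGroup W'] [Module Ω W']

/-- polynomial functions with values in the exterior algebra -/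
def polyFun (Ω : Type*) [Field Ω] (E : Type*) [Ring E] [Algebra Ω E] : Submodule Ω (Ω → E) :=
  Submodule.span Ω {φ | ∃ (d : ℕ) (y : E), φ = fun t => t ^ d • y}

lemma polyFun_mul {E : Type*} [Ring E] [Algebra Ω E] {φ ψ : Ω → E} (hφ : φ ∈ polyFun Ω E)
    (hψ : ψ ∈ polyFun Ω E) : φ * ψ ∈ polyFun Ω E := by
  have h := Submodule.mul_mem_mul hφ hψ
  rw [polyFun, Submodule.span_mul_span] at h
  refine Submodule.span_mono ?_ h
  rintro _ ⟨a, ⟨d, y, rfl⟩, b, ⟨d', y', rfl⟩, rfl⟩
  refine ⟨d + d', y * y', ?_⟩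
  funext t
  show t ^ d • y * t ^ d' • y' = _
  rw [smul_mul_smul_comm, pow_add]

lemma polyFun_map (a b : W →ₗ[Ω] W') (x : ExteriorAlgebra Ω W) :
    (fun t : Ω => ExteriorAlgebra.map (a + t • b) x) ∈ polyFun Ω (ExteriorAlgebra Ω W') := by
  induction x using ExteriorAlgebra.induction with
  | algebraMap r =>
    refine Submodule.subset_span ⟨0, algebraMap Ω _ r, ?_⟩
    funext t
    simp
  | ι v =>
    have : (fun t : Ω => ExteriorAlgebra.map (a + t • b) (ExteriorAlgebra.ι Ω v)) =
        (fun t : Ω => t ^ 0 • ExteriorAlgebra.ι Ω (a v)) +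
          (fun t : Ω => t ^ 1 • ExteriorAlgebra.ι Ω (b v)) := by
      funext t
      simp
    rw [this]
    exact Submodule.add_mem _ (Submodule.subset_span ⟨0, _, rfl⟩)
      (Submodule.subset_span ⟨1, _, rfl⟩)
  | mul x y hx hy =>
    have := polyFun_mul hx hy
    convert this using 1
    funext t
    simp
  | add x y hx hy =>
    have := Submodule.add_mem _ hx hy
    convert this using 1
    funext t
    simp

lemma poly_of_polyFun {E : Type*} [Ring E] [Algebra Ω E] {φ : Ω → E} (hφ : φ ∈ polyFun Ω E)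
    (l : E →ₗ[Ω] Ω) : ∃ p : Polynomial Ω, ∀ t, l (φ t) = p.eval t := by
  induction hφ using Submodule.span_induction with
  | mem φ h =>
    obtain ⟨d, y, rfl⟩ := h
    refine ⟨Polynomial.C (l y) * Polynomial.X ^ d, fun t => ?_⟩
    simp only [map_smul, smul_eq_mul, Polynomial.eval_mul, Polynomial.eval_C, Polynomial.eval_pow,
      Polynomial.eval_X]
    ring
  | zero => exact ⟨0, fun t => by simp⟩
  | add φ ψ _ _ h1 h2 =>
    obtain ⟨p1, h1⟩ := h1
    obtain ⟨p2, h2⟩ := h2
    exact ⟨p1 + p2, fun t => by simp [h1, h2]⟩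
  | smul c φ _ h =>
    obtain ⟨p, h⟩ := h
    exact ⟨Polynomial.C c * p, fun t => by simp [h]⟩

variable [CharZero Ω]

lemma line_mem {E : Type*} [Ring E] [Algebra Ω E] {φ : Ω → E} (hφ : φ ∈ polyFun Ω E)
    (C : Submodule Ω E) (h : ∀ n : ℕ, φ n ∈ C) (t : Ω) : φ t ∈ C := by
  by_contra hne
  obtain ⟨l, hl, hlC⟩ := Submodule.exists_le_ker_of_notMem hne
  obtain ⟨p, hp⟩ := poly_of_polyFun hφ l
  have h0 : p = 0 := by
    apply Polynomial.eq_zero_of_infinite_isRoot
    refine Set.Infinite.mono ?_ (Set.infinite_range_of_injective (Nat.cast_injective (R := Ω)))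
    rintro _ ⟨n, rfl⟩
    show p.eval (n : Ω) = 0
    rw [← hp]
    exact hlC (h n)
  apply hl
  rw [hp, h0, Polynomial.eval_zero]

/-- pull-backs along linear combinations of maps -/
lemma map_mem_of_span (N : AddSubmonoid (W →ₗ[Ω] W')) (C : Submodule Ω (ExteriorAlgebra Ω W'))
    (x : ExteriorAlgebra Ω W) (h : ∀ f ∈ N, ExteriorAlgebra.map f x ∈ C) (f : W →ₗ[Ω] W')
    (hf : f ∈ Submodule.span Ω (N : Set (W →ₗ[Ω] W'))) : ExteriorAlgebra.map f x ∈ C := by
  have key : ∀ a : W →ₗ[Ω] W', (∀ c ∈ N, ExteriorAlgebra.map (a + c) x ∈ C) → ∀ c ∈ N,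
      ExteriorAlgebra.map (a + f + c) x ∈ C := by
    induction hf using Submodule.closure_induction with
    | zero =>
      intro a ha c hc
      rw [add_zero]
      exact ha c hc
    | add f1 f2 _ _ h1 h2 =>
      intro a ha c hc
      rw [← add_assoc]
      exact h2 (a + f1) (h1 a ha) c hc
    | smul_mem t b hb =>
      intro a ha c hc
      have h1 := line_mem (polyFun_map (a + c) b x) C (fun n => by
        have := ha (c + n • b) (N.add_mem hc (N.nsmul_mem hb n))
        rwa [← add_assoc, ← Nat.cast_smul_eq_nsmul Ω] at this) t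
      rwa [add_right_comm] at h1
  have := key 0 (by simpa using h) 0 N.zero_mem
  simpa using this

end

end Pool.Agent.K7.H8.AV
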