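import Pool.Agent.K7.H8.AV.Torus
import Pool.Agent.K7.H8.AV.Dens
import Pool.Agent.K7.H8.AV.Data

/-!
# Cohomology of the powers of an abelian variety over a finite field and systems of classes
-/

set_option autoImplicit false

namespace Pool.Agent.K7.H8.AV

open Finset Module

/-- Tate classes in the cohomology of degree `2 j` of `A ^ n`, over the extension of degree `s`. -/
def IsTate {Ω V : Type*} [Field Ω] [AddCommGroup V] [Module Ω V] (F : Module.End Ω V) (q n s j : ℕ)
    (x : ExteriorAlgebra Ω (Fin n → V)) : Prop :=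
  x ∈ (⋀[Ω]^(2 * j) (Fin n → V) : Submodule Ω (ExteriorAlgebra Ω (Fin n → V))) ∧
    ExteriorAlgebra.map ((F ^ s).compLeft (Fin n)) x = (q : Ω) ^ (s * j) • x

/-- the span of the Tate classes over the extensions of the base field with degrees in `E` -/
noncomputable def tate {Ω V : Type*} [Field Ω] [AddCommGroup V] [Module Ω V] (F : Module.End Ω V)
    (q : ℕ) (E : Set ℕ) (n : ℕ) : Submodule Ω (ExteriorAlgebra Ω (Fin n → V)) :=
  Submodule.span Ω {x | ∃ s ∈ E, ∃ j : ℕ, IsTate F q n s j x}

/-- the span of the products of Tate classes of degree two -/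
noncomputable def lef {Ω V : Type*} [Field Ω] [AddCommGroup V] [Module Ω V] (F : Module.End Ω V)
    (q : ℕ) (E : Set ℕ) (n : ℕ) : Submodule Ω (ExteriorAlgebra Ω (Fin n → V)) :=
  Subalgebra.toSubmodule (Algebra.adjoin Ω {x | ∃ s ∈ E, IsTate F q n s 1 x})

/-- Systems of classes on the powers of an abelian variety with the formal properties of the system of
the algebraic classes over the extensions of the base field with degrees in `E`. -/
structure ClassSystem (Ω V : Type*) [Field Ω] [AddCommGroup V] [Module Ω V] (g q : ℕ)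
    (F : Module.End Ω V) (R : Subring (Module.End Ω V)) (E : Set ℕ) where
  /-- the classes on `A ^ n` -/
  cls : (n : ℕ) → Submodule Ω (ExteriorAlgebra Ω (Fin n → V))
  /-- they are Tate classes -/
  isTate : ∀ n, cls n ≤ tate F q E n
  /-- the class of the whole space -/
  one_mem : ∀ n, 1 ∈ cls n
  /-- intersection products -/
  mul_mem : ∀ (n : ℕ), ∀ x ∈ cls n, ∀ y ∈ cls n, x * y ∈ cls n
  /-- pull-backs along homomorphisms -/
  pull : ∀ (m n : ℕ) (M : Fin n → Fin m → Module.End Ω V), (∀ i j, M i j ∈ R) →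
    ∀ x ∈ cls m, ExteriorAlgebra.map (act M) x ∈ cls n
  /-- Tate's theorem: divisors -/
  div : ∀ (n : ℕ) (x : ExteriorAlgebra Ω (Fin n → V)), ∀ s ∈ E, IsTate F q n s 1 x → x ∈ cls n
  /-- push-forward along the first projection of `A ^ n × A` of the product of a class with the class
  of a point -/
  push : ∀ (n : ℕ) (x : ExteriorAlgebra Ω (Fin n → V)) (t : ExteriorAlgebra Ω (Fin 1 → V)),
    t ∈ (⋀[Ω]^(2 * g) (Fin 1 → V) : Submodule Ω (ExteriorAlgebra Ω (Fin 1 → V))) → t ≠ 0 →
    ExteriorAlgebra.map (fstS Ω V n) x * ExteriorAlgebra.map (sndS Ω V n) t ∈ cls (n + 1) →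
    x ∈ cls n

end Pool.Agent.K7.H8.AV
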