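import Mathlib

/-!
# Monomials in the exterior algebra of a space with an ordered basis
-/

set_option autoImplicit false

namespace Pool.Agent.K7.H8.AV

open Finset Module

section

variable {Ω : Type*} [Field Ω] {W : Type*} [AddCommGroup W] [Module Ω W]

/-- the product of vectors along a list of indices -/
noncomputable def lm {I : Type*} (v : I → W) (L : List I) : ExteriorAlgebra Ω W :=
  (L.map fun k => ExteriorAlgebra.ι Ω (v k)).prod

lemma lm_nil {I : Type*} (v : I → W) : lm (Ω := Ω) v [] = 1 := rfl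

lemma lm_cons {I : Type*} (v : I → W) (k : I) (L : List I) :
    lm (Ω := Ω) v (k :: L) = ExteriorAlgebra.ι Ω (v k) * lm v L := by
  simp [lm]

lemma lm_append {I : Type*} (v : I → W) (L L' : List I) :
    lm (Ω := Ω) v (L ++ L') = lm v L * lm v L' := by
  simp [lm]

/-- reordering a monomial changes it by a sign only -/
lemma lm_perm {I : Type*} (v : I → W) {L L' : List I} (h : L.Perm L') :
    lm (Ω := Ω) v L = lm v L' ∨ lm (Ω := Ω) v L = - lm v L' := by
  induction h with
  | nil => exact Or.inl rfl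
  | cons k _ ih =>
    rw [lm_cons, lm_cons]
    rcases ih with h | h
    · exact Or.inl (by rw [h])
    · exact Or.inr (by rw [h, mul_neg])
  | swap a b l =>
    right
    rw [lm_cons, lm_cons, lm_cons, lm_cons, ← mul_assoc, ← mul_assoc, ← neg_mul]
    congr 1
    rw [eq_neg_iff_add_eq_zero]
    exact ExteriorAlgebra.ι_add_mul_swap _ _
  | trans _ _ ih1 ih2 =>
    rcases ih1 with h | h <;> rcases ih2 with h' | h'
    · exact Or.inl (h.trans h')
    · exact Or.inr (h.trans h')
    · exact Or.inr (by rw [h, h'])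
    · exact Or.inl (by rw [h, h', neg_neg])

lemma map_lm {I : Type*} (v : I → W) {W' : Type*} [AddCommGroup W'] [Module Ω W'] (f : W →ₗ[Ω] W')
    (L : List I) : ExteriorAlgebra.map f (lm v L) = lm (fun k => f (v k)) L := by
  induction L with
  | nil => simp [lm_nil]
  | cons k L ih => rw [lm_cons, lm_cons, map_mul, ih, ExteriorAlgebra.map_apply_ι]

lemma lm_congr {I : Type*} {v v' : I → W} {L : List I} (h : ∀ k ∈ L, v k = v' k) :
    lm (Ω := Ω) v L = lm v' L := by
  unfold lm
  congr 1
  exact List.map_congr_left fun k hk => by rw [h k hk]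

lemma lm_map {I I' : Type*} (v : I' → W) (σ : I → I') (L : List I) :
    lm (Ω := Ω) (fun k => v (σ k)) L = lm v (L.map σ) := by
  unfold lm
  rw [List.map_map]
  rfl

lemma lm_smul {I : Type*} (v : I → W) (c : I → Ω) (L : List I) :
    lm (Ω := Ω) (fun k => c k • v k) L = (L.map c).prod • lm v L := by
  induction L with
  | nil => simp [lm_nil]
  | cons k L ih =>
    rw [lm_cons, lm_cons, ih, map_smul, List.map_cons, List.prod_cons, smul_mul_smul_comm]

lemma lm_mem {I : Type*} (v : I → W) (L : List I) :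
    lm (Ω := Ω) v L ∈ (⋀[Ω]^L.length W : Submodule Ω (ExteriorAlgebra Ω W)) := by
  induction L with
  | nil =>
    simp only [lm_nil, List.length_nil]
    show (1 : ExteriorAlgebra Ω W) ∈ (LinearMap.range (ExteriorAlgebra.ι Ω) ^ 0 : Submodule Ω _)
    rw [pow_zero]
    exact Submodule.one_le.1 le_rfl
  | cons k L ih =>
    rw [lm_cons, List.length_cons]
    show _ ∈ (LinearMap.range (ExteriorAlgebra.ι Ω) ^ (L.length + 1) : Submodule Ω _)
    rw [pow_succ']
    exact Submodule.mul_mem_mul ⟨_, rfl⟩ ih

end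

section

variable {Ω : Type*} [Field Ω] {W : Type*} [AddCommGroup W] [Module Ω W]
  {I : Type*} [LinearOrder I] (e : Module.Basis I Ω W)

/-- the monomials -/
noncomputable def mon (J : Finset I) : ExteriorAlgebra Ω W := e.ExteriorAlgebra J

lemma mon_ne_zero (J : Finset I) : mon e J ≠ 0 := e.ExteriorAlgebra.ne_zero J

lemma mon_eq (J : Finset I) : mon e J = lm e (J.sort (· ≤ ·)) := by
  unfold mon
  rw [ExteriorAlgebra.basis_apply_ofCard e (s := J) rfl]
  show (List.ofFn fun i => ExteriorAlgebra.ι Ω (e (J.orderEmbOfFin rfl i))).prod = _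
  unfold lm
  congr 1
  apply List.ext_getElem
  · simp
  · intro i h1 h2
    simp [Finset.orderEmbOfFin_apply]

lemma mon_eq_or (J : Finset I) {L : List I} (hL : L.Nodup) (h : ∀ k, k ∈ L ↔ k ∈ J) :
    mon e J = lm e L ∨ mon e J = - lm (Ω := Ω) e L := by
  rw [mon_eq]
  apply lm_perm
  rw [List.perm_ext_iff_of_nodup (Finset.sort_nodup _ _) hL]
  intro k
  rw [Finset.mem_sort, h]

lemma mon_mem (J : Finset I) :
    mon e J ∈ (⋀[Ω]^J.card W : Submodule Ω (ExteriorAlgebra Ω W)) := by
  rw [mon_eq]
  have := lm_mem (Ω := Ω) e (J.sort (· ≤ ·))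
  rwa [Finset.length_sort] at this

lemma mon_empty : mon e (∅ : Finset I) = 1 := by
  rw [mon_eq]
  simp [lm_nil]

/-- up to sign -/
def PM {E : Type*} [Neg E] (x y : E) : Prop := x = y ∨ x = - y

lemma PM.mem {E : Type*} [AddCommGroup E] [Module Ω E] {x y : E} (h : PM x y) (C : Submodule Ω E) :
    x ∈ C ↔ y ∈ C := by
  rcases h with h | h
  · rw [h]
  · rw [h, Submodule.neg_mem_iff]

lemma mon_mul {J J' : Finset I} (h : Disjoint J J') :
    PM (mon e J * mon e J') (mon e (J ∪ J')) := by
  rw [mon_eq e J, mon_eq e J', ← lm_append]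
  have := mon_eq_or e (J ∪ J') (L := J.sort (· ≤ ·) ++ J'.sort (· ≤ ·)) (by
    rw [List.nodup_append']
    refine ⟨Finset.sort_nodup _ _, Finset.sort_nodup _ _, ?_⟩
    intro k hk hk'
    rw [Finset.mem_sort] at hk hk'
    exact Finset.disjoint_left.1 h hk hk') (by
    intro k
    rw [List.mem_append, Finset.mem_sort, Finset.mem_sort, Finset.mem_union])
  rcases this with h | h
  · exact Or.inl h.symm
  · exact Or.inr (by rw [h, neg_neg])

lemma mon_mul_of_not_disjoint {J J' : Finset I} (h : ¬ Disjoint J J') : mon e J * mon e J' = 0 := by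
  have := ExteriorAlgebra.basis_mul_of_not_disjoint e
    (s := (⟨J, rfl⟩ : Set.powersetCard I J.card)) (t := (⟨J', rfl⟩ : Set.powersetCard I J'.card)) h
  exact this

/-- diagonal maps -/
lemma map_mon_diag (f : W →ₗ[Ω] W) (c : I → Ω) (hf : ∀ k, f (e k) = c k • e k) (J : Finset I) :
    ExteriorAlgebra.map f (mon e J) = (∏ k ∈ J, c k) • mon e J := by
  rw [mon_eq, map_lm]
  have : (fun k => f (e k)) = fun k => c k • e k := funext hf
  rw [this, lm_smul]
  congr 1
  rw [← Finset.prod_map_toList]
  exact List.Perm.prod_eq ((Finset.sort_perm_toList _ _).map c)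

variable {W' : Type*} [AddCommGroup W'] [Module Ω W'] {I' : Type*} [LinearOrder I']
  (e' : Module.Basis I' Ω W')

/-- maps which send the basis vectors in `J` to distinct basis vectors -/
lemma map_mon_inj (f : W →ₗ[Ω] W') (σ : I → I') (J : Finset I) (hf : ∀ k ∈ J, f (e k) = e' (σ k))
    (hσ : Set.InjOn σ J) :
    PM (ExteriorAlgebra.map f (mon e J)) (mon e' (J.image σ)) := by
  rw [mon_eq, map_lm, lm_congr (v' := fun k => e' (σ k)), lm_map]
  · have := mon_eq_or e' (J.image σ) (L := (J.sort (· ≤ ·)).map σ) (by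
      rw [List.nodup_map_iff_inj_on (Finset.sort_nodup _ _)]
      intro x hx y hy hxy
      rw [Finset.mem_sort] at hx hy
      exact hσ hx hy hxy) (by
      intro k
      simp)
    rcases this with h | h
    · exact Or.inl h.symm
    · exact Or.inr (by rw [h, neg_neg])
  · intro k hk
    rw [Finset.mem_sort] at hk
    exact hf k hk

end

end Pool.Agent.K7.H8.AV
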