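import Pool.Agent.K7.H8.AV.Defs

/-!
# The standard basis of the first cohomology of `A ^ n`
-/

set_option autoImplicit false

namespace Pool.Agent.K7.H8.AV

open Finset Module

/-- indices of the standard basis of the first cohomology of `A ^ n` -/
structure Ix (g n : ℕ) where
  i : Fin g
  s : Bool
  j : Fin n

lemma Ix.ext' {g n : ℕ} {k l : Ix g n} (h1 : k.i = l.i) (h2 : k.s = l.s) (h3 : k.j = l.j) :
    k = l := by
  cases k; cases l; simp_all

def Ix.equiv (g n : ℕ) : Ix g n ≃ (Σ _ : Fin n, Fin g × Bool) where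
  toFun k := ⟨k.j, (k.i, k.s)⟩
  invFun c := ⟨c.2.1, c.2.2, c.1⟩
  left_inv _ := rfl
  right_inv _ := rfl

noncomputable instance (g n : ℕ) : Fintype (Ix g n) := Fintype.ofEquiv _ (Ix.equiv g n).symm

noncomputable instance (g n : ℕ) : LinearOrder (Ix g n) :=
  LinearOrder.lift' (fun k => Fintype.equivFin (Σ _ : Fin n, Fin g × Bool) (Ix.equiv g n k))
    (fun _ _ h => (Ix.equiv g n).injective ((Fintype.equivFin _).injective h))

section

variable {Ω V : Type*} [Field Ω] [AddCommGroup V] [Module Ω V] {g : ℕ}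
  (b : Module.Basis (Fin g × Bool) Ω V)

/-- the standard basis of the first cohomology of `A ^ n` -/
noncomputable def eb (n : ℕ) : Module.Basis (Ix g n) Ω (Fin n → V) :=
  (Pi.basis fun _ : Fin n => b).reindex (Ix.equiv g n).symm

lemma eb_apply (n : ℕ) (k : Ix g n) : eb b n k = Pi.single k.j (b (k.i, k.s)) := by
  unfold eb
  rw [Module.Basis.reindex_apply, Pi.basis_apply]
  rfl

lemma act_single {m n : ℕ} (M : Fin n → Fin m → Module.End Ω V) (j : Fin m) (v : V) (i : Fin n) :
    act M (Pi.single j v) i = M i j v := by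
  simp only [act, LinearMap.pi_apply, LinearMap.coe_sum, Finset.sum_apply, LinearMap.comp_apply,
    LinearMap.proj_apply]
  rw [Finset.sum_eq_single j]
  · simp
  · intro j' _ h
    simp [Pi.single_eq_of_ne h]
  · simp

/-- the matrix of a map -/
noncomputable def toMat {m n : ℕ} (f : (Fin m → V) →ₗ[Ω] (Fin n → V)) :
    Fin n → Fin m → Module.End Ω V :=
  fun i j => LinearMap.proj i ∘ₗ f ∘ₗ LinearMap.single Ω (fun _ : Fin m => V) j

lemma act_toMat {m n : ℕ} (f : (Fin m → V) →ₗ[Ω] (Fin n → V)) : act (toMat f) = f := by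
  refine LinearMap.pi_ext fun j v => ?_
  funext i
  rw [act_single]
  rfl

lemma act_add {m n : ℕ} (M N : Fin n → Fin m → Module.End Ω V) :
    act (fun i j => M i j + N i j) = act M + act N := by
  refine LinearMap.pi_ext fun j v => ?_
  funext i
  rw [act_single]
  show _ = act M (Pi.single j v) i + act N (Pi.single j v) i
  rw [act_single, act_single]
  rfl

lemma act_smul {m n : ℕ} (c : Ω) (M : Fin n → Fin m → Module.End Ω V) :
    act (fun i j => c • M i j) = c • act M := by
  refine LinearMap.pi_ext fun j v => ?_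
  funext i
  rw [act_single]
  show _ = c • act M (Pi.single j v) i
  rw [act_single]
  rfl

lemma act_zero {m n : ℕ} : act (fun (_ : Fin n) (_ : Fin m) => (0 : Module.End Ω V)) = 0 := by
  refine LinearMap.pi_ext fun j v => ?_
  funext i
  rw [act_single]
  rfl

/-- the maps with matrix entries in `R` -/
noncomputable def matMaps (R : Subring (Module.End Ω V)) (m n : ℕ) :
    AddSubmonoid ((Fin m → V) →ₗ[Ω] (Fin n → V)) where
  carrier := {f | ∃ M : Fin n → Fin m → Module.End Ω V, (∀ i j, M i j ∈ R) ∧ f = act M}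
  add_mem' := by
    rintro _ _ ⟨M, hM, rfl⟩ ⟨N, hN, rfl⟩
    exact ⟨fun i j => M i j + N i j, fun i j => R.add_mem (hM i j) (hN i j), (act_add M N).symm⟩
  zero_mem' := ⟨fun _ _ => 0, fun _ _ => R.zero_mem, act_zero.symm⟩

/-- the matrix with one entry -/
noncomputable def sg {m n : ℕ} (i : Fin n) (j : Fin m) :
    Module.End Ω V →ₗ[Ω] ((Fin m → V) →ₗ[Ω] (Fin n → V)) where
  toFun φ := act fun i' j' => if i' = i ∧ j' = j then φ else 0
  map_add' φ ψ := by
    rw [← act_add]
    congr 1
    funext i' j'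
    split_ifs <;> simp
  map_smul' c φ := by
    rw [RingHom.id_apply, ← act_smul]
    congr 1
    funext i' j'
    split_ifs <;> simp

lemma act_eq_sum {m n : ℕ} (M : Fin n → Fin m → Module.End Ω V) :
    act M = ∑ i, ∑ j, sg i j (M i j) := by
  refine LinearMap.pi_ext fun j v => ?_
  funext i
  rw [act_single]
  simp only [LinearMap.coe_sum, Finset.sum_apply]
  rw [Finset.sum_eq_single i, Finset.sum_eq_single j]
  · show _ = act _ (Pi.single j v) i
    rw [act_single]
    simp
  · intro j' _ hj'
    show act _ (Pi.single j v) i = 0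
    rw [act_single, if_neg]
    · rfl
    · rintro ⟨_, h⟩
      exact hj' h.symm
  · simp
  · intro i' _ hi'
    apply Finset.sum_eq_zero
    intro j' _
    show act _ (Pi.single j v) i = 0
    rw [act_single, if_neg]
    · rfl
    · rintro ⟨h, _⟩
      exact hi' h.symm
  · simp

lemma sg_mem_span (R : Subring (Module.End Ω V)) {m n : ℕ} (i : Fin n) (j : Fin m)
    {φ : Module.End Ω V} (hφ : φ ∈ Submodule.span Ω (R : Set (Module.End Ω V))) :
    sg i j φ ∈ Submodule.span Ω (matMaps R m n : Set ((Fin m → V) →ₗ[Ω] (Fin n → V))) := by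
  have h1 := Submodule.mem_map_of_mem (f := sg (Ω := Ω) (V := V) i j) hφ
  rw [Submodule.map_span] at h1
  refine Submodule.span_mono ?_ h1
  rintro _ ⟨ψ, hψ, rfl⟩
  refine ⟨_, fun i' j' => ?_, rfl⟩
  split_ifs
  · exact hψ
  · exact R.zero_mem

lemma act_mem_span (R : Subring (Module.End Ω V)) {m n : ℕ} (M : Fin n → Fin m → Module.End Ω V)
    (hM : ∀ i j, M i j ∈ Submodule.span Ω (R : Set (Module.End Ω V))) :
    act M ∈ Submodule.span Ω (matMaps R m n : Set ((Fin m → V) →ₗ[Ω] (Fin n → V))) := by
  rw [act_eq_sum]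
  exact Submodule.sum_mem _ fun i _ => Submodule.sum_mem _ fun j _ => sg_mem_span R i j (hM i j)

end

/-- A linear map between powers which commutes with Frobenius preserves the classes of a system. -/
theorem ClassSystem.pull' {Ω V : Type*} [Field Ω] [CharZero Ω] [AddCommGroup V] [Module Ω V]
    {g q : ℕ} {E : Set ℕ} (D : AVData Ω V g q) (S : ClassSystem Ω V g q D.F D.R E) {m n : ℕ}
    (f : (Fin m → V) →ₗ[Ω] (Fin n → V)) (hf : ∀ v, f (fun j => D.F (v j)) = fun i => D.F (f v i))
    (x : ExteriorAlgebra Ω (Fin m → V)) (hx : x ∈ S.cls m) : ExteriorAlgebra.map f x ∈ S.cls n := by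
  refine map_mem_of_span (matMaps D.R m n) (S.cls n) x ?_ f ?_
  · rintro _ ⟨M, hM, rfl⟩
    exact S.pull m n M hM x hx
  · rw [← act_toMat f]
    refine act_mem_span D.R _ fun i j => D.hR _ ?_
    ext v
    show f (Pi.single j (D.F v)) i = D.F (f (Pi.single j v) i)
    have h0 := congrFun (hf (Pi.single j v)) i
    have h1 : (Pi.single j (D.F v) : Fin m → V) = fun j' => D.F ((Pi.single j v : Fin m → V) j') := by
      funext j'
      by_cases h : j' = j
      · subst h; simp
      · simp [Pi.single_eq_of_ne h]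
    rw [h1]
    exact h0

end Pool.Agent.K7.H8.AV
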