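import Mathlib

/-!
# Small generators of the integral solutions of linear equations
-/

set_option autoImplicit false

namespace Pool.Agent.K7.H8.AV

open Finset Matrix

variable {g : ℕ} {R : Type*} (M : R → Fin g → ℤ) (d : ℕ)

/-- there is a nonzero minor of size `r` -/
def HasMinor (r : ℕ) : Prop :=
  ∃ (f : Fin r → R) (c : Fin r → Fin g), (Matrix.of fun a b => M (f a) (c b)).det ≠ 0

lemma hasMinor_zero : HasMinor M 0 := ⟨Fin.elim0, Fin.elim0, by simp⟩

lemma inj_of_minor {r : ℕ} {f : Fin r → R} {c : Fin r → Fin g}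
    (h : (Matrix.of fun a b => M (f a) (c b)).det ≠ 0) : Function.Injective c := by
  intro a b hab
  by_contra hne
  refine h (Matrix.det_zero_of_column_eq hne fun x => ?_)
  simp [hab]

lemma exists_max : ∃ r, HasMinor M r ∧ r ≤ g ∧ ¬ HasMinor M (r + 1) := by
  classical
  have hb : ∀ r, HasMinor M r → r ≤ g := by
    rintro r ⟨f, c, h⟩
    have := Fintype.card_le_of_injective c (inj_of_minor M h)
    simpa using this
  have hP : ∃ r, ¬ HasMinor M (r + 1) := by
    by_contra h
    push Not at h
    have := hb (g + 1) (h g)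
    omega
  refine ⟨Nat.find hP, ?_, ?_, Nat.find_spec hP⟩
  · rcases Nat.eq_zero_or_pos (Nat.find hP) with h | h
    · rw [h]
      exact hasMinor_zero M
    · have := Nat.find_min hP (m := Nat.find hP - 1) (by omega)
      rw [not_not, Nat.sub_add_cancel h] at this
      exact this
  · rcases Nat.eq_zero_or_pos (Nat.find hP) with h | h
    · omega
    · have := Nat.find_min hP (m := Nat.find hP - 1) (by omega)
      rw [not_not, Nat.sub_add_cancel h] at this
      exact hb _ this

/-- the minors that occur in the solution vectors -/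
noncomputable def mnr {r : ℕ} (f : Fin r → R) (c' : Fin (r + 1) → Fin g) (b : Fin (r + 1)) : ℤ :=
  (-1) ^ (r + (b : ℕ)) * (Matrix.of fun (a b' : Fin r) => M (f a) (c' (b.succAbove b'))).det

/-- expansion along the last row -/
lemma det_last {r : ℕ} (f : Fin r → R) (c' : Fin (r + 1) → Fin g) (x : R) :
    (Matrix.of fun (a : Fin (r + 1)) (b : Fin (r + 1)) =>
      M ((Fin.snoc (α := fun _ => R) f x : Fin (r + 1) → R) a) (c' b)).det =
      ∑ b, M x (c' b) * mnr M f c' b := by
  rw [Matrix.det_succ_row _ (Fin.last r)]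
  refine Finset.sum_congr rfl fun b _ => ?_
  unfold mnr
  have h1 : (Matrix.of fun (a : Fin (r + 1)) (b : Fin (r + 1)) =>
      M ((Fin.snoc (α := fun _ => R) f x : Fin (r + 1) → R) a) (c' b)) (Fin.last r) b = M x (c' b) := by
    simp
  have h2 : ((Matrix.of fun (a : Fin (r + 1)) (b : Fin (r + 1)) =>
      M ((Fin.snoc (α := fun _ => R) f x : Fin (r + 1) → R) a) (c' b)).submatrix
        (Fin.last r).succAbove b.succAbove) =
      Matrix.of fun (a b' : Fin r) => M (f a) (c' (b.succAbove b')) := by
    ext a b'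
    simp
  rw [h1, h2, Fin.val_last]
  ring

lemma mnr_bound (hM : ∀ r i, |M r i| ≤ d) {r : ℕ} (f : Fin r → R) (c' : Fin (r + 1) → Fin g)
    (b : Fin (r + 1)) : |mnr M f c' b| ≤ r.factorial * (d : ℤ) ^ r := by
  unfold mnr
  rw [abs_mul, abs_pow, abs_neg, abs_one, one_pow, one_mul]
  have := Matrix.det_le (abv := AbsoluteValue.abs)
    (A := (Matrix.of fun (a b' : Fin r) => M (f a) (c' (b.succAbove b')))) (x := (d : ℤ))
    (fun i j => by simpa using hM _ _)
  simpa using this

/-- Every integral solution with even coordinate sum is a combination of small ones. -/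
theorem lattice_gen (hd : 1 ≤ d) (hM : ∀ r i, |M r i| ≤ d) (ν : Fin g → ℤ)
    (hν : ∀ r, ∑ i, M r i * ν i = 0) (he : Even (∑ i, ν i)) :
    ν ∈ AddSubgroup.closure {μ : Fin g → ℤ | (∀ r, ∑ i, M r i * μ i = 0) ∧ Even (∑ i, μ i) ∧
      ∀ i, |μ i| ≤ 2 * g * (g.factorial * d ^ g)} := by
  classical
  obtain ⟨r, ⟨f, c, hdet⟩, hrg, hmax⟩ := exists_max M
  set Δ := (Matrix.of fun a b => M (f a) (c b)).det with hΔ
  have hinj := inj_of_minor M hdet
  set B : ℤ := g.factorial * (d : ℤ) ^ g with hB
  have hB0 : 0 ≤ B := by positivity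
  have hrB : (r.factorial : ℤ) * (d : ℤ) ^ r ≤ B := by
    have h1 : (r.factorial : ℤ) ≤ g.factorial := by exact_mod_cast Nat.factorial_le hrg
    have h2 : (d : ℤ) ^ r ≤ (d : ℤ) ^ g := pow_le_pow_right₀ (by exact_mod_cast hd) hrg
    exact mul_le_mul h1 h2 (by positivity) (by positivity)
  -- the solution vectors
  let c' : Fin g → Fin (r + 1) → Fin g := fun j => Fin.snoc (α := fun _ => Fin g) c j
  let w : Fin g → Fin g → ℤ := fun j i => ∑ b, if c' j b = i then mnr M f (c' j) b else 0
  have hw : ∀ j x, ∑ i, M x i * w j i = 0 := by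
    intro j x
    have h1 : ∑ i, M x i * w j i = ∑ b, M x (c' j b) * mnr M f (c' j) b := by
      simp only [w, Finset.mul_sum]
      rw [Finset.sum_comm]
      refine Finset.sum_congr rfl fun b _ => ?_
      rw [Finset.sum_eq_single (c' j b)]
      · simp
      · intro i _ hi
        rw [if_neg (Ne.symm hi), mul_zero]
      · simp
    rw [h1, ← det_last]
    by_contra hne
    exact hmax ⟨_, _, hne⟩
  have hc'last : ∀ j, c' j (Fin.last r) = j := fun j => by simp [c']
  have hc'cs : ∀ j b, c' j (Fin.castSucc b) = c b := fun j b => by simp [c']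
  have hc'inj : ∀ j, j ∉ Set.range c → Function.Injective (c' j) := by
    intro j hj a b hab
    induction a using Fin.lastCases with
    | last =>
      induction b using Fin.lastCases with
      | last => rfl
      | cast b =>
        rw [hc'last, hc'cs] at hab
        exact absurd ⟨b, hab.symm⟩ hj
    | cast a =>
      induction b using Fin.lastCases with
      | last =>
        rw [hc'last, hc'cs] at hab
        exact absurd ⟨a, hab⟩ hj
      | cast b =>
        rw [hc'cs, hc'cs] at hab
        rw [hinj hab]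
  have hwb : ∀ j, j ∉ Set.range c → ∀ i, |w j i| ≤ B := by
    intro j hj i
    by_cases hi : ∃ b, c' j b = i
    · obtain ⟨b, rfl⟩ := hi
      have : w j (c' j b) = mnr M f (c' j) b := by
        simp only [w]
        rw [Finset.sum_eq_single b]
        · simp
        · intro b' _ hb'
          rw [if_neg fun h => hb' (hc'inj j hj h)]
        · simp
      rw [this]
      exact (mnr_bound M d hM f (c' j) b).trans hrB
    · push Not at hi
      have : w j i = 0 := Finset.sum_eq_zero fun b _ => if_neg (hi b)
      rw [this, abs_zero]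
      exact hB0
  have hwj : ∀ j, j ∉ Set.range c → w j j = Δ := by
    intro j hj
    simp only [w]
    rw [Finset.sum_eq_single (Fin.last r)]
    · rw [if_pos (hc'last j)]
      unfold mnr
      rw [Fin.val_last, ← two_mul, pow_mul, neg_one_sq, one_pow, one_mul, hΔ]
      congr 1
      ext a b
      simp [hc'cs, Fin.succAbove_last]
    · intro b _ hb
      rw [if_neg]
      intro h
      apply hb
      apply hc'inj j hj
      rw [h, hc'last]
    · simp
  have hwne : ∀ j j', j ∉ Set.range c → j' ∉ Set.range c → j' ≠ j → w j j' = 0 := by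
    intro j j' _ hj' hne
    refine Finset.sum_eq_zero fun b _ => if_neg ?_
    induction b using Fin.lastCases with
    | last => rw [hc'last]; exact Ne.symm hne
    | cast b =>
      rw [hc'cs]
      exact fun h => hj' ⟨b, h⟩
  -- solutions are determined by the coordinates outside of `range c`
  have huniq : ∀ μ : Fin g → ℤ, (∀ x, ∑ i, M x i * μ i = 0) → (∀ i, i ∉ Set.range c → μ i = 0) →
      μ = 0 := by
    intro μ h1 h2
    have h3 : (Matrix.of fun a b => M (f a) (c b)) *ᵥ (fun b => μ (c b)) = 0 := by
      funext a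
      have h4 := h1 (f a)
      have h5 : ∑ i, M (f a) i * μ i = ∑ i ∈ Finset.univ.image c, M (f a) i * μ i := by
        symm
        apply Finset.sum_subset (Finset.subset_univ _)
        intro i _ hi
        rw [h2 i (by simpa using hi), mul_zero]
      rw [h5, Finset.sum_image (fun a _ b _ h => hinj h)] at h4
      simpa [Matrix.mulVec, dotProduct] using h4
    have h6 := Matrix.eq_zero_of_mulVec_eq_zero hdet h3
    funext i
    by_cases hi : i ∈ Set.range c
    · obtain ⟨b, rfl⟩ := hi
      exact congrFun h6 b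
    · exact h2 i hi
  -- division with remainder
  set J : Finset (Fin g) := Finset.univ.filter fun j => j ∉ Set.range c with hJ
  have hJm : ∀ j, j ∈ J ↔ j ∉ Set.range c := fun j => by simp [hJ]
  set ν' : Fin g → ℤ := ν - ∑ j ∈ J, (ν j / (2 * Δ)) • (2 • w j) with hν'
  have hsol : ∀ x, ∑ i, M x i * ν' i = 0 := by
    intro x
    have h1 : ∀ j, ∑ i, M x i * (2 • w j) i = 0 := by
      intro j
      have : ∑ i, M x i * (2 • w j) i = 2 * ∑ i, M x i * w j i := by
        rw [Finset.mul_sum]
        refine Finset.sum_congr rfl fun i _ => ?_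
        simp only [Pi.smul_apply, nsmul_eq_mul]
        push_cast
        ring
      rw [this, hw, mul_zero]
    have h2 : ∑ i, M x i * ν' i = ∑ i, M x i * ν i -
        ∑ j ∈ J, (ν j / (2 * Δ)) * ∑ i, M x i * (2 • w j) i := by
      simp only [hν', Pi.sub_apply, Finset.sum_apply, Pi.smul_apply, mul_sub,
        Finset.sum_sub_distrib, Finset.mul_sum, smul_eq_mul]
      congr 1
      rw [Finset.sum_comm]
      refine Finset.sum_congr rfl fun j _ => Finset.sum_congr rfl fun i _ => ?_
      ring
    rw [h2, hν, Finset.sum_eq_zero fun j _ => by rw [h1, mul_zero], sub_zero]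
  have hsum2 : ∀ j, ∑ i, (2 • w j) i = 2 * ∑ i, w j i := by
    intro j
    rw [Finset.mul_sum]
    exact Finset.sum_congr rfl fun i _ => by simp
  have heven : Even (∑ i, ν' i) := by
    have h2 : ∑ i, ν' i = ∑ i, ν i - ∑ j ∈ J, (ν j / (2 * Δ)) * ∑ i, (2 • w j) i := by
      simp only [hν', Pi.sub_apply, Finset.sum_apply, Pi.smul_apply, Finset.sum_sub_distrib,
        Finset.mul_sum, smul_eq_mul]
      congr 1
      rw [Finset.sum_comm]
    rw [h2]
    refine he.sub (Finset.even_sum _ fun j _ => ?_)
    rw [hsum2]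
    exact ((even_two_mul _).mul_left _)
  have hcoord : ∀ j ∈ J, ν' j = ν j % (2 * Δ) := by
    intro j hj
    simp only [hν', Pi.sub_apply, Finset.sum_apply, Pi.smul_apply, smul_eq_mul]
    rw [Finset.sum_eq_single j]
    · rw [hwj j ((hJm j).1 hj)]
      have := Int.emod_add_mul_ediv (ν j) (2 * Δ)
      simp only [nsmul_eq_mul]
      push_cast
      linear_combination -this
    · intro j' hj' hne
      rw [hwne j' j ((hJm j').1 hj') ((hJm j).1 hj) (Ne.symm hne)]
      simp
    · intro h
      exact absurd hj h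
  have hexp : ∀ i, Δ * ν' i = ∑ j ∈ J, (ν j % (2 * Δ)) * w j i := by
    have h1 := huniq (fun i => Δ * ν' i - ∑ j ∈ J, (ν j % (2 * Δ)) * w j i) ?_ ?_
    · intro i
      exact sub_eq_zero.1 (congrFun h1 i)
    · intro x
      have h2 : ∑ i, M x i * (Δ * ν' i - ∑ j ∈ J, (ν j % (2 * Δ)) * w j i) =
          Δ * ∑ i, M x i * ν' i - ∑ j ∈ J, (ν j % (2 * Δ)) * ∑ i, M x i * w j i := by
        simp only [mul_sub, Finset.sum_sub_distrib, Finset.mul_sum]
        congr 1
        · exact Finset.sum_congr rfl fun i _ => by ring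
        · rw [Finset.sum_comm]
          exact Finset.sum_congr rfl fun j _ => Finset.sum_congr rfl fun i _ => by ring
      rw [h2, hsol]
      simp [hw]
    · intro i hi
      have hi' : i ∈ J := (hJm i).2 hi
      rw [hcoord i hi', Finset.sum_eq_single i, hwj i hi]
      · ring
      · intro j hj hne
        rw [hwne j i ((hJm j).1 hj) hi (Ne.symm hne), mul_zero]
      · intro h
        exact absurd hi' h
  have hΔ0 : Δ ≠ 0 := hdet
  have hsmall : ∀ i, |ν' i| ≤ 2 * g * (g.factorial * d ^ g) := by
    intro i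
    have h1 : |Δ| * |ν' i| ≤ |Δ| * (2 * g * B) := by
      rw [← abs_mul, hexp i]
      calc |∑ j ∈ J, (ν j % (2 * Δ)) * w j i| ≤ ∑ j ∈ J, |(ν j % (2 * Δ)) * w j i| :=
            Finset.abs_sum_le_sum_abs _ _
        _ ≤ ∑ j ∈ J, (2 * |Δ|) * B := by
            refine Finset.sum_le_sum fun j hj => ?_
            rw [abs_mul]
            refine mul_le_mul ?_ (hwb j ((hJm j).1 hj) i) (abs_nonneg _) (by positivity)
            have h2 : (2 * Δ) ≠ 0 := mul_ne_zero two_ne_zero hΔ0
            rw [abs_of_nonneg (Int.emod_nonneg _ h2)]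
            have h3 := Int.emod_lt_abs (ν j) h2
            rw [abs_mul, abs_two] at h3
            exact h3.le
        _ = J.card * ((2 * |Δ|) * B) := by rw [Finset.sum_const, nsmul_eq_mul]
        _ ≤ g * ((2 * |Δ|) * B) := by
            have h4 : (J.card : ℤ) ≤ g := by
              have := Finset.card_le_univ J
              rw [Fintype.card_fin] at this
              exact_mod_cast this
            exact mul_le_mul_of_nonneg_right h4 (by positivity)
        _ = |Δ| * (2 * g * B) := by ring
    exact le_of_mul_le_mul_left h1 (abs_pos.2 hΔ0)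
  have hmem2 : ∀ j ∈ J, (2 • w j) ∈ AddSubgroup.closure {μ : Fin g → ℤ |
      (∀ r, ∑ i, M r i * μ i = 0) ∧ Even (∑ i, μ i) ∧
      ∀ i, |μ i| ≤ 2 * g * (g.factorial * d ^ g)} := by
    intro j hj
    refine AddSubgroup.subset_closure ⟨fun x => ?_, ?_, fun i => ?_⟩
    · have : ∑ i, M x i * (2 • w j) i = 2 * ∑ i, M x i * w j i := by
        rw [Finset.mul_sum]
        refine Finset.sum_congr rfl fun i _ => ?_
        simp only [Pi.smul_apply, nsmul_eq_mul]
        push_cast
        ring
      rw [this, hw, mul_zero]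
    · rw [hsum2]
      exact even_two_mul _
    · have h1 : (1 : ℤ) ≤ g := by
        have : 0 < g := j.pos
        exact_mod_cast this
      have h2 : |(2 • w j) i| = 2 * |w j i| := by
        simp [abs_mul]
      rw [h2]
      have h3 := hwb j ((hJm j).1 hj) i
      have h4 : B ≤ g * B := by nlinarith
      calc 2 * |w j i| ≤ 2 * B := by linarith
        _ ≤ 2 * (g * B) := by linarith
        _ = 2 * g * (g.factorial * d ^ g) := by rw [hB]; ring
  have hfin : ν = ν' + ∑ j ∈ J, (ν j / (2 * Δ)) • (2 • w j) := by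
    rw [hν']
    abel
  rw [hfin]
  refine AddSubgroup.add_mem _ (AddSubgroup.subset_closure ⟨hsol, heven, hsmall⟩) ?_
  exact AddSubgroup.sum_mem _ fun j hj => AddSubgroup.zsmul_mem _ (hmem2 j hj) _

end Pool.Agent.K7.H8.AV
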