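import Pool.Agent.K7.H8.AV.Main

/-!
# The cohomology of the powers of an abelian variety: definitions for the statements
-/

set_option autoImplicit false

namespace Pool.Agent.K7.H8.AV

variable {Ω V : Type*} [Field Ω] [CharZero Ω] [AddCommGroup V] [Module Ω V]
    {g q : ℕ} (D : AVData Ω V g q)

/-- the same system in terms of the exterior algebra -/
noncomputable def AlgSystem.lib (S : AlgSystem D) : ClassSystem Ω V g q D.F D.R pos where
  cls n := S.cls n
  isTate n := S.le_tate n
  one_mem n := (S.mul_closed n).1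
  mul_mem n := (S.mul_closed n).2
  pull := S.pull_closed
  div n x s hs h := S.divisors n s x hs h
  push n x t h1 h2 h := S.push_closed n x t ⟨h1, h2⟩ h

theorem growth_main :
    theta D ≤ kappa D ∧
    Growth g (theta D) (fun n => dim (tateSpan D.F q n)) ∧
    Growth g (kappa D) (fun n => dim (lefschetz D.F q n)) ∧
    (theta D = kappa D ↔ ∀ n, tateSpan D.F q n = lefschetz D.F q n) ∧
    ∀ S : AlgSystem D, ∃ e : ℕ, theta D ≤ e ∧ e ≤ kappa D ∧
      Growth g e (fun n => dim (S.cls n)) ∧
      (e = kappa D ↔ ∀ n, S.cls n = lefschetz D.F q n) :=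
  ⟨theta_le_kappa D, growth_tate D, growth_lef D, tate_eq_lef_iff D, fun S =>
    ⟨expo D (S.lib D), theta_le_expo D _, expo_le_kappa D _, growth_cls D (S.lib D),
      cls_eq_lef_iff D (S.lib D)⟩⟩

end Pool.Agent.K7.H8.AV
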