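import Pool.Agent.K7.H8.AV.SlopeDefs
import Pool.Agent.K7.H8.AV.Lat
import Pool.Agent.K7.H8.AV.Stmt

/-!
# The relations between the eigenvalues are given by the slopes
-/

set_option autoImplicit false
set_option linter.unusedSectionVars false

namespace Pool.Agent.K7.H8.AV

open NumberField IsDedekindDomain Finset

section field

variable {K : Type*} [Field K] [NumberField K] {g q d : ℕ} {a : Fin g → K}

lemma weil_ne (hq : q ≠ 0) (hw : AreWeil q a) (i : Fin g) : a i ≠ 0 := by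
  intro h
  obtain ⟨φ⟩ : Nonempty (K →+* ℂ) := inferInstance
  have := hw i φ
  rw [h, map_zero, norm_zero] at this
  simp at this
  exact hq (by exact_mod_cast this.symm)

/-- the logarithm of the valuation -/
noncomputable def lv (v : HeightOneSpectrum (𝓞 K)) (x : K) : ℤ := WithZero.log (v.valuation K x)

lemma lv_mul (v : HeightOneSpectrum (𝓞 K)) {x y : K} (hx : x ≠ 0) (hy : y ≠ 0) :
    lv v (x * y) = lv v x + lv v y := by
  unfold lv
  rw [map_mul, WithZero.log_mul ((Valuation.ne_zero_iff _).2 hx) ((Valuation.ne_zero_iff _).2 hy)]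

lemma lv_pow (v : HeightOneSpectrum (𝓞 K)) (x : K) (n : ℕ) : lv v (x ^ n) = n * lv v x := by
  unfold lv
  rw [map_pow, WithZero.log_pow, nsmul_eq_mul]

lemma lv_zpow (v : HeightOneSpectrum (𝓞 K)) (x : K) (n : ℤ) : lv v (x ^ n) = n * lv v x := by
  unfold lv
  rw [map_zpow₀, WithZero.log_zpow, smul_eq_mul]

lemma lv_prod (v : HeightOneSpectrum (𝓞 K)) {ι : Type*} (s : Finset ι) (f : ι → K)
    (hf : ∀ i ∈ s, f i ≠ 0) : lv v (∏ i ∈ s, f i) = ∑ i ∈ s, lv v (f i) := by
  classical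
  induction s using Finset.induction_on with
  | empty => simp [lv]
  | insert i s hi ih =>
    rw [Finset.prod_insert hi, Finset.sum_insert hi, lv_mul v (hf i (by simp))
      (Finset.prod_ne_zero_iff.2 fun j hj => hf j (by simp [hj])), ih fun j hj => hf j (by simp [hj])]

variable (hq : 2 ≤ q) (hd : 1 ≤ d) (hw : AreWeil q a) (hs : SlopesIn q d a)

include hs in
lemma exists_z (v : HeightOneSpectrum (𝓞 K)) (i : Fin g) :
    ∃ z : ℕ, z ≤ d ∧ (d : ℤ) * lv v (a i) = z * lv v (q : K) := by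
  obtain ⟨z, hz, h⟩ := hs i v
  refine ⟨z, hz, ?_⟩
  rw [← lv_pow, ← lv_pow]
  unfold lv
  rw [map_pow, map_pow, h]

/-- the numerators of the slopes -/
noncomputable def zz (hs : SlopesIn q d a) (v : HeightOneSpectrum (𝓞 K)) (i : Fin g) : ℕ :=
  (exists_z hs v i).choose

/-- the equations -/
noncomputable def eqn (hs : SlopesIn q d a)
    (v : {v : HeightOneSpectrum (𝓞 K) // lv v (q : K) ≠ 0}) (i : Fin g) : ℤ :=
  2 * (zz hs v.1 i : ℤ) - d

lemma eqn_le (v : {v : HeightOneSpectrum (𝓞 K) // lv v (q : K) ≠ 0}) (i : Fin g) :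
    |eqn hs v i| ≤ d := by
  have h := (exists_z hs v.1 i).choose_spec.1
  change zz hs v.1 i ≤ d at h
  unfold eqn
  rw [abs_le]
  constructor <;> omega

lemma lv_eqn (v : HeightOneSpectrum (𝓞 K)) (ν : Fin g → ℤ) :
    2 * (d : ℤ) * ∑ i, ν i * lv v (a i) = lv v (q : K) * (∑ i, (2 * (zz hs v i : ℤ) - d) * ν i +
      d * ∑ i, ν i) := by
  rw [Finset.mul_sum, Finset.mul_sum (a := (d : ℤ)), ← Finset.sum_add_distrib, Finset.mul_sum]
  refine Finset.sum_congr rfl fun i _ => ?_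
  have h := (exists_z hs v i).choose_spec.2
  change (d : ℤ) * lv v (a i) = (zz hs v i) * lv v (q : K) at h
  linear_combination 2 * ν i * h

include hq hd hw in
/-- A solution of the equations with even sum is a relation. -/
lemma rel_of_eqn (ν : Fin g → ℤ) (hν : ∀ v, ∑ i, eqn hs v i * ν i = 0) {k : ℤ}
    (hk : ∑ i, ν i = 2 * k) : ∃ s : ℕ, 0 < s ∧ (∏ i, a i ^ ν i) ^ s = (q : K) ^ ((s : ℤ) * k) := by
  have hq0 : (q : K) ≠ 0 := Nat.cast_ne_zero.2 (by omega)
  have ha := weil_ne (by omega) hw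
  have hP : (∏ i, a i ^ ν i) ≠ 0 := Finset.prod_ne_zero_iff.2 fun i _ => zpow_ne_zero _ (ha i)
  set u : K := (∏ i, a i ^ ν i) / (q : K) ^ k with hu
  have hu0 : u ≠ 0 := div_ne_zero hP (zpow_ne_zero _ hq0)
  have hlu : ∀ v : HeightOneSpectrum (𝓞 K), lv v u = 0 := by
    intro v
    have h1 : lv v (∏ i, a i ^ ν i) = lv v u + k * lv v (q : K) := by
      rw [← lv_zpow, ← lv_mul v hu0 (zpow_ne_zero _ hq0), hu, div_mul_cancel₀ _ (zpow_ne_zero _ hq0)]
    rw [lv_prod v _ _ fun i _ => zpow_ne_zero _ (ha i)] at h1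
    simp only [lv_zpow] at h1
    have h2 := lv_eqn hs v ν
    rw [h1, hk] at h2
    have h3 : lv v (q : K) * ∑ i, (2 * (zz hs v i : ℤ) - d) * ν i = 0 := by
      by_cases h0 : lv v (q : K) = 0
      · rw [h0, zero_mul]
      · have := hν ⟨v, h0⟩
        unfold eqn at this
        rw [this, mul_zero]
    have h4 : 2 * (d : ℤ) * lv v u = 0 := by linear_combination h2 + h3
    have h5 : (2 * (d : ℤ)) ≠ 0 := by positivity
    exact (mul_eq_zero.1 h4).resolve_left h5
  have hint : IsIntegral ℤ u := by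
    have h1 := HeightOneSpectrum.mem_integers_of_valuation_le_one (R := 𝓞 K) K u fun v => by
      have h2 := hlu v
      unfold lv at h2
      have h3 : v.valuation K u ≠ 0 := (Valuation.ne_zero_iff _).2 hu0
      have h4 : v.valuation K u = 1 := by
        have := WithZero.exp_log h3
        rw [← this, h2]
        rfl
      rw [h4]
    obtain ⟨y, hy⟩ := h1
    rw [← hy]
    exact y.isIntegral_coe
  have hnorm : ∀ φ : K →+* ℂ, ‖φ u‖ = 1 := by
    intro φ
    have h1 : ‖φ u‖ ^ 2 = 1 := by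
      rw [hu, map_div₀, map_prod, map_zpow₀, norm_div, norm_prod, norm_zpow, map_natCast,
        Complex.norm_natCast, div_pow, ← Finset.prod_pow]
      have h2 : ∀ i, ‖φ (a i ^ ν i)‖ ^ 2 = (q : ℝ) ^ ν i := by
        intro i
        rw [map_zpow₀, norm_zpow, ← zpow_natCast, ← zpow_mul, mul_comm, zpow_mul, zpow_natCast, hw]
      have hqr : (q : ℝ) ≠ 0 := Nat.cast_ne_zero.2 (by omega)
      rw [Finset.prod_congr rfl fun i _ => h2 i]
      have h3 : ∏ i, (q : ℝ) ^ ν i = (q : ℝ) ^ ∑ i, ν i := by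
        clear h2
        classical
        induction (Finset.univ : Finset (Fin g)) using Finset.induction_on with
        | empty => simp
        | insert i s hi ih => rw [Finset.prod_insert hi, Finset.sum_insert hi, ih, zpow_add₀ hqr]
      rw [h3, hk, ← zpow_natCast ((q : ℝ) ^ k), ← zpow_mul]
      rw [show k * ((2 : ℕ) : ℤ) = 2 * k by push_cast; ring]
      exact div_self (zpow_ne_zero _ hqr)
    have h2 : 0 ≤ ‖φ u‖ := norm_nonneg _
    nlinarith
  obtain ⟨s, hs0, h⟩ := Embeddings.pow_eq_one_of_norm_eq_one K ℂ hint hnorm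
  refine ⟨s, hs0, ?_⟩
  have h1 : (∏ i, a i ^ ν i) = u * (q : K) ^ k := by
    rw [hu, div_mul_cancel₀ _ (zpow_ne_zero _ hq0)]
  rw [h1, mul_pow, h, one_mul, ← zpow_natCast, ← zpow_mul, mul_comm]

include hq hw in
/-- A relation satisfies the equations. -/
lemma eqn_of_rel {ν : Fin g → ℤ} {s : ℕ} (hs0 : 0 < s) {k : ℤ} (hk : ∑ i, ν i = 2 * k)
    (h : (∏ i, a i ^ ν i) ^ s = (q : K) ^ ((s : ℤ) * k))
    (v : {v : HeightOneSpectrum (𝓞 K) // lv v (q : K) ≠ 0}) : ∑ i, eqn hs v i * ν i = 0 := by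
  have ha := weil_ne (by omega) hw
  have h1 := congrArg (lv v.1) h
  rw [lv_pow, lv_zpow, lv_prod v.1 _ _ fun i _ => zpow_ne_zero _ (ha i)] at h1
  simp only [lv_zpow] at h1
  have h2 := lv_eqn hs v.1 ν
  have hs1 : (s : ℤ) ≠ 0 := by exact_mod_cast hs0.ne'
  have h3 : ∑ i, ν i * lv v.1 (a i) = k * lv v.1 (q : K) := by
    apply mul_left_cancel₀ hs1
    rw [h1]
    ring
  rw [h3, hk] at h2
  have h4 : lv v.1 (q : K) * ∑ i, (2 * (zz hs v.1 i : ℤ) - d) * ν i = 0 := by
    linear_combination -h2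
  exact (mul_eq_zero.1 h4).resolve_left v.2

end field

section

variable {Ω V : Type*} [Field Ω] [CharZero Ω] [AddCommGroup V] [Module Ω V]
    {g q : ℕ} (D : AVData Ω V g q) {K : Type*} [Field K] [NumberField K] (ι : K →+* Ω)
    {a : Fin g → K} (ha : ∀ i, ι (a i) = D.α i) {d : ℕ} (hd : 1 ≤ d) (hw : AreWeil q a)
    (hs : SlopesIn q d a)

include ha in
lemma rel_iff_field (ν : Fin g → ℤ) (s : ℕ) (k : ℤ) :
    (∏ i, D.α i ^ ν i) ^ s = (q : Ω) ^ ((s : ℤ) * k) ↔
      (∏ i, a i ^ ν i) ^ s = (q : K) ^ ((s : ℤ) * k) := by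
  have h1 : ι ((∏ i, a i ^ ν i) ^ s) = (∏ i, D.α i ^ ν i) ^ s := by
    rw [map_pow, map_prod]
    congr 1
    refine Finset.prod_congr rfl fun i _ => ?_
    rw [map_zpow₀, ha]
  have h2 : ι ((q : K) ^ ((s : ℤ) * k)) = (q : Ω) ^ ((s : ℤ) * k) := by
    rw [map_zpow₀, map_natCast]
  rw [← h1, ← h2]
  exact ι.injective.eq_iff

include ha hd hw hs in
/-- All relations are combinations of small ones. -/
lemma rel_gen {ν : Fin g → ℤ} (hν : ν ∈ rel q D.α pos) :
    ν ∈ AddSubmonoid.closure {μ : Fin g → ℤ | μ ∈ rel q D.α pos ∧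
      ∀ i, |μ i| ≤ 2 * g * (g.factorial * d ^ g)} := by
  obtain ⟨s, hs0, k, hk, h⟩ := hν
  rw [rel_iff_field D ι ha] at h
  have h1 := lattice_gen (eqn hs) d hd (fun v i => eqn_le hs v i) ν
    (fun v => eqn_of_rel D.hq hw hs hs0 hk h v) ⟨k, by rw [hk]; ring⟩
  have h2 : {μ : Fin g → ℤ | (∀ r, ∑ i, eqn hs r i * μ i = 0) ∧ Even (∑ i, μ i) ∧
      ∀ i, |μ i| ≤ 2 * g * (g.factorial * d ^ g)} ⊆ {μ : Fin g → ℤ | μ ∈ rel q D.α pos ∧
      ∀ i, |μ i| ≤ 2 * g * (g.factorial * d ^ g)} := by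
    rintro μ ⟨h3, ⟨k', hk'⟩, h5⟩
    obtain ⟨s', hs', h6⟩ := rel_of_eqn D.hq hd hw hs μ h3 (k := k') (by rw [hk']; ring)
    exact ⟨⟨s', hs', k', by rw [hk']; ring, (rel_iff_field D ι ha μ s' k').2 h6⟩, h5⟩
  have h3 := AddSubgroup.closure_mono h2 h1
  rw [← AddSubgroup.mem_toAddSubmonoid, AddSubgroup.closure_toAddSubmonoid] at h3
  refine AddSubmonoid.closure_mono ?_ h3
  rintro μ (h4 | h4)
  · exact h4
  · obtain ⟨⟨s', hs', k', hk', h5⟩, h6⟩ := h4
    refine ⟨⟨s', hs', -k', ?_, ?_⟩, fun i => ?_⟩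
    · simp only [Pi.neg_apply, Finset.sum_neg_distrib] at hk'
      linarith
    · have h7 : ∏ i, D.α i ^ (-μ) i = (∏ i, D.α i ^ μ i)⁻¹ := by
        rw [← Finset.prod_inv_distrib]
        exact Finset.prod_congr rfl fun i _ => by rw [Pi.neg_apply, zpow_neg]
      rw [h7, inv_pow] at h5
      rw [mul_neg, zpow_neg, ← h5, inv_inv]
    · have := h6 i
      rwa [Pi.neg_apply, abs_neg] at this

/-- a set of basis vectors of given weight -/
lemma exists_J_le {n : ℕ} {μ : Fin g → ℤ} (h : ∀ i, |μ i| ≤ n) :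
    ∃ J : Finset (Ix g n), wtHom g (tp J) = μ := by
  classical
  set t : Fin g → Bool → ℕ := fun i s => if s then (μ i).toNat else (-μ i).toNat with ht
  have e1 : tp (bl n 0 t) = t := by
    funext i s
    refine tp_bl n 0 t (fun i s => ?_) i s
    have := h i
    rw [abs_le] at this
    cases s <;> simp [ht] <;> omega
  refine ⟨bl n 0 t, ?_⟩
  rw [e1]
  funext i
  simp only [wtHom, AddMonoidHom.coe_mk, ZeroHom.coe_mk, ht]
  simp

include ha hd hw hs in
theorem effective_gen (S : AlgSystem D) (N : ℕ) (hN : N = 2 * g * (g.factorial * d ^ g))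
    (hT : tateSpan D.F q N = S.cls N) (n : ℕ) : tateSpan D.F q n = S.cls n := by
  refine le_antisymm ?_ (S.le_tate n)
  have hgen : rel q D.α pos ⊆ (wS D (S.lib D) : Set (Fin g → ℤ)) := by
    intro ν hν
    refine (AddSubmonoid.closure_le.2 ?_) (rel_gen D ι ha hd hw hs hν)
    rintro μ ⟨h1, h2⟩
    obtain ⟨J, hJ⟩ := exists_J_le (n := N) (μ := μ) (fun i => by
      have := h2 i
      rw [hN]
      push_cast
      exact this)
    have h3 : mon (eb D.b N) J ∈ tate D.F q pos N := by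
      rw [mon_mem_tate_iff, hJ]
      exact h1
    have h4 : mon (eb D.b N) J ∈ (S.lib D).cls N := by
      have h5 : mon (eb D.b N) J ∈ tateSpan D.F q N := h3
      rw [hT] at h5
      exact h5
    rw [mon_mem_iff D (S.lib D) pos_nonempty, hJ] at h4
    exact h4
  have h1 := eq_span (eb D.b n) (tate D.F q pos n) (tate_dbl D pos n)
  show tate D.F q pos n ≤ (S.lib D).cls n
  rw [h1, Submodule.span_le]
  rintro _ ⟨J, hJ, rfl⟩
  have hJ' : mon (eb D.b n) J ∈ tate D.F q pos n := hJ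
  rw [mon_mem_tate_iff] at hJ'
  exact (mon_mem_iff D (S.lib D) pos_nonempty J).2 (hgen hJ')

end

end Pool.Agent.K7.H8.AV
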