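import Pool.Agent.K7.H8.AV.TateDim
import Pool.Agent.K7.H8.AV.Asym

/-!
# Products of Tate classes of degree two

A set of basis vectors is matched if it can be divided into pairs of Tate type. We show that the
monomials which belong to the algebra generated by the Tate classes of degree two are those of
matched sets, and that a set is matched if and only if its weight is in the monoid generated by the
relations of length two, if and only if its weight is a relation and belongs to the space spanned by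
the relations of length two.
-/

set_option autoImplicit false

namespace Pool.Agent.K7.H8.AV

open Finset Module

section vectors

variable {g : ℕ}

/-- the index of the dual eigenvalue -/
def opp (c : Fin g × Bool) : Fin g × Bool := (c.1, !c.2)

lemma opp_opp (c : Fin g × Bool) : opp (opp c) = c := by simp [opp]

lemma opp_ne (c : Fin g × Bool) : opp c ≠ c := by
  intro h
  have := congrArg Prod.snd h
  simp [opp] at this

/-- the weight of a basis vector -/
def uu (c : Fin g × Bool) : Fin g → ℤ := Pi.single c.1 (if c.2 then 1 else -1)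

lemma uu_opp (c : Fin g × Bool) : uu (opp c) = - uu c := by
  funext i
  rcases c with ⟨j, s⟩
  by_cases h : i = j
  · subst h
    cases s <;> simp [uu, opp]
  · simp [uu, opp, Pi.single_eq_of_ne h]

/-- the index of a basis vector -/
def Ix.c {n : ℕ} (k : Ix g n) : Fin g × Bool := (k.i, k.s)

lemma wt_eq_sum {n : ℕ} (J : Finset (Ix g n)) : wtHom g (tp J) = ∑ k ∈ J, uu k.c := by
  classical
  funext i
  rw [Finset.sum_apply]
  have h1 : ∀ k ∈ J, uu k.c i = (if k.i = i ∧ k.s = true then 1 else 0) -
      (if k.i = i ∧ k.s = false then 1 else 0) := by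
    intro k _
    unfold uu Ix.c
    by_cases h : k.i = i
    · subst h
      simp only [Pi.single_eq_same, true_and]
      cases k.s <;> simp
    · rw [Pi.single_eq_of_ne (Ne.symm h)]
      simp [h]
  rw [Finset.sum_congr rfl h1, Finset.sum_sub_distrib, ← Finset.sum_filter, ← Finset.sum_filter]
  simp only [Finset.sum_const, nsmul_eq_mul, mul_one]
  rfl

end vectors

section

variable {Ω V : Type*} [Field Ω] [CharZero Ω] [AddCommGroup V] [Module Ω V]
    {g q : ℕ} (D : AVData Ω V g q)

lemma pos_nonempty : pos.Nonempty := ⟨1, Nat.one_pos⟩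

/-- equality up to roots of unity -/
def AVData.eqv (c d : Fin g × Bool) : Prop := ∃ s : ℕ, 0 < s ∧ D.ev c.1 c.2 ^ s = D.ev d.1 d.2 ^ s

variable {D}

omit [CharZero Ω] in
lemma eqv_refl (c : Fin g × Bool) : D.eqv c c := ⟨1, one_pos, rfl⟩

omit [CharZero Ω] in
lemma eqv_symm {c d : Fin g × Bool} (h : D.eqv c d) : D.eqv d c := by
  obtain ⟨s, hs, h⟩ := h
  exact ⟨s, hs, h.symm⟩

omit [CharZero Ω] in
lemma eqv_trans {c d e : Fin g × Bool} (h : D.eqv c d) (h' : D.eqv d e) : D.eqv c e := by
  obtain ⟨s, hs, h⟩ := h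
  obtain ⟨s', hs', h'⟩ := h'
  refine ⟨s * s', Nat.mul_pos hs hs', ?_⟩
  rw [pow_mul, h, ← pow_mul, mul_comm s s', pow_mul, h', ← pow_mul, mul_comm s' s]

variable (D)

lemma ev_opp (c : Fin g × Bool) : D.ev c.1 c.2 * D.ev (opp c).1 (opp c).2 = q := by
  rcases c with ⟨i, s⟩
  have := D.hα i
  cases s
  · simp [opp, AVData.ev]
    field_simp
  · simp [opp, AVData.ev]
    field_simp

lemma ev_ne (c : Fin g × Bool) : D.ev c.1 c.2 ≠ 0 := by
  intro h
  have h1 := ev_opp D c
  rw [h, zero_mul] at h1
  exact D.q_ne h1.symm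

variable {D}

lemma eqv_opp {c d : Fin g × Bool} (h : D.eqv c d) : D.eqv (opp c) (opp d) := by
  obtain ⟨s, hs, h⟩ := h
  refine ⟨s, hs, ?_⟩
  have h1 : (D.ev c.1 c.2 * D.ev (opp c).1 (opp c).2) ^ s =
      (D.ev d.1 d.2 * D.ev (opp d).1 (opp d).2) ^ s := by rw [ev_opp, ev_opp]
  rw [mul_pow, mul_pow, h] at h1
  exact mul_left_cancel₀ (pow_ne_zero _ (ev_ne D d)) h1

lemma eqv_opp_iff {c d : Fin g × Bool} : D.eqv (opp c) d ↔ D.eqv c (opp d) := by
  constructor
  · intro h
    have := eqv_opp h
    rwa [opp_opp] at this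
  · intro h
    have := eqv_opp h
    rwa [opp_opp] at this

variable (D)

/-- the value of a product of two eigenvalues -/
lemma prod_uu (c : Fin g × Bool) : ∏ i, D.α i ^ (uu c i) =
    D.ev c.1 c.2 * (q : Ω) ^ (if c.2 then (0 : ℤ) else -1) := by
  classical
  rw [Finset.prod_eq_single c.1]
  · unfold uu
    rw [Pi.single_eq_same]
    have h1 := D.hα c.1
    have h2 := D.q_ne
    rcases c with ⟨i, s⟩
    cases s
    · simp only [AVData.ev, Bool.false_eq_true, if_false] at h1 ⊢
      rw [zpow_neg_one, zpow_neg_one]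
      field_simp
    · simp only [AVData.ev, if_true]
      simp
  · intro i _ hi
    unfold uu
    rw [Pi.single_eq_of_ne hi, zpow_zero]
  · simp

omit [CharZero Ω] [Field Ω] in
lemma sum_uu (c : Fin g × Bool) : ∑ i, uu c i = if c.2 then 1 else -1 := by
  classical
  unfold uu
  rw [Finset.sum_eq_single c.1]
  · simp
  · intro i _ hi
    rw [Pi.single_eq_of_ne hi]
  · simp

lemma pair_rel_iff (c d : Fin g × Bool) : uu c + uu d ∈ rel q D.α pos ↔ D.eqv c (opp d) := by
  have hq := D.q_ne
  have h1 : ∀ s : ℕ, (∏ i, D.α i ^ ((uu c + uu d) i)) ^ s =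
      (D.ev c.1 c.2 * D.ev d.1 d.2) ^ s * (q : Ω) ^ ((s : ℤ) * ((if c.2 then (0 : ℤ) else -1) +
        (if d.2 then (0 : ℤ) else -1))) := by
    intro s
    have : ∏ i, D.α i ^ ((uu c + uu d) i) = (∏ i, D.α i ^ (uu c i)) * ∏ i, D.α i ^ (uu d i) := by
      rw [← Finset.prod_mul_distrib]
      refine Finset.prod_congr rfl fun i _ => ?_
      rw [Pi.add_apply, zpow_add₀ (D.hα i)]
    rw [this, prod_uu, prod_uu, mul_pow, mul_pow, mul_pow, mul_pow, ← zpow_natCast (_ ^ (_ : ℤ)) s,
      ← zpow_natCast (_ ^ (if d.2 then (0 : ℤ) else -1)) s, ← zpow_mul, ← zpow_mul,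
      mul_comm (s : ℤ), add_mul, zpow_add₀ hq]
    ring
  have h2 : ∑ i, (uu c + uu d) i = 2 * (1 + ((if c.2 then (0 : ℤ) else -1) +
      (if d.2 then (0 : ℤ) else -1))) := by
    simp only [Pi.add_apply, Finset.sum_add_distrib, sum_uu]
    cases c.2 <;> cases d.2 <;> simp
  have h3 : ∀ s : ℕ, (∏ i, D.α i ^ ((uu c + uu d) i)) ^ s = (q : Ω) ^ ((s : ℤ) *
      (1 + ((if c.2 then (0 : ℤ) else -1) + (if d.2 then (0 : ℤ) else -1)))) ↔
      D.ev c.1 c.2 ^ s = D.ev (opp d).1 (opp d).2 ^ s := by
    intro s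
    rw [h1, mul_add (s : ℤ) 1, zpow_add₀ hq, mul_one, zpow_natCast]
    rw [mul_left_inj' (zpow_ne_zero _ hq), ← ev_opp D d, mul_pow, mul_pow,
      mul_comm (D.ev d.1 d.2 ^ s) (D.ev (opp d).1 (opp d).2 ^ s)]
    exact mul_left_inj' (pow_ne_zero _ (ev_ne D d))
  constructor
  · rintro ⟨s, hs, k, hk, h⟩
    refine ⟨s, hs, (h3 s).1 ?_⟩
    rw [h]
    congr 2
    rw [h2] at hk
    omega
  · rintro ⟨s, hs, h⟩
    exact ⟨s, hs, _, h2, (h3 s).2 h⟩

omit [CharZero Ω] [Field Ω] in
lemma abs_sum_uu (c d : Fin g × Bool) (h : d ≠ opp c) : ∑ i, |(uu c + uu d) i| = 2 := by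
  classical
  rcases c with ⟨i, s⟩
  rcases d with ⟨j, t⟩
  by_cases hij : j = i
  · subst hij
    have hst : t = s := by
      by_contra hne
      apply h
      simp only [opp, Prod.mk.injEq, true_and]
      cases s <;> cases t <;> simp_all
    subst hst
    rw [Finset.sum_eq_single j]
    · cases t <;> simp [uu]
    · intro k _ hk
      simp [uu, Pi.single_eq_of_ne hk]
    · simp
  · have h1 : ∀ k, |(uu (i, s) + uu (j, t)) k| = |uu (i, s) k| + |uu (j, t) k| := by
      intro k
      by_cases hk : k = i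
      · have : k ≠ j := by rintro rfl; exact hij hk
        simp [uu, Pi.single_eq_of_ne this]
      · simp [uu, Pi.single_eq_of_ne hk]
    rw [Finset.sum_congr rfl fun k _ => h1 k, Finset.sum_add_distrib]
    rw [Finset.sum_eq_single i, Finset.sum_eq_single j]
    · cases s <;> cases t <;> simp [uu]
    · intro k _ hk
      simp [uu, Pi.single_eq_of_ne hk]
    · simp
    · intro k _ hk
      simp [uu, Pi.single_eq_of_ne hk]
    · simp

omit [CharZero Ω] [Field Ω] in
lemma exists_pair {ν : Fin g → ℤ} (h : ∑ i, |ν i| = 2) : ∃ c d : Fin g × Bool, ν = uu c + uu d := by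
  classical
  have h0 : ∃ i, ν i ≠ 0 := by
    by_contra hne
    push Not at hne
    simp [hne] at h
  obtain ⟨i, hi⟩ := h0
  set c : Fin g × Bool := (i, decide (0 < ν i)) with hc
  have hci : uu c = Pi.single i (if 0 < ν i then 1 else -1) := by
    unfold uu
    simp [hc]
  set μ := ν - uu c with hμ
  have hμi : |μ i| = |ν i| - 1 := by
    simp only [hμ, Pi.sub_apply, hci, Pi.single_eq_same]
    split_ifs with h1
    · rw [abs_of_pos h1, abs_of_nonneg (by omega)]
    · have : ν i < 0 := by omega
      rw [abs_of_neg this, abs_of_nonpos (by omega)]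
      ring
  have hμs : ∑ j, |μ j| = 1 := by
    have h2 : ∑ j, |μ j| = ∑ j, |ν j| - 1 := by
      rw [← Finset.add_sum_erase _ _ (Finset.mem_univ i), ← Finset.add_sum_erase _ _
        (Finset.mem_univ i), hμi]
      have : ∑ j ∈ Finset.univ.erase i, |μ j| = ∑ j ∈ Finset.univ.erase i, |ν j| := by
        refine Finset.sum_congr rfl fun j hj => ?_
        have hji := Finset.ne_of_mem_erase hj
        simp [hμ, hci, Pi.single_eq_of_ne hji]
      rw [this]
      ring
    rw [h2, h]
    norm_num
  have h1 : ∃ j, μ j ≠ 0 := by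
    by_contra hne
    push Not at hne
    simp [hne] at hμs
  obtain ⟨j, hj⟩ := h1
  have h3 : |μ j| = 1 ∧ ∀ k, k ≠ j → μ k = 0 := by
    rw [← Finset.add_sum_erase _ _ (Finset.mem_univ j)] at hμs
    have h4 : 1 ≤ |μ j| := Int.one_le_abs hj
    have h5 : ∀ k ∈ Finset.univ.erase j, 0 ≤ |μ k| := fun k _ => abs_nonneg _
    have h6 : ∑ k ∈ Finset.univ.erase j, |μ k| = 0 := by
      have := Finset.sum_nonneg h5
      omega
    refine ⟨by omega, fun k hk => ?_⟩
    have := (Finset.sum_eq_zero_iff_of_nonneg h5).1 h6 k (Finset.mem_erase.2 ⟨hk, Finset.mem_univ k⟩)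
    exact abs_eq_zero.1 this
  refine ⟨c, (j, decide (0 < μ j)), ?_⟩
  have h7 : uu (j, decide (0 < μ j)) = μ := by
    funext k
    unfold uu
    by_cases hk : k = j
    · subst hk
      rw [Pi.single_eq_same]
      rcases (abs_eq (by norm_num)).1 h3.1 with h8 | h8 <;> rw [h8] <;> simp
    · rw [Pi.single_eq_of_ne hk, h3.2 k hk]
  rw [h7, hμ]
  abel

/-- the monoid generated by the relations of length two -/
noncomputable def L0 : AddSubmonoid (Fin g → ℤ) := AddSubmonoid.closure (short D)

lemma pair_mem_L0 {c d : Fin g × Bool} (h : D.eqv c (opp d)) : uu c + uu d ∈ L0 D := by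
  by_cases hd : d = opp c
  · rw [hd, uu_opp, add_neg_cancel]
    exact (L0 D).zero_mem
  · exact AddSubmonoid.subset_closure ⟨(pair_rel_iff D c d).2 h, abs_sum_uu c d hd⟩

open Classical in
/-- the difference of the numbers of indices equivalent to `c` and to `opp c` -/
noncomputable def ff (c : Fin g × Bool) (ν : Fin g → ℤ) : ℤ :=
  ∑ i, ((if D.eqv (i, true) c then 1 else 0) - (if D.eqv (i, true) (opp c) then 1 else 0)) * ν i

open Classical in
/-- the number of indices equivalent to `c`, modulo two -/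
noncomputable def hh (c : Fin g × Bool) (ν : Fin g → ℤ) : ℤ :=
  ∑ i, (if D.eqv (i, true) c then 1 else 0) * ν i

lemma ff_add (c : Fin g × Bool) (ν μ : Fin g → ℤ) : ff D c (ν + μ) = ff D c ν + ff D c μ := by
  simp only [ff, Pi.add_apply, mul_add, Finset.sum_add_distrib]

lemma hh_add (c : Fin g × Bool) (ν μ : Fin g → ℤ) : hh D c (ν + μ) = hh D c ν + hh D c μ := by
  simp only [hh, Pi.add_apply, mul_add, Finset.sum_add_distrib]

open Classical in
lemma ff_uu (c d : Fin g × Bool) : ff D c (uu d) =
    (if D.eqv d c then 1 else 0) - (if D.eqv d (opp c) then 1 else 0) := by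
  unfold ff uu
  rw [Finset.sum_eq_single d.1]
  · rw [Pi.single_eq_same]
    rcases d with ⟨i, s⟩
    cases s
    · have h1 : D.eqv (i, false) c ↔ D.eqv (i, true) (opp c) := by
        rw [← eqv_opp_iff]; rfl
      have h2 : D.eqv (i, false) (opp c) ↔ D.eqv (i, true) c := by
        have : (i, false) = opp (i, true) := rfl
        rw [this, eqv_opp_iff, opp_opp]
      simp only [h1, h2, Bool.false_eq_true, if_false]
      ring
    · simp
  · intro i _ hi
    rw [Pi.single_eq_of_ne hi, mul_zero]
  · simp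

open Classical in
lemma hh_uu (c d : Fin g × Bool) (hc : D.eqv c (opp c)) :
    Even (hh D c (uu d) - (if D.eqv d c then 1 else 0)) := by
  unfold hh uu
  rw [Finset.sum_eq_single d.1]
  · rw [Pi.single_eq_same]
    rcases d with ⟨i, s⟩
    cases s
    · have h1 : D.eqv (i, false) c ↔ D.eqv (i, true) c := by
        have : (i, false) = opp (i, true) := rfl
        rw [this, eqv_opp_iff]
        exact ⟨fun h => eqv_trans h (eqv_symm hc), fun h => eqv_trans h hc⟩
      simp only [h1, Bool.false_eq_true, if_false]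
      split_ifs
      · exact ⟨-1, by norm_num⟩
      · simp
    · simp
  · intro i _ hi
    rw [Pi.single_eq_of_ne hi, mul_zero]
  · simp

/-- the invariants vanish -/
def Inv0 (ν : Fin g → ℤ) : Prop := ∀ c, ff D c ν = 0 ∧ (D.eqv c (opp c) → Even (hh D c ν))

lemma Inv0.add {ν μ : Fin g → ℤ} (h : Inv0 D ν) (h' : Inv0 D μ) : Inv0 D (ν + μ) := by
  intro c
  refine ⟨by rw [ff_add, (h c).1, (h' c).1, add_zero], fun hc => ?_⟩
  rw [hh_add]
  exact ((h c).2 hc).add ((h' c).2 hc)

lemma Inv0.sub {ν μ : Fin g → ℤ} (h : Inv0 D (ν + μ)) (h' : Inv0 D μ) : Inv0 D ν := by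
  intro c
  have h1 := h c
  rw [ff_add, (h' c).1, add_zero, hh_add] at h1
  refine ⟨h1.1, fun hc => ?_⟩
  have h2 := (h1.2 hc).sub ((h' c).2 hc)
  rwa [add_sub_cancel_right] at h2

lemma inv0_pair {c d : Fin g × Bool} (h : D.eqv c (opp d)) : Inv0 D (uu c + uu d) := by
  classical
  intro e
  have h1 : D.eqv c e ↔ D.eqv d (opp e) := by
    constructor
    · intro h2
      have := eqv_trans (eqv_symm h) h2
      exact eqv_opp_iff.1 this
    · intro h2
      exact eqv_trans h (eqv_opp_iff.2 h2)
  have h2 : D.eqv c (opp e) ↔ D.eqv d e := by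
    constructor
    · intro h2
      have := eqv_trans (eqv_symm h) h2
      rw [eqv_opp_iff, opp_opp] at this
      exact this
    · intro h2
      exact eqv_trans h (eqv_opp h2)
  refine ⟨?_, fun he => ?_⟩
  · rw [ff_add, ff_uu, ff_uu]
    simp only [h1, h2]
    ring
  · rw [hh_add]
    have e1 := hh_uu D e c he
    have e2 := hh_uu D e d he
    have h3 : D.eqv c e ↔ D.eqv d e := by
      rw [← h2]
      exact ⟨fun h => eqv_trans h he, fun h => eqv_trans h (eqv_symm he)⟩
    have e3 := e1.add e2
    simp only [h3] at e3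
    have e4 : hh D e (uu c) + hh D e (uu d) = (hh D e (uu c) - (if D.eqv d e then 1 else 0) +
        (hh D e (uu d) - (if D.eqv d e then 1 else 0))) + ((if D.eqv d e then 1 else 0) +
        (if D.eqv d e then 1 else 0)) := by ring
    rw [e4]
    exact e3.add ⟨_, rfl⟩

lemma inv0_of_L0 {ν : Fin g → ℤ} (h : ν ∈ L0 D) : Inv0 D ν := by
  induction h using AddSubmonoid.closure_induction with
  | mem ν hν =>
    obtain ⟨c, d, rfl⟩ := exists_pair hν.2
    exact inv0_pair D ((pair_rel_iff D c d).1 hν.1)
  | zero => intro c; simp [ff, hh]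
  | add ν μ _ _ h h' => exact h.add D h'

/-- a set of basis vectors that is divided into pairs of Tate type -/
inductive Matched {n : ℕ} : Finset (Ix g n) → Prop
  | empty : Matched ∅
  | pair (J : Finset (Ix g n)) (k l : Ix g n) (hkl : k ≠ l) (hk : k ∉ J) (hl : l ∉ J)
      (h : D.eqv k.c (opp l.c)) (hJ : Matched J) : Matched (insert k (insert l J))

lemma wt_insert {n : ℕ} {J : Finset (Ix g n)} {k l : Ix g n} (hkl : k ≠ l) (hk : k ∉ J) (hl : l ∉ J) :
    wtHom g (tp (insert k (insert l J))) = wtHom g (tp J) + (uu k.c + uu l.c) := by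
  rw [wt_eq_sum, wt_eq_sum, Finset.sum_insert, Finset.sum_insert hl]
  · abel
  · rw [Finset.mem_insert]
    tauto

lemma Matched.mem_L0 {n : ℕ} {J : Finset (Ix g n)} (h : Matched D J) : wtHom g (tp J) ∈ L0 D := by
  induction h with
  | empty =>
    rw [wt_eq_sum]
    exact (L0 D).zero_mem
  | pair J k l hkl hk hl h _ ih =>
    rw [wt_insert hkl hk hl]
    exact (L0 D).add_mem ih (pair_mem_L0 D h)

open Classical in
lemma ff_wt {n : ℕ} (J : Finset (Ix g n)) (c : Fin g × Bool) : ff D c (wtHom g (tp J)) =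
    ((J.filter fun k => D.eqv k.c c).card : ℤ) - (J.filter fun k => D.eqv k.c (opp c)).card := by
  rw [wt_eq_sum]
  have h1 : ff D c (∑ k ∈ J, uu k.c) = ∑ k ∈ J, ff D c (uu k.c) := by
    induction J using Finset.induction_on with
    | empty => simp [ff]
    | insert a s ha ih => rw [Finset.sum_insert ha, Finset.sum_insert ha, ff_add, ih]
  rw [h1, Finset.sum_congr rfl fun k _ => ff_uu D c k.c, Finset.sum_sub_distrib,
    Finset.card_filter, Finset.card_filter]
  push_cast
  rfl

open Classical in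
lemma hh_wt {n : ℕ} (J : Finset (Ix g n)) (c : Fin g × Bool) (hc : D.eqv c (opp c)) :
    Even (hh D c (wtHom g (tp J)) - ((J.filter fun k => D.eqv k.c c).card : ℤ)) := by
  rw [wt_eq_sum]
  have h1 : hh D c (∑ k ∈ J, uu k.c) = ∑ k ∈ J, hh D c (uu k.c) := by
    induction J using Finset.induction_on with
    | empty => simp [hh]
    | insert a s ha ih => rw [Finset.sum_insert ha, Finset.sum_insert ha, hh_add, ih]
  rw [h1, Finset.card_filter]
  push_cast
  rw [← Finset.sum_sub_distrib]
  exact Finset.even_sum _ fun k _ => hh_uu D c k.c hc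

lemma matched_of_inv0 {n : ℕ} (m : ℕ) : ∀ (J : Finset (Ix g n)), J.card ≤ m →
    Inv0 D (wtHom g (tp J)) → Matched D J := by
  classical
  induction m with
  | zero =>
    intro J hJ _
    have : J = ∅ := Finset.card_eq_zero.1 (by omega)
    rw [this]
    exact Matched.empty
  | succ m ih =>
    intro J hJ hinv
    by_cases hne : J.Nonempty
    · obtain ⟨k, hk⟩ := hne
      have h1 := hinv k.c
      rw [ff_wt] at h1
      have hkk : k ∈ J.filter fun l => D.eqv l.c k.c := Finset.mem_filter.2 ⟨hk, eqv_refl _⟩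
      have hl : ∃ l ∈ J, l ≠ k ∧ D.eqv l.c (opp k.c) := by
        by_cases hs : D.eqv k.c (opp k.c)
        · have h2 := (h1.2 hs)
          have h3 := h2.sub (hh_wt D J k.c hs)
          have h4 : Even ((J.filter fun l => D.eqv l.c k.c).card : ℤ) := by
            have : hh D k.c (wtHom g (tp J)) - (hh D k.c (wtHom g (tp J)) -
                ((J.filter fun l => D.eqv l.c k.c).card : ℤ)) =
                ((J.filter fun l => D.eqv l.c k.c).card : ℤ) := by ring
            rwa [this] at h3
          have h5 : Even (J.filter fun l => D.eqv l.c k.c).card := by exact_mod_cast h4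
          have h6 : 1 < (J.filter fun l => D.eqv l.c k.c).card := by
            have : 0 < (J.filter fun l => D.eqv l.c k.c).card := Finset.card_pos.2 ⟨k, hkk⟩
            obtain ⟨a, ha⟩ := h5
            omega
          obtain ⟨l, hl, hlk⟩ := Finset.exists_mem_ne h6 k
          rw [Finset.mem_filter] at hl
          exact ⟨l, hl.1, hlk, eqv_trans hl.2 hs⟩
        · have h2 : 0 < (J.filter fun l => D.eqv l.c (opp k.c)).card := by
            have : 0 < (J.filter fun l => D.eqv l.c k.c).card := Finset.card_pos.2 ⟨k, hkk⟩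
            omega
          obtain ⟨l, hl⟩ := Finset.card_pos.1 h2
          rw [Finset.mem_filter] at hl
          refine ⟨l, hl.1, ?_, hl.2⟩
          rintro rfl
          exact hs hl.2
      obtain ⟨l, hlJ, hlk, hlo⟩ := hl
      set J' := (J.erase k).erase l with hJ'
      have hlJ' : l ∈ J.erase k := Finset.mem_erase.2 ⟨hlk, hlJ⟩
      have e1 : J = insert k (insert l J') := by
        rw [hJ', Finset.insert_erase hlJ', Finset.insert_erase hk]
      have hk' : k ∉ J' := by simp [hJ']
      have hl' : l ∉ J' := by simp [hJ']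
      have hto : D.eqv k.c (opp l.c) := by
        have := eqv_symm hlo
        exact eqv_opp_iff.1 this
      rw [e1]
      refine Matched.pair J' k l hlk.symm hk' hl' hto (ih J' ?_ ?_)
      · have : J.card = J'.card + 2 := by
          rw [e1, Finset.card_insert_of_notMem, Finset.card_insert_of_notMem hl']
          rw [Finset.mem_insert]
          tauto
        omega
      · rw [e1, wt_insert hlk.symm hk' hl'] at hinv
        exact hinv.sub D (inv0_pair D hto)
    · rw [Finset.not_nonempty_iff_eq_empty] at hne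
      rw [hne]
      exact Matched.empty

lemma matched_iff {n : ℕ} (J : Finset (Ix g n)) : Matched D J ↔ wtHom g (tp J) ∈ L0 D :=
  ⟨fun h => h.mem_L0 D, fun h => matched_of_inv0 D _ J le_rfl (inv0_of_L0 D h)⟩

/-- every vector is a weight -/
lemma exists_J (ν : Fin g → ℤ) : ∃ (n : ℕ) (J : Finset (Ix g n)), wtHom g (tp J) = ν := by
  set t : Fin g → Bool → ℕ := fun i s => if s then (ν i).toNat else (-ν i).toNat with ht
  have hw : wtHom g t = ν := by
    funext i
    simp only [wtHom, AddMonoidHom.coe_mk, ZeroHom.coe_mk, ht]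
    simp
  obtain ⟨T, hT⟩ := bdd t
  refine ⟨T, bl T 0 t, ?_⟩
  have e1 : tp (bl T 0 t) = t := by
    funext i s
    exact tp_bl T 0 t (by simpa using hT) i s
  rw [e1, hw]

lemma L0_iff (ν : Fin g → ℤ) : ν ∈ L0 D ↔ Inv0 D ν := by
  constructor
  · exact inv0_of_L0 D
  · intro h
    obtain ⟨n, J, rfl⟩ := exists_J ν
    exact (matched_of_inv0 D _ J le_rfl h).mem_L0 D

end

end Pool.Agent.K7.H8.AV
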