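import Pool.Agent.K7.H8.AV.Lef

/-!
# The algebra generated by the Tate classes of degree two; ranks
-/

set_option autoImplicit false

namespace Pool.Agent.K7.H8.AV

open Finset Module

variable {Ω V : Type*} [Field Ω] [CharZero Ω] [AddCommGroup V] [Module Ω V]
    {g q : ℕ} (D : AVData Ω V g q)

/-- the span of the matched monomials -/
noncomputable def mspan (n : ℕ) : Submodule Ω (ExteriorAlgebra Ω (Fin n → V)) :=
  Submodule.span Ω (mon (eb D.b n) '' {J | Matched D J})

lemma mspan_mul {n : ℕ} {x y : ExteriorAlgebra Ω (Fin n → V)} (hx : x ∈ mspan D n)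
    (hy : y ∈ mspan D n) : x * y ∈ mspan D n := by
  classical
  have h := Submodule.mul_mem_mul hx hy
  unfold mspan at h
  rw [Submodule.span_mul_span] at h
  refine (Submodule.span_le.2 ?_) h
  rintro _ ⟨_, ⟨J, hJ, rfl⟩, _, ⟨J', hJ', rfl⟩, rfl⟩
  by_cases hd : Disjoint J J'
  · have h1 := mon_mul (eb D.b n) hd
    change mon (eb D.b n) J * mon (eb D.b n) J' ∈ mspan D n
    rw [h1.mem]
    refine Submodule.subset_span ⟨J ∪ J', ?_, rfl⟩
    change Matched D (J ∪ J')
    rw [matched_iff]
    have h2 : wtHom g (tp (J ∪ J')) = wtHom g (tp J) + wtHom g (tp J') := by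
      rw [wt_eq_sum, wt_eq_sum, wt_eq_sum, Finset.sum_union hd]
    rw [h2]
    exact (L0 D).add_mem ((matched_iff D J).1 hJ) ((matched_iff D J').1 hJ')
  · change mon (eb D.b n) J * mon (eb D.b n) J' ∈ mspan D n
    rw [mon_mul_of_not_disjoint (eb D.b n) hd]
    exact Submodule.zero_mem _

lemma lef_eq (n : ℕ) : lef D.F q pos n = mspan D n := by
  classical
  apply le_antisymm
  · intro x hx
    change x ∈ Algebra.adjoin Ω {x | ∃ s ∈ pos, IsTate D.F q n s 1 x} at hx
    induction hx using Algebra.adjoin_induction with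
    | mem x hx =>
      obtain ⟨s, hs, hx⟩ := hx
      have h1 : x ∈ tateSub D n s 1 := hx
      rw [eq_span (eb D.b n) (tateSub D n s 1) (fun k y hy => isTate_dbl D hy k)] at h1
      refine (Submodule.span_mono ?_) h1
      rintro _ ⟨J, hJ, rfl⟩
      refine ⟨J, ?_, rfl⟩
      obtain ⟨h2, h3⟩ := D.tate_mon J s 1 hJ hs
      rw [mul_one, Finset.card_eq_two] at h3
      obtain ⟨k, l, hkl, rfl⟩ := h3
      rw [wt_eq_sum, Finset.sum_pair hkl, pair_rel_iff] at h2
      have := Matched.pair (D := D) ∅ k l hkl (by simp) (by simp) h2 Matched.empty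
      simpa using this
    | algebraMap r =>
      rw [Algebra.algebraMap_eq_smul_one]
      refine Submodule.smul_mem _ _ (Submodule.subset_span ⟨∅, Matched.empty, ?_⟩)
      rw [mon_empty]
    | add x y _ _ h1 h2 => exact Submodule.add_mem _ h1 h2
    | mul x y _ _ h1 h2 => exact mspan_mul D h1 h2
  · unfold mspan
    rw [Submodule.span_le]
    rintro _ ⟨J, hJ, rfl⟩
    change mon (eb D.b n) J ∈ Algebra.adjoin Ω {x | ∃ s ∈ pos, IsTate D.F q n s 1 x}
    induction hJ with
    | empty =>
      rw [mon_empty]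
      exact Subalgebra.one_mem _
    | pair J k l hkl hk hl h _ ih =>
      have hd : Disjoint ({k, l} : Finset (Ix g n)) J := by
        rw [Finset.disjoint_left]
        intro a ha
        rw [Finset.mem_insert, Finset.mem_singleton] at ha
        rcases ha with rfl | rfl <;> assumption
      have h1 := mon_mul (eb D.b n) hd
      have h2 : ({k, l} : Finset (Ix g n)) ∪ J = insert k (insert l J) := by
        ext a; simp
      rw [h2] at h1
      have h3 : mon (eb D.b n) {k, l} ∈ Algebra.adjoin Ω {x | ∃ s ∈ pos, IsTate D.F q n s 1 x} := by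
        have h4 : wtHom g (tp ({k, l} : Finset (Ix g n))) ∈ rel q D.α pos := by
          rw [wt_eq_sum, Finset.sum_pair hkl, pair_rel_iff]
          exact h
        obtain ⟨s, hs, j, hj, h5⟩ := D.mon_tate _ h4
        rw [Finset.card_pair hkl] at hj
        have : j = 1 := by omega
        subst this
        exact Algebra.subset_adjoin ⟨s, hs, h5⟩
      have h6 := Subalgebra.mul_mem _ h3 ih
      rcases h1 with h1 | h1
      · rwa [h1] at h6
      · rw [h1] at h6
        have := Subalgebra.neg_mem _ h6
        rwa [neg_neg] at this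

lemma mon_mem_lef_iff {n : ℕ} (J : Finset (Ix g n)) :
    mon (eb D.b n) J ∈ lef D.F q pos n ↔ wtHom g (tp J) ∈ L0 D := by
  rw [lef_eq, ← matched_iff]
  constructor
  · intro h
    by_contra hne
    have h2 : mspan D n ≤ LinearMap.ker ((Finsupp.lapply (R := Ω) J).comp
          (eb D.b n).ExteriorAlgebra.repr.toLinearMap) := by
      unfold mspan
      rw [Submodule.span_le]
      rintro _ ⟨J', hJ', rfl⟩
      change (eb D.b n).ExteriorAlgebra.repr ((eb D.b n).ExteriorAlgebra J') J = 0
      rw [Module.Basis.repr_self, Finsupp.single_apply, if_neg]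
      rintro rfl
      exact hne hJ'
    have h3 := h2 h
    rw [LinearMap.mem_ker] at h3
    change (eb D.b n).ExteriorAlgebra.repr ((eb D.b n).ExteriorAlgebra J) J = 0 at h3
    simp at h3
  · intro h
    exact Submodule.subset_span ⟨J, h, rfl⟩

lemma lef_dbl (n : ℕ) (k : Ix g n) (x : ExteriorAlgebra Ω (Fin n → V))
    (hx : x ∈ lef D.F q pos n) : ExteriorAlgebra.map (dbl (eb D.b n) k) x ∈ lef D.F q pos n := by
  rw [lef_eq] at hx ⊢
  unfold mspan at hx ⊢
  induction hx using Submodule.span_induction with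
  | mem x h =>
    obtain ⟨J, hJ, rfl⟩ := h
    rw [map_dbl_mon]
    exact Submodule.smul_mem _ _ (Submodule.subset_span ⟨J, hJ, rfl⟩)
  | zero => rw [map_zero]; exact Submodule.zero_mem _
  | add x y _ _ h1 h2 => rw [map_add]; exact Submodule.add_mem _ h1 h2
  | smul c x _ h => rw [map_smul]; exact Submodule.smul_mem _ _ h

lemma dim_lef (n : ℕ) : Module.finrank Ω (lef D.F q pos n) = cnt g n (L0 D : Set (Fin g → ℤ)) := by
  classical
  rw [finrank_eq_card (eb D.b n) (lef D.F q pos n) (lef_dbl D n)]
  unfold cnt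
  congr 1
  ext J
  simp only [Finset.mem_filter, Finset.mem_univ, true_and]
  exact mon_mem_lef_iff D J

lemma dim_tate' (E : Set ℕ) (n : ℕ) :
    Module.finrank Ω (tate D.F q E n) = cnt g n (rel q D.α E) := by
  classical
  rw [dim_tate]
  rfl

lemma dim_cls' {E : Set ℕ} (hE : E.Nonempty) (S : ClassSystem Ω V g q D.F D.R E) (n : ℕ) :
    Module.finrank Ω (S.cls n) = cnt g n (wS D S : Set (Fin g → ℤ)) := by
  classical
  rw [dim_cls D S hE]
  rfl

/-- the relations form a monoid -/
noncomputable def relMon : AddSubmonoid (Fin g → ℤ) where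
  carrier := rel q D.α pos
  zero_mem' := ⟨1, Nat.one_pos, 0, by simp, by simp⟩
  add_mem' := by
    rintro ν μ ⟨s, hs, k, hk, h⟩ ⟨t, ht, l, hl, h'⟩
    refine ⟨s * t, Nat.mul_pos hs ht, k + l, ?_, ?_⟩
    · simp only [Pi.add_apply, Finset.sum_add_distrib, hk, hl]
      ring
    · have hq := D.q_ne
      have : ∏ i, D.α i ^ ((ν + μ) i) = (∏ i, D.α i ^ (ν i)) * ∏ i, D.α i ^ (μ i) := by
        rw [← Finset.prod_mul_distrib]
        refine Finset.prod_congr rfl fun i _ => ?_
        rw [Pi.add_apply, zpow_add₀ (D.hα i)]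
      rw [this, mul_pow, pow_mul, h, mul_comm s t, pow_mul, h', ← zpow_natCast, ← zpow_natCast,
        ← zpow_mul, ← zpow_mul, ← zpow_add₀ hq]
      congr 1
      push_cast
      ring

/-- extension of scalars -/
def cst (ν : Fin g → ℤ) (i : Fin g) : ℚ := (ν i : ℚ)

lemma rk_eq (M : Set (Fin g → ℤ)) : rk M = Module.finrank ℚ (Submodule.span ℚ (cst '' M)) := rfl

lemma rk_mono {M N : Set (Fin g → ℤ)} (h : M ⊆ N) : rk M ≤ rk N := by
  rw [rk_eq, rk_eq]
  exact Submodule.finrank_mono (Submodule.span_mono (Set.image_mono h))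

lemma span_L0 : Submodule.span ℚ (cst '' (L0 D : Set (Fin g → ℤ))) =
    Submodule.span ℚ (cst '' short D) := by
  apply le_antisymm
  · rw [Submodule.span_le]
    rintro _ ⟨ν, hν, rfl⟩
    change ν ∈ AddSubmonoid.closure (short D) at hν
    induction hν using AddSubmonoid.closure_induction with
    | mem ν hν => exact Submodule.subset_span ⟨ν, hν, rfl⟩
    | zero =>
      have : cst (0 : Fin g → ℤ) = 0 := by funext i; simp [cst]
      rw [this]
      exact Submodule.zero_mem _
    | add ν μ _ _ h h' =>
      have : cst (ν + μ) = cst ν + cst μ := by funext i; simp [cst]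
      rw [this]
      exact Submodule.add_mem _ h h'
  · exact Submodule.span_mono (Set.image_mono AddSubmonoid.subset_closure)

lemma rk_L0 : rk (L0 D : Set (Fin g → ℤ)) = rk (short D) := by
  rw [rk_eq, rk_eq, span_L0]

open Classical in
/-- the functional `ff` over the rational numbers -/
noncomputable def ffQ (c : Fin g × Bool) : (Fin g → ℚ) →ₗ[ℚ] ℚ :=
  ∑ i, ((if D.eqv (i, true) c then (1 : ℚ) else 0) - (if D.eqv (i, true) (opp c) then 1 else 0)) •
    LinearMap.proj i

lemma ffQ_cst (c : Fin g × Bool) (ν : Fin g → ℤ) : ffQ D c (cst ν) = (ff D c ν : ℚ) := by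
  classical
  unfold ffQ ff
  rw [LinearMap.coe_sum, Finset.sum_apply]
  push_cast
  rfl

/-- there is only one class of eigenvalues which is equal to the opposite class -/
lemma self_unique {c d : Fin g × Bool} (hc : D.eqv c (opp c)) (hd : D.eqv d (opp d)) :
    D.eqv c d := by
  obtain ⟨s, hs, h⟩ := hc
  obtain ⟨t, ht, h'⟩ := hd
  have h1 : D.ev c.1 c.2 ^ (2 * s) = (q : Ω) ^ s := by
    rw [← ev_opp D c, mul_pow, ← h]; ring
  have h2 : D.ev d.1 d.2 ^ (2 * t) = (q : Ω) ^ t := by
    rw [← ev_opp D d, mul_pow, ← h']; ring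
  refine ⟨2 * s * t, by positivity, ?_⟩
  rw [pow_mul, h1, ← pow_mul, show 2 * s * t = 2 * t * s by ring, pow_mul (D.ev d.1 d.2), h2, ← pow_mul,
    mul_comm s t]

/-- the equivalence relation on the indices -/
def cls_setoid : Setoid (Fin g) where
  r i j := D.eqv (i, true) (j, true) ∨ D.eqv (i, true) (j, false)
  iseqv := by
    refine ⟨fun i => Or.inl (eqv_refl _), ?_, ?_⟩
    · rintro i j (h | h)
      · exact Or.inl (eqv_symm h)
      · right
        have : D.eqv (opp (j, true)) (i, true) := eqv_symm h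
        exact eqv_opp_iff.1 this
    · rintro i j k (h | h) (h' | h')
      · exact Or.inl (eqv_trans h h')
      · exact Or.inr (eqv_trans h h')
      · right
        have : D.eqv (j, false) (k, false) := eqv_opp h'
        exact eqv_trans h this
      · left
        have : D.eqv (j, false) (k, true) := eqv_opp h'
        exact eqv_trans h this

/-- relations in the span of the relations of length two are generated by them -/
theorem mem_L0_of_span {ν : Fin g → ℤ} (h : ν ∈ rel q D.α pos)
    (hs : cst ν ∈ Submodule.span ℚ (cst '' short D)) : ν ∈ L0 D := by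
  classical
  rw [L0_iff]
  have hff : ∀ c, ff D c ν = 0 := by
    intro c
    have h1 : Submodule.span ℚ (cst '' short D) ≤ LinearMap.ker (ffQ D c) := by
      rw [Submodule.span_le]
      rintro _ ⟨μ, hμ, rfl⟩
      rw [SetLike.mem_coe, LinearMap.mem_ker, ffQ_cst]
      have := (inv0_of_L0 D (AddSubmonoid.subset_closure hμ : μ ∈ L0 D) c).1
      rw [this, Int.cast_zero]
    have h2 := h1 hs
    rw [LinearMap.mem_ker, ffQ_cst] at h2
    exact_mod_cast h2
  intro c
  refine ⟨hff c, fun hc => ?_⟩
  obtain ⟨s, hs', k, hk, -⟩ := h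
  set T : Finset (Fin g) := Finset.univ.filter fun i => ¬ D.eqv (i, true) c with hT
  have h1 : hh D c ν + ∑ i ∈ T, ν i = 2 * k := by
    rw [← hk, hT, Finset.sum_filter, hh, ← Finset.sum_add_distrib]
    refine Finset.sum_congr rfl fun i _ => ?_
    by_cases h : D.eqv (i, true) c <;> simp [h]
  have h2 : Even (∑ i ∈ T, ν i) := by
    have h3 := Finset.sum_partition (s := T) (f := ν) (cls_setoid D)
    rw [h3]
    apply Finset.even_sum
    intro x hx
    rw [Finset.mem_image] at hx
    obtain ⟨j, hj, rfl⟩ := hx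
    rw [hT, Finset.mem_filter] at hj
    have hjns : ¬ D.eqv (j, true) (opp (j, true)) := fun h => hj.2 (self_unique D h hc)
    have h4 : ∑ i ∈ T.filter (fun i => Quotient.mk (cls_setoid D) i = Quotient.mk (cls_setoid D) j),
        ν i = ∑ i, (if D.eqv (i, true) (j, true) ∨ D.eqv (i, true) (j, false) then ν i else 0) := by
      rw [← Finset.sum_filter]
      congr 1
      ext i
      simp only [hT, Finset.mem_filter, Finset.mem_univ, true_and]
      constructor
      · rintro ⟨-, h5⟩
        exact Quotient.exact h5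
      · intro h5
        refine ⟨?_, Quotient.sound h5⟩
        intro h6
        apply hj.2
        rcases h5 with h5 | h5
        · exact eqv_trans (eqv_symm h5) h6
        · have h7 : D.eqv (j, false) c := eqv_trans (eqv_symm h5) h6
          have h8 : D.eqv (j, true) (opp c) := eqv_opp h7
          exact eqv_trans h8 (eqv_symm hc)
    rw [h4]
    have h5 := hff (j, true)
    unfold ff at h5
    have h6 : ∀ i, Even ((if D.eqv (i, true) (j, true) ∨ D.eqv (i, true) (j, false) then ν i else 0) -
        ((if D.eqv (i, true) (j, true) then 1 else 0) -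
          (if D.eqv (i, true) (opp (j, true)) then 1 else 0)) * ν i) := by
      intro i
      have e0 : opp ((j, true) : Fin g × Bool) = (j, false) := rfl
      rw [e0]
      by_cases a1 : D.eqv (i, true) (j, true)
      · have a2 : ¬ D.eqv (i, true) (j, false) := fun h => hjns (eqv_trans (eqv_symm a1) h)
        simp [a1, a2]
      · by_cases a2 : D.eqv (i, true) (j, false)
        · simp only [a1, a2, or_true, if_true, if_false]
          exact ⟨ν i, by ring⟩
        · simp [a1, a2]
    have h7 := Finset.even_sum _ fun i (_ : i ∈ Finset.univ) => h6 i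
    rw [Finset.sum_sub_distrib, h5, sub_zero] at h7
    exact h7
  have h8 : hh D c ν = 2 * k - ∑ i ∈ T, ν i := by linarith
  rw [h8]
  exact (even_two_mul k).sub h2

/-- monoids between `L0` and the monoid of all relations -/
lemma rk_eq_iff (M : AddSubmonoid (Fin g → ℤ)) (h0 : L0 D ≤ M)
    (h1 : (M : Set (Fin g → ℤ)) ⊆ rel q D.α pos) :
    rk (M : Set (Fin g → ℤ)) = rk (short D) ↔ M = L0 D := by
  constructor
  · intro h
    apply le_antisymm _ h0
    intro ν hν
    apply mem_L0_of_span D (h1 hν)
    have h2 : Submodule.span ℚ (cst '' short D) ≤ Submodule.span ℚ (cst '' (M : Set (Fin g → ℤ))) :=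
      Submodule.span_mono (Set.image_mono (AddSubmonoid.subset_closure.trans h0))
    have h3 := Submodule.eq_of_le_of_finrank_eq h2 (by rw [← rk_eq, ← rk_eq, h])
    rw [h3]
    exact Submodule.subset_span ⟨ν, hν, rfl⟩
  · rintro rfl
    exact rk_L0 D

lemma L0_le_rel : L0 D ≤ relMon D := by
  unfold L0
  rw [AddSubmonoid.closure_le]
  intro ν hν
  exact hν.1

lemma L0_le_wS (S : ClassSystem Ω V g q D.F D.R pos) : L0 D ≤ wS D S := by
  unfold L0
  rw [AddSubmonoid.closure_le]
  intro ν hν
  exact short_mem D pos S hν.1 hν.2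

end Pool.Agent.K7.H8.AV
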