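import Pool.Agent.K7.H8.AV.Lef2

/-!
# Growth laws for the numbers of Tate classes, algebraic classes and products of divisor classes
-/

set_option autoImplicit false

namespace Pool.Agent.K7.H8.AV

open Finset Module

lemma growth_cnt {g : ℕ} (M : AddSubmonoid (Fin g → ℤ)) :
    Growth g (g - rk (M : Set (Fin g → ℤ))) (fun n => cnt g n (M : Set (Fin g → ℤ))) := by
  obtain ⟨c, hc, h⟩ := cnt_ge M
  exact ⟨c, hc, fun n hn => ⟨h n hn, cnt_le n hn _⟩⟩

variable {Ω V : Type*} [Field Ω] [CharZero Ω] [AddCommGroup V] [Module Ω V]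
    {g q : ℕ} (D : AVData Ω V g q)

lemma short_subset : short D ⊆ rel q D.α pos := fun _ h => h.1

lemma theta_le_kappa : theta D ≤ kappa D := by
  unfold theta kappa
  have := rk_mono (short_subset D)
  omega

lemma growth_tate : Growth g (theta D) (fun n => Module.finrank Ω (tate D.F q pos n)) := by
  have := growth_cnt (relMon D)
  simp only [dim_tate']
  exact this

lemma growth_lef : Growth g (kappa D) (fun n => Module.finrank Ω (lef D.F q pos n)) := by
  have := growth_cnt (L0 D)
  rw [rk_L0] at this
  simp only [dim_lef]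
  exact this

lemma tate_eq_lef_iff : theta D = kappa D ↔ ∀ n, tate D.F q pos n = lef D.F q pos n := by
  have h1 := rk_eq_iff D (relMon D) (L0_le_rel D) le_rfl
  have h2 : theta D = kappa D ↔ rk (relMon D : Set (Fin g → ℤ)) = rk (short D) := by
    unfold theta kappa
    have h3 := rk_le (rel q D.α pos)
    have h4 := rk_le (short D)
    have h5 : rk (relMon D : Set (Fin g → ℤ)) = rk (rel q D.α pos) := rfl
    omega
  rw [h2, h1]
  constructor
  · intro h n
    rw [eq_span (eb D.b n) _ (tate_dbl D pos n), eq_span (eb D.b n) _ (lef_dbl D n)]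
    congr 2
    ext J
    change mon (eb D.b n) J ∈ tate D.F q pos n ↔ mon (eb D.b n) J ∈ lef D.F q pos n
    rw [mon_mem_lef_iff, mon_mem_tate_iff, ← h]
    rfl
  · intro h
    apply le_antisymm _ (L0_le_rel D)
    intro ν hν
    obtain ⟨n, J, rfl⟩ := exists_J ν
    rw [← mon_mem_lef_iff, ← h, mon_mem_tate_iff]
    exact hν

variable (S : ClassSystem Ω V g q D.F D.R pos)

/-- the exponent of a system of classes -/
noncomputable def expo : ℕ := g - rk (wS D S : Set (Fin g → ℤ))

lemma growth_cls : Growth g (expo D S) (fun n => Module.finrank Ω (S.cls n)) := by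
  have := growth_cnt (wS D S)
  simp only [dim_cls' D pos_nonempty]
  exact this

lemma theta_le_expo : theta D ≤ expo D S := by
  unfold theta expo
  have := rk_mono (wS_subset D pos S)
  omega

lemma expo_le_kappa : expo D S ≤ kappa D := by
  unfold kappa expo
  have := rk_mono (g := g) (M := (L0 D : Set (Fin g → ℤ))) (N := wS D S) (L0_le_wS D S)
  rw [rk_L0] at this
  omega

lemma cls_eq_lef_iff : expo D S = kappa D ↔ ∀ n, S.cls n = lef D.F q pos n := by
  have h1 := rk_eq_iff D (wS D S) (L0_le_wS D S) (wS_subset D pos S)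
  have h2 : expo D S = kappa D ↔ rk (wS D S : Set (Fin g → ℤ)) = rk (short D) := by
    unfold expo kappa
    have h3 := rk_le (wS D S : Set (Fin g → ℤ))
    have h4 := rk_le (short D)
    omega
  rw [h2, h1]
  constructor
  · intro h n
    rw [eq_span (eb D.b n) _ (cls_dbl D S n), eq_span (eb D.b n) _ (lef_dbl D n)]
    congr 2
    ext J
    change mon (eb D.b n) J ∈ S.cls n ↔ mon (eb D.b n) J ∈ lef D.F q pos n
    rw [mon_mem_lef_iff, mon_mem_iff D S pos_nonempty, ← h]
  · intro h
    apply le_antisymm _ (L0_le_wS D S)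
    intro ν hν
    obtain ⟨n, J, rfl⟩ := exists_J ν
    rw [← mon_mem_lef_iff, ← h, mon_mem_iff D S pos_nonempty]
    exact hν

end Pool.Agent.K7.H8.AV
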