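import Pool.Agent.K7.H8.AV.Wts

/-!
# The monoid of weights of a system of classes
-/

set_option autoImplicit false

namespace Pool.Agent.K7.H8.AV

open Finset Module

section

variable {g : ℕ}

lemma tp_sum {n : ℕ} (J : Finset (Ix g n)) (f : Fin g → Bool → ℕ) :
    ∑ k ∈ J, f k.i k.s = ∑ i, (tp J i true * f i true + tp J i false * f i false) := by
  classical
  have h1 : ∀ k ∈ J, f k.i k.s = ∑ i : Fin g, ∑ s : Bool, if k.i = i ∧ k.s = s then f i s else 0 := by
    intro k _
    rw [Finset.sum_eq_single k.i, Finset.sum_eq_single k.s]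
    · simp
    · intro s _ hs
      simp [Ne.symm hs]
    · simp
    · intro i _ hi
      simp [Ne.symm hi]
    · simp
  rw [Finset.sum_congr rfl h1, Finset.sum_comm]
  refine Finset.sum_congr rfl fun i _ => ?_
  rw [Finset.sum_comm]
  rw [Fintype.sum_bool]
  unfold tp
  rw [Finset.card_filter, Finset.card_filter, Finset.sum_mul, Finset.sum_mul]
  congr 1 <;>
  · refine Finset.sum_congr rfl fun k _ => ?_
    split_ifs <;> simp

lemma tp_prod {Ω : Type*} [CommMonoid Ω] {n : ℕ} (J : Finset (Ix g n)) (f : Fin g → Bool → Ω) :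
    ∏ k ∈ J, f k.i k.s = ∏ i, (f i true ^ tp J i true * f i false ^ tp J i false) := by
  classical
  have h1 : ∀ k ∈ J, f k.i k.s = ∏ i : Fin g, ∏ s : Bool, if k.i = i ∧ k.s = s then f i s else 1 := by
    intro k _
    rw [Finset.prod_eq_single k.i, Finset.prod_eq_single k.s]
    · simp
    · intro s _ hs
      simp [Ne.symm hs]
    · simp
    · intro i _ hi
      simp [Ne.symm hi]
    · simp
  rw [Finset.prod_congr rfl h1, Finset.prod_comm]
  refine Finset.prod_congr rfl fun i _ => ?_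
  rw [Finset.prod_comm]
  rw [Fintype.prod_bool]
  unfold tp
  congr 1 <;>
  · rw [← Finset.prod_filter, Finset.prod_const]

lemma card_eq_tp {n : ℕ} (J : Finset (Ix g n)) : J.card = ∑ i, (tp J i true + tp J i false) := by
  have := tp_sum J (fun _ _ => 1)
  simpa using this

lemma card_Ix (g n : ℕ) : Fintype.card (Ix g n) = 2 * g * n := by
  rw [← Finset.card_univ, card_eq_tp]
  simp only [tp_univ]
  simp
  ring

end

section

variable {Ω V : Type*} [Field Ω] [CharZero Ω] [AddCommGroup V] [Module Ω V]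
    {g q : ℕ} (D : AVData Ω V g q)


lemma AVData.pow_apply (s : ℕ) (n : ℕ) (k : Ix g n) :
    (D.F ^ s).compLeft (Fin n) (eb D.b n k) = (D.ev k.i k.s ^ s) • eb D.b n k := by
  have h1 : ∀ (s : ℕ) (i : Fin g) (c : Bool),
      (D.F ^ s) (D.b (i, c)) = (D.ev i c ^ s) • D.b (i, c) := by
    intro s i c
    induction s with
    | zero => simp
    | succ s ih =>
      rw [pow_succ', Module.End.mul_apply, ih, map_smul, D.hF, smul_smul, pow_succ]
  rw [eb_apply]
  funext j
  show (D.F ^ s) ((Pi.single k.j (D.b (k.i, k.s)) : Fin n → V) j) = _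
  by_cases h : j = k.j
  · subst h
    simp [h1]
  · simp [Pi.single_eq_of_ne h]


lemma AVData.frob_mon (s n : ℕ) (J : Finset (Ix g n)) :
    ExteriorAlgebra.map ((D.F ^ s).compLeft (Fin n)) (mon (eb D.b n) J) =
      (∏ k ∈ J, D.ev k.i k.s ^ s) • mon (eb D.b n) J :=
  map_mon_diag (eb D.b n) _ (fun k => D.ev k.i k.s ^ s) (fun k => D.pow_apply s n k) J

include D in
lemma AVData.q_ne : (q : Ω) ≠ 0 := by
  have := D.hq
  exact_mod_cast (by omega : q ≠ 0)

/-- the product of the eigenvalues of a monomial of degree `2 j` -/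
lemma AVData.prod_ev {n : ℕ} (J : Finset (Ix g n)) (s : ℕ) :
    ∏ k ∈ J, D.ev k.i k.s ^ s =
      (∏ i, D.α i ^ ((tp J i true : ℤ) - tp J i false)) ^ s * (q : Ω) ^ (s * ∑ i, tp J i false) := by
  rw [Finset.prod_pow, tp_prod J D.ev, mul_comm s, pow_mul, ← mul_pow]
  congr 1
  rw [← Finset.prod_pow_eq_pow_sum, ← Finset.prod_mul_distrib]
  refine Finset.prod_congr rfl fun i _ => ?_
  have h1 : D.ev i true = D.α i := rfl
  have h2 : D.ev i false = (q : Ω) / D.α i := rfl
  rw [h1, h2, zpow_sub₀ (D.hα i), div_pow, zpow_natCast, zpow_natCast]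
  ring

/-- the weight of a type -/
def wtHom (g : ℕ) : (Fin g → Bool → ℕ) →+ (Fin g → ℤ) where
  toFun t i := (t i true : ℤ) - t i false
  map_zero' := by funext i; simp
  map_add' t t' := by funext i; simp; ring

/-- A monomial of even degree is a Tate class iff its weight is a relation. -/
lemma AVData.tate_mon {n : ℕ} (J : Finset (Ix g n)) (s j : ℕ) (h : IsTate D.F q n s j (mon (eb D.b n) J))
    {E : Set ℕ} (hs : s ∈ E) : wtHom g (tp J) ∈ rel q D.α E ∧ J.card = 2 * j := by
  obtain ⟨h1, h2⟩ := h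
  have hc : J.card = 2 * j := by
    by_contra hne
    have h3 := mon_mem (eb D.b n) J
    have h4 := DirectSum.Decomposition.isInternal (fun n' => ⋀[Ω]^n' (Fin n → V))
    have h5 := h4.submodule_iSupIndep.pairwiseDisjoint hne
    exact mon_ne_zero (eb D.b n) J (Submodule.disjoint_def.1 h5 _ h3 h1)
  refine ⟨?_, hc⟩
  rw [D.frob_mon, D.prod_ev] at h2
  have h3 := smul_left_injective Ω (mon_ne_zero (eb D.b n) J) h2
  rw [card_eq_tp, Finset.sum_add_distrib] at hc
  have hq := D.q_ne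
  have h4 : ∑ i, wtHom g (tp J) i = ((∑ i, tp J i true : ℕ) : ℤ) - ((∑ i, tp J i false : ℕ) : ℤ) := by
    push_cast
    rw [← Finset.sum_sub_distrib]
    rfl
  have h5 : ((∑ i, tp J i true : ℕ) : ℤ) + ((∑ i, tp J i false : ℕ) : ℤ) = 2 * j := by
    exact_mod_cast hc
  refine ⟨s, hs, (j : ℤ) - ((∑ i, tp J i false : ℕ) : ℤ), ?_, ?_⟩
  · rw [h4]
    linear_combination h5
  · change (∏ i, D.α i ^ ((tp J i true : ℤ) - tp J i false)) ^ s = _
    rw [mul_sub, zpow_sub₀ hq, eq_div_iff (zpow_ne_zero _ hq)]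
    have e1 : ((s : ℤ) * (j : ℤ)) = ((s * j : ℕ) : ℤ) := by push_cast; ring
    have e2 : ((s : ℤ) * ((∑ i, tp J i false : ℕ) : ℤ)) = ((s * ∑ i, tp J i false : ℕ) : ℤ) := by
      push_cast; ring
    rw [e1, e2, zpow_natCast, zpow_natCast]
    exact h3

lemma AVData.mon_tate {n : ℕ} (J : Finset (Ix g n)) {E : Set ℕ}
    (h : wtHom g (tp J) ∈ rel q D.α E) :
    ∃ s ∈ E, ∃ j, J.card = 2 * j ∧ IsTate D.F q n s j (mon (eb D.b n) J) := by
  obtain ⟨s, hs, k, hk, h1⟩ := h
  have h4 : ∑ i, wtHom g (tp J) i = ((∑ i, tp J i true : ℕ) : ℤ) - ((∑ i, tp J i false : ℕ) : ℤ) := by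
    push_cast
    rw [← Finset.sum_sub_distrib]
    rfl
  rw [h4] at hk
  have hc : J.card = (∑ i, tp J i true) + ∑ i, tp J i false := by
    rw [card_eq_tp, Finset.sum_add_distrib]
  set A := ∑ i, tp J i true with hA
  set B := ∑ i, tp J i false with hB
  have hj : ∃ j : ℕ, (j : ℤ) = k + B := ⟨(k + B).toNat, by omega⟩
  obtain ⟨j, hj⟩ := hj
  refine ⟨s, hs, j, by omega, ?_, ?_⟩
  · have : J.card = 2 * j := by omega
    rw [← this]
    exact mon_mem _ _
  · rw [D.frob_mon, D.prod_ev, ← hB]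
    congr 1
    change (∏ i, D.α i ^ ((tp J i true : ℤ) - tp J i false)) ^ s = _ at h1
    have hq := D.q_ne
    rw [h1, ← zpow_natCast, ← zpow_natCast, ← zpow_add₀ hq]
    congr 1
    push_cast
    rw [hj]
    ring

variable {E : Set ℕ} (S : ClassSystem Ω V g q D.F D.R E)

/-- the types that occur, as a submonoid -/
noncomputable def Ty : AddSubmonoid (Fin g → Bool → ℕ) where
  carrier := {t | inT D S t}
  add_mem' := fun h h' => inT_add D S h h'
  zero_mem' := inT_zero D S

lemma pair_mem (hE : E.Nonempty) (i : Fin g) :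
    (fun i' _ => if i' = i then 1 else 0) ∈ Ty D S := by
  classical
  obtain ⟨s₀, hs₀⟩ := hE
  set t : Fin g → Bool → ℕ := fun i' _ => if i' = i then 1 else 0 with ht
  have h1 : ∀ i' s, tp (bl 1 0 t) i' s = t i' s := tp_bl 1 0 t (by
    intro i' s
    simp only [ht]
    split_ifs <;> simp)
  refine ⟨1, bl 1 0 t, h1, ?_⟩
  have hc : (bl 1 0 t).card = 2 * 1 := by
    rw [card_eq_tp]
    simp only [h1]
    rw [Finset.sum_eq_single i]
    · simp [ht]
    · intro j _ hj
      simp [ht, hj]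
    · simp
  obtain ⟨s, hs, j, hj, h2⟩ := D.mon_tate (E := E) (bl 1 0 t) (by
    have : wtHom g (tp (bl 1 0 t)) = 0 := by
      funext i'
      simp only [wtHom, AddMonoidHom.coe_mk, ZeroHom.coe_mk, h1]
      simp [ht]
    rw [this]
    exact ⟨s₀, hs₀, 0, by simp, by simp⟩)
  have : j = 1 := by omega
  subst this
  exact S.div 1 _ s hs h2

lemma diag_mem (hE : E.Nonempty) (a : Fin g → ℕ) : (fun i _ => a i) ∈ Ty D S := by
  classical
  have : (fun (i : Fin g) (_ : Bool) => a i) =
      ∑ i, a i • (fun (i' : Fin g) (_ : Bool) => if i' = i then 1 else 0) := by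
    funext i s
    simp [Finset.sum_apply]
  rw [this]
  exact AddSubmonoid.sum_mem _ fun i _ => AddSubmonoid.nsmul_mem _ (pair_mem D S hE i) _

lemma fstS_eb (n : ℕ) (k : Ix g n) :
    fstS Ω V n (eb D.b n k) = eb D.b (n + 1) ⟨k.i, k.s, Fin.castSucc k.j⟩ := by
  rw [eb_apply, eb_apply]
  funext j
  unfold fstS
  rw [act_single]
  by_cases h : j = Fin.castSucc k.j
  · subst h; simp
  · rw [if_neg h, Pi.single_eq_of_ne h]
    rfl

lemma sndS_eb (n : ℕ) (k : Ix g 1) :
    sndS Ω V n (eb D.b 1 k) = eb D.b (n + 1) ⟨k.i, k.s, Fin.last n⟩ := by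
  rw [eb_apply, eb_apply]
  funext j
  unfold sndS
  rw [act_single]
  by_cases h : j = Fin.last n
  · subst h; simp
  · rw [if_neg h, Pi.single_eq_of_ne h]
    rfl

lemma desc_mem {t : Fin g → Bool → ℕ} (h : (fun i s => t i s + 1) ∈ Ty D S) : t ∈ Ty D S := by
  classical
  obtain ⟨n, hn⟩ := bdd t
  set J := bl n 0 t with hJ
  have hJt : ∀ i s, tp J i s = t i s := tp_bl n 0 t (by simpa using hn)
  refine ⟨n, J, hJt, ?_⟩
  set σ1 : Ix g n → Ix g (n + 1) := fun k => ⟨k.i, k.s, Fin.castSucc k.j⟩ with hσ1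
  set σ2 : Ix g 1 → Ix g (n + 1) := fun k => ⟨k.i, k.s, Fin.last n⟩ with hσ2
  have inj1 : Function.Injective σ1 := by
    intro k l hkl
    simp only [hσ1, Ix.mk.injEq] at hkl
    exact Ix.ext' hkl.1 hkl.2.1 (Fin.castSucc_injective _ hkl.2.2)
  have inj2 : Function.Injective σ2 := by
    intro k l hkl
    simp only [hσ2, Ix.mk.injEq] at hkl
    exact Ix.ext' hkl.1 hkl.2.1 (Subsingleton.elim _ _)
  have e1 := map_mon_inj (eb D.b n) (eb D.b (n + 1)) (fstS Ω V n) σ1 J
    (fun k _ => fstS_eb D n k) inj1.injOn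
  have e2 := map_mon_inj (eb D.b 1) (eb D.b (n + 1)) (sndS Ω V n) σ2 Finset.univ
    (fun k _ => sndS_eb D n k) inj2.injOn
  have hd : Disjoint (J.image σ1) (Finset.univ.image σ2) := by
    rw [Finset.disjoint_left]
    intro k hk hk'
    rw [Finset.mem_image] at hk hk'
    obtain ⟨a, _, rfl⟩ := hk
    obtain ⟨b, _, hb⟩ := hk'
    simp only [hσ1, hσ2, Ix.mk.injEq] at hb
    exact (Fin.castSucc_lt_last a.j).ne hb.2.2.symm
  have e3 := mon_mul (eb D.b (n + 1)) hd
  apply S.push n _ (mon (eb D.b 1) Finset.univ)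
  · have := mon_mem (eb D.b 1) (Finset.univ : Finset (Ix g 1))
    rw [Finset.card_univ, card_Ix, mul_one] at this
    exact this
  · exact mon_ne_zero _ _
  · have e4 : PM (ExteriorAlgebra.map (fstS Ω V n) (mon (eb D.b n) J) *
        ExteriorAlgebra.map (sndS Ω V n) (mon (eb D.b 1) Finset.univ))
        (mon (eb D.b (n + 1)) (J.image σ1 ∪ Finset.univ.image σ2)) := by
      rcases e1 with h1 | h1 <;> rcases e2 with h2 | h2 <;> rw [h1, h2] <;>
        rcases e3 with h3 | h3
      · left; rw [h3]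
      · right; rw [h3]
      · right; rw [mul_neg, h3]
      · left; rw [mul_neg, h3, neg_neg]
      · right; rw [neg_mul, h3]
      · left; rw [neg_mul, h3, neg_neg]
      · left; rw [neg_mul_neg, h3]
      · right; rw [neg_mul_neg, h3]
    rw [e4.mem, mem_iff_inT]
    have h5 : tp (J.image σ1 ∪ Finset.univ.image σ2) = fun i s => t i s + 1 := by
      funext i s
      rw [tp_union hd, tp_image σ1 (fun _ => ⟨rfl, rfl⟩) inj1.injOn,
        tp_image σ2 (fun _ => ⟨rfl, rfl⟩) inj2.injOn, hJt, tp_univ]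
    rw [h5]
    exact h

lemma desc_mem_mul {t : Fin g → Bool → ℕ} (N : ℕ) (h : (fun i s => t i s + N) ∈ Ty D S) :
    t ∈ Ty D S := by
  induction N with
  | zero => exact h
  | succ N ih =>
    apply ih
    apply desc_mem
    exact h

lemma mem_of_wt (hE : E.Nonempty) {t t' : Fin g → Bool → ℕ} (h : t ∈ Ty D S) (hw : wtHom g t = wtHom g t') :
    t' ∈ Ty D S := by
  obtain ⟨N, hN⟩ := bdd t
  apply desc_mem_mul D S N
  have h1 := (Ty D S).add_mem h (diag_mem D S hE (fun i => t' i false + (N - t i false)))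
  convert h1 using 1
  funext i s
  have h2 := congrFun hw i
  simp only [wtHom, AddMonoidHom.coe_mk, ZeroHom.coe_mk] at h2
  have h3 := hN i false
  simp only [Pi.add_apply]
  cases s
  · omega
  · omega

/-- the weights that occur -/
noncomputable def wS : AddSubmonoid (Fin g → ℤ) := (Ty D S).map (wtHom g)

lemma mon_mem_iff (hE : E.Nonempty) {n : ℕ} (J : Finset (Ix g n)) :
    mon (eb D.b n) J ∈ S.cls n ↔ wtHom g (tp J) ∈ wS D S := by
  rw [mem_iff_inT]
  constructor
  · intro h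
    exact ⟨tp J, h, rfl⟩
  · rintro ⟨t, h1, h2⟩
    exact mem_of_wt D S hE h1 h2

lemma cls_dbl (n : ℕ) (k : Ix g n) (x : ExteriorAlgebra Ω (Fin n → V)) (hx : x ∈ S.cls n) :
    ExteriorAlgebra.map (dbl (eb D.b n) k) x ∈ S.cls n := by
  refine S.pull' D _ (D.comm _ ?_) x hx
  intro j
  rw [dbl_apply]
  have := D.compLeft_eb n j
  funext i
  simp only [Pi.smul_apply, map_smul]
  rw [show D.F (eb D.b n j i) = (D.ev j.i j.s • eb D.b n j) i from congrFun this i]
  simp only [Pi.smul_apply]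
  rw [smul_comm]

open Classical in
theorem dim_cls (hE : E.Nonempty) (n : ℕ) :
    Module.finrank Ω (S.cls n) =
      (Finset.univ.filter fun J : Finset (Ix g n) => wtHom g (tp J) ∈ wS D S).card := by
  rw [finrank_eq_card (eb D.b n) (S.cls n) (cls_dbl D S n)]
  congr 1
  ext J
  simp only [Finset.mem_filter, Finset.mem_univ, true_and]
  exact mon_mem_iff D S hE J

end

end Pool.Agent.K7.H8.AV
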