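import Pool.Agent.K7.H8.AV.Stmt

/-!
# Numerical equivalence on the powers of an abelian variety
-/

set_option autoImplicit false

namespace Pool.Agent.K7.H8.AV

open Finset Module

section lib

variable {Ω : Type*} [Field Ω] {W : Type*} [AddCommGroup W] [Module Ω W]
  {I : Type*} [LinearOrder I] [Fintype I] (e : Module.Basis I Ω W)

omit [LinearOrder I] [Fintype I] in
lemma map_mem_ep {W' : Type*} [AddCommGroup W'] [Module Ω W'] (f : W →ₗ[Ω] W') (d : ℕ)
    {x : ExteriorAlgebra Ω W} (hx : x ∈ (⋀[Ω]^d W : Submodule Ω (ExteriorAlgebra Ω W))) :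
    ExteriorAlgebra.map f x ∈ (⋀[Ω]^d W' : Submodule Ω (ExteriorAlgebra Ω W')) := by
  have h1 := Submodule.mem_map_of_mem (f := (ExteriorAlgebra.map f).toLinearMap) hx
  change ExteriorAlgebra.map f x ∈ _ at h1
  rw [Submodule.map_pow] at h1
  have h2 : Submodule.map (ExteriorAlgebra.map f).toLinearMap (LinearMap.range (ExteriorAlgebra.ι Ω)) ≤
      LinearMap.range (ExteriorAlgebra.ι Ω (M := W')) := by
    rintro _ ⟨_, ⟨v, rfl⟩, rfl⟩
    refine ⟨f v, ?_⟩
    show _ = ExteriorAlgebra.map f (ExteriorAlgebra.ι Ω v)
    rw [ExteriorAlgebra.map_apply_ι]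
  exact pow_le_pow_left' h2 d h1

/-- classes without component of top degree -/
noncomputable def lowX (Ω W : Type*) [Field Ω] [AddCommGroup W] [Module Ω W] (N : ℕ) :
    Submodule Ω (ExteriorAlgebra Ω W) :=
  ⨆ d : {d : ℕ // d < N}, (⋀[Ω]^d.1 W : Submodule Ω (ExteriorAlgebra Ω W))

lemma mem_low_iff (x : ExteriorAlgebra Ω W) :
    x ∈ lowX Ω W (Fintype.card I) ↔ e.ExteriorAlgebra.repr x Finset.univ = 0 := by
  constructor
  · intro h
    have h1 : lowX Ω W (Fintype.card I) ≤ LinearMap.ker ((Finsupp.lapply (R := Ω)
        (Finset.univ : Finset I)).comp e.ExteriorAlgebra.repr.toLinearMap) := by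
      unfold lowX
      refine iSup_le fun d => ?_
      intro y hy
      rw [LinearMap.mem_ker]
      change e.ExteriorAlgebra.repr y Finset.univ = 0
      by_contra hne
      -- `y` is a combination of monomials of degree `d`
      have h2 : filt e (fun J' => J' = Finset.univ) y = e.ExteriorAlgebra.repr y Finset.univ •
          mon e Finset.univ := by
        conv_lhs => rw [← e.ExteriorAlgebra.sum_repr y]
        rw [map_sum, Finset.sum_eq_single Finset.univ]
        · rw [map_smul]
          have := filt_mon e (fun J' => J' = Finset.univ) Finset.univ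
          rw [if_pos rfl] at this
          rw [← this]
          rfl
        · intro J' _ hJ'
          rw [map_smul]
          have := filt_mon e (fun J' => J' = Finset.univ) J'
          rw [if_neg hJ'] at this
          change _ • filt e _ (mon e J') = 0
          rw [this, smul_zero]
        · intro h
          exact absurd (Finset.mem_univ _) h
      -- the degree-`d` part is stable under diagonal maps
      have h3 : mon e Finset.univ ∈ (⋀[Ω]^d.1 W : Submodule Ω (ExteriorAlgebra Ω W)) := by
        refine mon_mem_of_repr e _ (fun k z hz => ?_) hy hne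
        exact map_mem_ep _ _ hz
      have h4 := mon_mem e (Finset.univ : Finset I)
      have h5 := DirectSum.Decomposition.isInternal (fun n' => ⋀[Ω]^n' W)
      have hne' : (Finset.univ : Finset I).card ≠ d.1 := by
        rw [Finset.card_univ]
        exact d.2.ne'
      have h6 := h5.submodule_iSupIndep.pairwiseDisjoint hne'
      exact mon_ne_zero e Finset.univ (Submodule.disjoint_def.1 h6 _ h4 h3)
    exact h1 h
  · intro h
    rw [← e.ExteriorAlgebra.sum_repr x]
    refine Submodule.sum_mem _ fun J _ => ?_
    by_cases hJ : J = Finset.univ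
    · subst hJ
      rw [h, zero_smul]
      exact Submodule.zero_mem _
    · refine Submodule.smul_mem _ _ ?_
      have h1 : J.card < Fintype.card I := by
        rw [← Finset.card_univ]
        exact Finset.card_lt_card (Finset.ssubset_univ_iff.2 hJ)
      unfold lowX
      exact Submodule.mem_iSup_of_mem (⟨J.card, h1⟩ : {d : ℕ // d < Fintype.card I}) (mon_mem e J)

/-- the coefficient of the top monomial in a product with a monomial -/
lemma repr_mul_mon (x : ExteriorAlgebra Ω W) (J : Finset I) :
    e.ExteriorAlgebra.repr (x * mon e Jᶜ) Finset.univ = 0 ↔ e.ExteriorAlgebra.repr x J = 0 := by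
  classical
  have h1 : x * mon e Jᶜ = ∑ J', e.ExteriorAlgebra.repr x J' • (mon e J' * mon e Jᶜ) := by
    conv_lhs => rw [← e.ExteriorAlgebra.sum_repr x]
    rw [Finset.sum_mul]
    refine Finset.sum_congr rfl fun J' _ => ?_
    rw [smul_mul_assoc]
    rfl
  have h2 : ∀ J', J' ≠ J → e.ExteriorAlgebra.repr (mon e J' * mon e Jᶜ) Finset.univ = 0 := by
    intro J' hJ'
    by_cases hd : Disjoint J' Jᶜ
    · have h3 := mon_mul e hd
      have h4 : J' ∪ Jᶜ ≠ Finset.univ := by
        intro h
        apply hJ'
        ext k
        constructor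
        · intro hk
          by_contra hkJ
          exact Finset.disjoint_left.1 hd hk (Finset.mem_compl.2 hkJ)
        · intro hk
          have : k ∈ J' ∪ Jᶜ := by rw [h]; exact Finset.mem_univ k
          rcases Finset.mem_union.1 this with h5 | h5
          · exact h5
          · exact absurd hk (Finset.mem_compl.1 h5)
      have h5 : e.ExteriorAlgebra.repr (mon e (J' ∪ Jᶜ)) Finset.univ = 0 := by
        unfold mon
        rw [Module.Basis.repr_self, Finsupp.single_apply, if_neg h4]
      rcases h3 with h3 | h3
      · rw [h3, h5]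
      · rw [h3, map_neg, Finsupp.neg_apply, h5, neg_zero]
    · rw [mon_mul_of_not_disjoint e hd, map_zero, Finsupp.zero_apply]
  rw [h1, map_sum, Finsupp.finsetSum_apply, Finset.sum_eq_single J]
  · rw [map_smul, Finsupp.smul_apply, smul_eq_mul, mul_eq_zero]
    constructor
    · rintro (h | h)
      · exact h
      · exfalso
        have h3 := mon_mul e (J := J) (J' := Jᶜ) disjoint_compl_right
        rw [Finset.union_compl] at h3
        have h5 : e.ExteriorAlgebra.repr (mon e Finset.univ) Finset.univ = 1 := by
          unfold mon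
          rw [Module.Basis.repr_self, Finsupp.single_eq_same]
        rcases h3 with h3 | h3
        · rw [h3, h5] at h
          exact one_ne_zero h
        · rw [h3, map_neg, Finsupp.neg_apply, h5] at h
          exact one_ne_zero (neg_eq_zero.1 h)
    · intro h
      exact Or.inl h
  · intro J' _ hJ'
    rw [map_smul, Finsupp.smul_apply, h2 J' hJ', smul_zero]
  · intro h
    exact absurd (Finset.mem_univ _) h

/-- the numerically trivial elements of a space of classes -/
noncomputable def radX (N : ℕ) (C : Submodule Ω (ExteriorAlgebra Ω W)) :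
    Submodule Ω (ExteriorAlgebra Ω W) where
  carrier := {x | x ∈ C ∧ ∀ y ∈ C, x * y ∈ lowX Ω W N}
  add_mem' := by
    rintro x x' ⟨h1, h2⟩ ⟨h3, h4⟩
    refine ⟨C.add_mem h1 h3, fun y hy => ?_⟩
    rw [add_mul]
    exact Submodule.add_mem _ (h2 y hy) (h4 y hy)
  zero_mem' := ⟨C.zero_mem, fun y _ => by rw [zero_mul]; exact Submodule.zero_mem _⟩
  smul_mem' := by
    rintro c x ⟨h1, h2⟩
    refine ⟨C.smul_mem c h1, fun y hy => ?_⟩
    rw [smul_mul_assoc]
    exact Submodule.smul_mem _ _ (h2 y hy)

variable (C : Submodule Ω (ExteriorAlgebra Ω W))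
    (hC : ∀ k, ∀ x ∈ C, ExteriorAlgebra.map (dbl e k) x ∈ C)

include hC

lemma mem_rad_iff (x : ExteriorAlgebra Ω W) : x ∈ radX (Fintype.card I) C ↔
    x ∈ C ∧ ∀ J, mon e Jᶜ ∈ C → e.ExteriorAlgebra.repr x J = 0 := by
  constructor
  · rintro ⟨h1, h2⟩
    refine ⟨h1, fun J hJ => ?_⟩
    have h3 := h2 _ hJ
    rw [mem_low_iff e, repr_mul_mon] at h3
    exact h3
  · rintro ⟨h1, h2⟩
    refine ⟨h1, fun y hy => ?_⟩
    rw [← e.ExteriorAlgebra.sum_repr y, Finset.mul_sum]
    refine Submodule.sum_mem _ fun J _ => ?_
    by_cases hJ : e.ExteriorAlgebra.repr y J = 0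
    · rw [hJ, zero_smul, mul_zero]
      exact Submodule.zero_mem _
    · rw [mul_smul_comm]
      refine Submodule.smul_mem _ _ ?_
      have h3 := mon_mem_of_repr e C hC hy hJ
      have h4 : J = Jᶜᶜ := (compl_compl J).symm
      change x * mon e J ∈ _
      rw [h4, mem_low_iff e, repr_mul_mon]
      apply h2
      rwa [← h4]

lemma rad_dbl (k : I) (x : ExteriorAlgebra Ω W) (hx : x ∈ radX (Fintype.card I) C) :
    ExteriorAlgebra.map (dbl e k) x ∈ radX (Fintype.card I) C := by
  rw [mem_rad_iff e C hC] at hx ⊢
  refine ⟨hC k x hx.1, fun J hJ => ?_⟩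
  have h1 : e.ExteriorAlgebra.repr (ExteriorAlgebra.map (dbl e k) x) J =
      (if k ∈ J then (2 : Ω) else 1) * e.ExteriorAlgebra.repr x J := by
    conv_lhs => rw [← e.ExteriorAlgebra.sum_repr x]
    rw [map_sum, map_sum, Finsupp.finsetSum_apply, Finset.sum_eq_single J]
    · rw [map_smul]
      have := map_dbl_mon e k J
      change ExteriorAlgebra.map (dbl e k) (e.ExteriorAlgebra J) = _ at this
      rw [this, map_smul, map_smul, Finsupp.smul_apply, Finsupp.smul_apply]
      unfold mon
      rw [Module.Basis.repr_self, Finsupp.single_eq_same, smul_eq_mul, smul_eq_mul, mul_one,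
        mul_comm]
    · intro J' _ hJ'
      rw [map_smul]
      have := map_dbl_mon e k J'
      change ExteriorAlgebra.map (dbl e k) (e.ExteriorAlgebra J') = _ at this
      rw [this, map_smul, map_smul, Finsupp.smul_apply, Finsupp.smul_apply]
      unfold mon
      rw [Module.Basis.repr_self, Finsupp.single_apply, if_neg hJ', smul_zero, smul_zero]
    · intro h
      exact absurd (Finset.mem_univ _) h
  rw [h1, hx.2 J hJ, mul_zero]

open Classical in
/-- the numerical rank -/
lemma numRank_eq : Module.finrank Ω C - Module.finrank Ω (radX (Fintype.card I) C) =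
    (Finset.univ.filter fun J : Finset I => mon e J ∈ C ∧ mon e Jᶜ ∈ C).card := by
  rw [finrank_eq_card e C hC, finrank_eq_card e _ (rad_dbl e C hC)]
  have h1 : ∀ J : Finset I, mon e J ∈ radX (Fintype.card I) C ↔ mon e J ∈ C ∧ mon e Jᶜ ∉ C := by
    intro J
    rw [mem_rad_iff e C hC]
    refine and_congr_right fun _ => ?_
    constructor
    · intro h hJ
      have := h J hJ
      unfold mon at this
      rw [Module.Basis.repr_self, Finsupp.single_eq_same] at this
      exact one_ne_zero this
    · intro h J' hJ'
      unfold mon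
      rw [Module.Basis.repr_self, Finsupp.single_apply, if_neg]
      rintro rfl
      exact h hJ'
  simp only [h1]
  have h2 : (Finset.univ.filter fun J : Finset I => mon e J ∈ C).card =
      (Finset.univ.filter fun J : Finset I => mon e J ∈ C ∧ mon e Jᶜ ∈ C).card +
      (Finset.univ.filter fun J : Finset I => mon e J ∈ C ∧ mon e Jᶜ ∉ C).card := by
    rw [← Finset.filter_filter, ← Finset.filter_filter]
    exact (Finset.card_filter_add_card_filter_not _).symm
  omega

end lib

end Pool.Agent.K7.H8.AV
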