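import Pool.Agent.K7.H8.AV.Data

/-!
# Orders of poles and numerical ranks: definitions
-/

set_option autoImplicit false

namespace Pool.Agent.K7.H8.AV

open Finset Module

variable {Ω V : Type*} [Field Ω] [AddCommGroup V] [Module Ω V]

/-- the action of the `m`-th power of Frobenius on the cohomology of `A ^ n` -/
noncomputable def frob (F : Module.End Ω V) (n m : ℕ) : Module.End Ω (Coh Ω V n) :=
  (extHom ((F ^ m).compLeft (Fin n))).toLinearMap

/-- The Tate classes of degree `2 j` on `A ^ n` over the field with `q ^ m` elements.  As Frobenius is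
semisimple, the dimension is the order of the pole of the zeta function of `A ^ n`, over this field, at
`s = j`. -/
noncomputable def tateOf (F : Module.End Ω V) (q n m j : ℕ) : Submodule Ω (Coh Ω V n) :=
  degree Ω V n (2 * j) ⊓ Module.End.eigenspace (frob F n m) ((q : Ω) ^ (m * j))

/-- the order of the pole at `s = j` -/
noncomputable def poleOrder (F : Module.End Ω V) (q n m j : ℕ) : ℕ := dim (tateOf F q n m j)

/-- The rank of the product `C × C' → H(A ^ n)`, that is, the dimension of `C` modulo the classes
whose products with all elements of `C'` vanish. -/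
noncomputable def pairRank {n : ℕ} (C C' : Submodule Ω (Coh Ω V n)) : ℕ :=
  dim C - dim (C ⊓ ⨅ y : C', LinearMap.ker (LinearMap.mulRight Ω (y : Coh Ω V n)))

/-- The rank of the group of algebraic cycles of codimension `j` modulo numerical equivalence on
`A ^ n` over the field with `q ^ m` elements: the rank of the intersection pairing. -/
noncomputable def numRank {g q : ℕ} {D : AVData Ω V g q} (S : AlgSystem D) (n m j : ℕ) : ℕ :=
  pairRank (S.cls n ⊓ tateOf D.F q n m j) (S.cls n ⊓ tateOf D.F q n m (g * n - j))

/-- The same over an algebraic closure. -/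
noncomputable def numRankBar {g q : ℕ} {D : AVData Ω V g q} (S : AlgSystem D) (n j : ℕ) : ℕ :=
  pairRank (S.cls n ⊓ degree Ω V n (2 * j)) (S.cls n ⊓ degree Ω V n (2 * (g * n - j)))

end Pool.Agent.K7.H8.AV
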