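import Pool.Agent.K7.H8.AV.Num
import Pool.Agent.K7.H8.AV.NumData

/-!
# Numerical ranks on the powers of an abelian variety
-/

set_option autoImplicit false

namespace Pool.Agent.K7.H8.AV

open Finset Module

section lib

variable {Ω : Type*} [Field Ω] {W : Type*} [AddCommGroup W] [Module Ω W]
  {I : Type*} [LinearOrder I] [Fintype I] (e : Module.Basis I Ω W)

/-- a monomial belongs to the part of degree `d` iff it has degree `d` -/
lemma mon_mem_degree_iff (J : Finset I) (d : ℕ) :
    mon e J ∈ (⋀[Ω]^d W : Submodule Ω (ExteriorAlgebra Ω W)) ↔ J.card = d := by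
  constructor
  · intro h
    by_contra hne
    have h3 := mon_mem e J
    have h5 := (DirectSum.Decomposition.isInternal (fun n' => ⋀[Ω]^n' W)
      ).submodule_iSupIndep.pairwiseDisjoint hne
    exact mon_ne_zero e J (Submodule.disjoint_def.1 h5 _ h3 h)
  · rintro rfl
    exact mon_mem e J

open Classical in
/-- rank of the pairing between two homogeneous diagonal-stable subspaces of complementary degrees -/
lemma pairRank_lib (C C' : Submodule Ω (ExteriorAlgebra Ω W))
    (hC : ∀ k, ∀ x ∈ C, ExteriorAlgebra.map (dbl e k) x ∈ C)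
    (hC' : ∀ k, ∀ x ∈ C', ExteriorAlgebra.map (dbl e k) x ∈ C')
    (R : Submodule Ω (ExteriorAlgebra Ω W)) (hR : ∀ x, x ∈ R ↔ x ∈ C ∧ ∀ y ∈ C', x * y = 0)
    (d d' : ℕ) (hd : d + d' = Fintype.card I)
    (h1 : C ≤ (⋀[Ω]^d W : Submodule Ω (ExteriorAlgebra Ω W)))
    (h2 : C' ≤ (⋀[Ω]^d' W : Submodule Ω (ExteriorAlgebra Ω W))) :
    Module.finrank Ω C - Module.finrank Ω R =
      (Finset.univ.filter fun J : Finset I => mon e J ∈ C ∧ mon e Jᶜ ∈ C').card := by
  -- characterization of `R`
  have key : ∀ x, x ∈ R ↔ x ∈ C ∧ ∀ J, mon e Jᶜ ∈ C' → e.ExteriorAlgebra.repr x J = 0 := by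
    intro x
    rw [hR]
    refine and_congr_right fun hx => ?_
    constructor
    · intro h J hJ
      rw [← repr_mul_mon, h _ hJ, map_zero, Finsupp.zero_apply]
    · intro h y hy
      rw [← e.ExteriorAlgebra.sum_repr y, Finset.mul_sum]
      refine Finset.sum_eq_zero fun J _ => ?_
      by_cases hJ : e.ExteriorAlgebra.repr y J = 0
      · rw [hJ, zero_smul, mul_zero]
      · rw [mul_smul_comm]
        have h3 : mon e J ∈ C' := mon_mem_of_repr e C' hC' hy hJ
        have h4 : J = Jᶜᶜ := (compl_compl J).symm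
        have h5 : e.ExteriorAlgebra.repr (x * mon e J) Finset.univ = 0 := by
          rw [h4, repr_mul_mon]
          apply h
          rwa [← h4]
        -- `x * mon J` is homogeneous of top degree
        have h6 : x * mon e J ∈ (⋀[Ω]^(Fintype.card I) W : Submodule Ω (ExteriorAlgebra Ω W)) := by
          rw [← hd]
          change _ ∈ (LinearMap.range (ExteriorAlgebra.ι Ω) ^ (d + d') : Submodule Ω _)
          rw [pow_add]
          exact Submodule.mul_mem_mul (h1 hx) (h2 h3)
        have h7 : x * mon e J ∈ lowX Ω W (Fintype.card I) := (mem_low_iff e _).2 h5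
        have h8 : Disjoint (⋀[Ω]^(Fintype.card I) W : Submodule Ω (ExteriorAlgebra Ω W))
            (lowX Ω W (Fintype.card I)) := by
          have h9 := (DirectSum.Decomposition.isInternal (fun n' => ⋀[Ω]^n' W)
            ).submodule_iSupIndep (Fintype.card I)
          refine h9.mono_right ?_
          unfold lowX
          refine iSup_le fun d => ?_
          exact le_iSup₂_of_le d.1 d.2.ne le_rfl
        have h10 : x * mon e J = 0 := Submodule.disjoint_def.1 h8 _ h6 h7
        change _ • (x * mon e J) = 0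
        rw [h10, smul_zero]
  have hRd : ∀ k, ∀ x ∈ R, ExteriorAlgebra.map (dbl e k) x ∈ R := by
    intro k x hx
    rw [key] at hx ⊢
    refine ⟨hC k x hx.1, fun J hJ => ?_⟩
    have h1 : e.ExteriorAlgebra.repr (ExteriorAlgebra.map (dbl e k) x) J =
        (if k ∈ J then (2 : Ω) else 1) * e.ExteriorAlgebra.repr x J := by
      conv_lhs => rw [← e.ExteriorAlgebra.sum_repr x]
      rw [map_sum, map_sum, Finsupp.finsetSum_apply, Finset.sum_eq_single J]
      · rw [map_smul]
        have := map_dbl_mon e k J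
        change ExteriorAlgebra.map (dbl e k) (e.ExteriorAlgebra J) = _ at this
        rw [this, map_smul, map_smul, Finsupp.smul_apply, Finsupp.smul_apply]
        unfold mon
        rw [Module.Basis.repr_self, Finsupp.single_eq_same, smul_eq_mul, smul_eq_mul, mul_one,
          mul_comm]
      · intro J' _ hJ'
        rw [map_smul]
        have := map_dbl_mon e k J'
        change ExteriorAlgebra.map (dbl e k) (e.ExteriorAlgebra J') = _ at this
        rw [this, map_smul, map_smul, Finsupp.smul_apply, Finsupp.smul_apply]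
        unfold mon
        rw [Module.Basis.repr_self, Finsupp.single_apply, if_neg hJ', smul_zero, smul_zero]
      · intro h
        exact absurd (Finset.mem_univ _) h
    rw [h1, hx.2 J hJ, mul_zero]
  rw [finrank_eq_card e C hC, finrank_eq_card e R hRd]
  have h1 : ∀ J : Finset I, mon e J ∈ R ↔ mon e J ∈ C ∧ mon e Jᶜ ∉ C' := by
    intro J
    rw [key]
    refine and_congr_right fun _ => ?_
    constructor
    · intro h hJ
      have := h J hJ
      unfold mon at this
      rw [Module.Basis.repr_self, Finsupp.single_eq_same] at this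
      exact one_ne_zero this
    · intro h J' hJ'
      unfold mon
      rw [Module.Basis.repr_self, Finsupp.single_apply, if_neg]
      rintro rfl
      exact h hJ'
  simp only [h1]
  have h2 : (Finset.univ.filter fun J : Finset I => mon e J ∈ C).card =
      (Finset.univ.filter fun J : Finset I => mon e J ∈ C ∧ mon e Jᶜ ∈ C').card +
      (Finset.univ.filter fun J : Finset I => mon e J ∈ C ∧ mon e Jᶜ ∉ C').card := by
    rw [← Finset.filter_filter, ← Finset.filter_filter]
    exact (Finset.card_filter_add_card_filter_not _).symm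
  rw [h2]
  omega

end lib

section

variable {Ω V : Type*} [Field Ω] [CharZero Ω] [AddCommGroup V] [Module Ω V]
    {g q : ℕ} (D : AVData Ω V g q)

lemma wt_compl {n : ℕ} (J : Finset (Ix g n)) : wtHom g (tp Jᶜ) = - wtHom g (tp J) := by
  classical
  have h1 := tp_union (g := g) (J := J) (J' := Jᶜ) disjoint_compl_right
  rw [Finset.union_compl] at h1
  funext i
  have h2 := h1 i true
  have h3 := h1 i false
  rw [tp_univ] at h2 h3
  simp only [wtHom, AddMonoidHom.coe_mk, ZeroHom.coe_mk, Pi.neg_apply]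
  omega

lemma rel_neg {E : Set ℕ} {ν : Fin g → ℤ} (h : ν ∈ rel q D.α E) : -ν ∈ rel q D.α E := by
  obtain ⟨s, hs, k, hk, h⟩ := h
  refine ⟨s, hs, -k, ?_, ?_⟩
  · simp only [Pi.neg_apply, Finset.sum_neg_distrib, hk]
    ring
  · have : ∏ i, D.α i ^ ((-ν) i) = (∏ i, D.α i ^ (ν i))⁻¹ := by
      rw [← Finset.prod_inv_distrib]
      refine Finset.prod_congr rfl fun i _ => ?_
      rw [Pi.neg_apply, zpow_neg]
    rw [this, inv_pow, h, mul_neg, zpow_neg]

/-- the relations over the field with `q ^ m` elements -/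
noncomputable def relMonOf (m : ℕ) : AddSubmonoid (Fin g → ℤ) where
  carrier := rel q D.α {m}
  zero_mem' := ⟨m, rfl, 0, by simp, by simp⟩
  add_mem' := by
    rintro ν μ ⟨s, hs, k, hk, h⟩ ⟨t, ht, l, hl, h'⟩
    rw [Set.mem_singleton_iff] at hs ht
    rw [hs] at h
    rw [ht] at h'
    refine ⟨m, rfl, k + l, ?_, ?_⟩
    · simp only [Pi.add_apply, Finset.sum_add_distrib, hk, hl]
      ring
    · have hq := D.q_ne
      have : ∏ i, D.α i ^ ((ν + μ) i) = (∏ i, D.α i ^ (ν i)) * ∏ i, D.α i ^ (μ i) := by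
        rw [← Finset.prod_mul_distrib]
        refine Finset.prod_congr rfl fun i _ => ?_
        rw [Pi.add_apply, zpow_add₀ (D.hα i)]
      rw [this, mul_pow, h, h', ← zpow_add₀ hq, mul_add]

/-- the invertible elements of a monoid, as a monoid -/
def symm (M : AddSubmonoid (Fin g → ℤ)) : AddSubmonoid (Fin g → ℤ) where
  carrier := {ν | ν ∈ M ∧ -ν ∈ M}
  zero_mem' := ⟨M.zero_mem, by rw [neg_zero]; exact M.zero_mem⟩
  add_mem' := by
    rintro ν μ ⟨h1, h2⟩ ⟨h3, h4⟩
    refine ⟨M.add_mem h1 h3, ?_⟩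
    rw [neg_add]
    exact M.add_mem h2 h4

/-- passing to multiples does not change the rank -/
lemma rk_of_mul {M N : Set (Fin g → ℤ)} (h : N ⊆ M) (h' : ∀ ν ∈ M, ∃ s : ℕ, 0 < s ∧ s • ν ∈ N) :
    rk N = rk M := by
  rw [rk_eq, rk_eq]
  have : Submodule.span ℚ (cst '' N) = Submodule.span ℚ (cst '' M) := by
    apply le_antisymm (Submodule.span_mono (Set.image_mono h))
    rw [Submodule.span_le]
    rintro _ ⟨ν, hν, rfl⟩
    obtain ⟨s, hs, h1⟩ := h' ν hν
    have h2 : cst (s • ν) ∈ Submodule.span ℚ (cst '' N) := Submodule.subset_span ⟨_, h1, rfl⟩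
    have h3 : cst (s • ν) = (s : ℚ) • cst ν := by
      funext i
      simp [cst]
    rw [h3] at h2
    exact (Submodule.smul_mem_iff _ (by positivity)).1 h2
  rw [this]

lemma rel_mul {m : ℕ} {ν : Fin g → ℤ} (h : ν ∈ rel q D.α pos) :
    ∃ s : ℕ, 0 < s ∧ s • ν ∈ rel q D.α {m} := by
  obtain ⟨s, hs, k, hk, h⟩ := h
  refine ⟨s, hs, m, rfl, s * k, ?_, ?_⟩
  · simp only [Pi.smul_apply, nsmul_eq_mul, ← Finset.mul_sum, hk]
    ring
  · have : ∏ i, D.α i ^ ((s • ν) i) = (∏ i, D.α i ^ (ν i)) ^ s := by
      rw [← Finset.prod_pow]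
      refine Finset.prod_congr rfl fun i _ => ?_
      rw [Pi.smul_apply, nsmul_eq_mul, mul_comm, zpow_mul, zpow_natCast]
    rw [this, h, ← zpow_natCast, ← zpow_mul]
    congr 1
    ring

lemma rel_one_sub {m : ℕ} (hm : 0 < m) : rel q D.α {m} ⊆ rel q D.α pos := by
  rintro ν ⟨s, hs, k, hk, h⟩
  rw [Set.mem_singleton_iff] at hs
  rw [hs] at h
  exact ⟨m, hm, k, hk, h⟩

end

end Pool.Agent.K7.H8.AV
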