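import Pool.Agent.K7.H8.AV.Num2

/-!
# Growth of orders of poles and of numerical ranks
-/

set_option autoImplicit false

namespace Pool.Agent.K7.H8.AV

open Finset Module

variable {Ω V : Type*} [Field Ω] [CharZero Ω] [AddCommGroup V] [Module Ω V]
    {g q : ℕ} (D : AVData Ω V g q)

lemma mem_tateOf_iff (n m j : ℕ) (x : Coh Ω V n) :
    x ∈ tateOf D.F q n m j ↔ IsTate D.F q n m j x := by
  unfold tateOf
  rw [Submodule.mem_inf, Module.End.mem_eigenspace_iff]
  rfl

lemma mon_tateOf_iff {n : ℕ} (m j : ℕ) (J : Finset (Ix g n)) :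
    IsTate D.F q n m j (mon (eb D.b n) J) ↔
      wtHom g (tp J) ∈ rel q D.α {m} ∧ J.card = 2 * j := by
  constructor
  · intro h
    exact D.tate_mon J m j h rfl
  · rintro ⟨h1, h2⟩
    obtain ⟨s, hs, j', hj', h3⟩ := D.mon_tate J h1
    have e1 : j' = j := by omega
    have e2 : s = m := hs
    rw [e1, e2] at h3
    exact h3

/-- the sum of numbers of sets with given cardinality -/
lemma sum_card {n : ℕ} (P : Finset (Ix g n) → Prop) [DecidablePred P]
    (hP : ∀ J, P J → Even J.card) :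
    ∑ j ∈ Finset.range (g * n + 1),
      (Finset.univ.filter fun J : Finset (Ix g n) => P J ∧ J.card = 2 * j).card =
      (Finset.univ.filter fun J : Finset (Ix g n) => P J).card := by
  classical
  symm
  rw [Finset.card_eq_sum_card_fiberwise (f := fun J : Finset (Ix g n) => J.card / 2)
    (t := Finset.range (g * n + 1))]
  · refine Finset.sum_congr rfl fun j _ => ?_
    congr 1
    ext J
    simp only [Finset.mem_filter, Finset.mem_univ, true_and]
    refine and_congr_right fun h => ?_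
    obtain ⟨r, hr⟩ := hP J h
    omega
  · intro J _
    simp only [Finset.coe_range, Set.mem_Iio]
    have h1 := Finset.card_le_univ J
    rw [card_Ix] at h1
    have h2 : 2 * g * n = 2 * (g * n) := by ring
    omega

open Classical in
theorem sum_poleOrder (n m : ℕ) :
    ∑ j ∈ Finset.range (g * n + 1), poleOrder D.F q n m j = cnt g n (rel q D.α {m}) := by
  have h1 : ∀ j, poleOrder D.F q n m j = (Finset.univ.filter fun J : Finset (Ix g n) =>
      wtHom g (tp J) ∈ rel q D.α {m} ∧ J.card = 2 * j).card := by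
    intro j
    have h2 : poleOrder D.F q n m j = Module.finrank Ω (tateSub D n m j) := by
      have h3 : tateOf D.F q n m j = tateSub D n m j := by
        ext x
        rw [mem_tateOf_iff]
        rfl
      change Module.finrank Ω (tateOf D.F q n m j) = _
      rw [h3]
      rfl
    rw [h2, finrank_eq_card (eb D.b n) _ (fun k x hx => isTate_dbl D hx k)]
    congr 1
    ext J
    simp only [Finset.mem_filter, Finset.mem_univ, true_and]
    exact mon_tateOf_iff D m j J
  rw [Finset.sum_congr rfl fun j _ => h1 j, sum_card]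
  · rfl
  · rintro J ⟨s, -, k, hk, -⟩
    have h4 : ∑ i, wtHom g (tp J) i = ((∑ i, tp J i true : ℕ) : ℤ) -
        ((∑ i, tp J i false : ℕ) : ℤ) := by
      push_cast
      rw [← Finset.sum_sub_distrib]
      rfl
    rw [card_eq_tp, Finset.sum_add_distrib]
    rw [h4] at hk
    refine ⟨((k + ((∑ i, tp J i false : ℕ) : ℤ)).toNat), ?_⟩
    omega

variable {D} (S : AlgSystem D)

/-- the invertible weights of a system of classes -/
noncomputable def gS : AddSubmonoid (Fin g → ℤ) := symm (wS D (S.lib D))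

lemma even_of_rel {n : ℕ} {J : Finset (Ix g n)} {E : Set ℕ} (h : wtHom g (tp J) ∈ rel q D.α E) :
    Even J.card := by
  obtain ⟨s, -, k, hk, -⟩ := h
  have h4 : ∑ i, wtHom g (tp J) i = ((∑ i, tp J i true : ℕ) : ℤ) -
      ((∑ i, tp J i false : ℕ) : ℤ) := by
    push_cast
    rw [← Finset.sum_sub_distrib]
    rfl
  rw [card_eq_tp, Finset.sum_add_distrib]
  rw [h4] at hk
  refine ⟨((k + ((∑ i, tp J i false : ℕ) : ℤ)).toNat), ?_⟩
  omega

lemma mon_S_iff {n : ℕ} (J : Finset (Ix g n)) :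
    mon (eb D.b n) J ∈ (S.lib D).cls n ↔ wtHom g (tp J) ∈ wS D (S.lib D) :=
  mon_mem_iff D (S.lib D) pos_nonempty J

open Classical in
theorem sum_numRank (n m : ℕ) :
    ∑ j ∈ Finset.range (g * n + 1), numRank S n m j =
      cnt g n ((gS S ⊓ relMonOf D m : AddSubmonoid (Fin g → ℤ)) : Set (Fin g → ℤ)) := by
  have h1 : ∀ j ∈ Finset.range (g * n + 1), numRank S n m j =
      (Finset.univ.filter fun J : Finset (Ix g n) =>
        wtHom g (tp J) ∈ (gS S ⊓ relMonOf D m : AddSubmonoid (Fin g → ℤ)) ∧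
          J.card = 2 * j).card := by
    intro j hj
    rw [Finset.mem_range] at hj
    have hcard : 2 * j + 2 * (g * n - j) = Fintype.card (Ix g n) := by
      rw [card_Ix]
      have : 2 * g * n = 2 * (g * n) := by ring
      omega
    let C : ℕ → Submodule Ω (ExteriorAlgebra Ω (Fin n → V)) := fun j =>
      (S.lib D).cls n ⊓ tateSub D n m j
    have hCd : ∀ j k x, x ∈ C j → ExteriorAlgebra.map (dbl (eb D.b n) k) x ∈ C j := by
      intro j k x hx
      exact ⟨cls_dbl D (S.lib D) n k x hx.1, isTate_dbl D hx.2 k⟩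
    have hmem : ∀ j (x : Coh Ω V n), x ∈ S.cls n ⊓ tateOf D.F q n m j ↔ x ∈ C j := by
      intro j x
      rw [Submodule.mem_inf, mem_tateOf_iff]
      rfl
    have h2 := pairRank_lib (eb D.b n) (C j) (C (g * n - j)) (hCd j) (hCd _)
      ((S.cls n ⊓ tateOf D.F q n m j) ⊓ ⨅ y : (S.cls n ⊓ tateOf D.F q n m (g * n - j) :
        Submodule Ω (Coh Ω V n)), LinearMap.ker (LinearMap.mulRight Ω (y : Coh Ω V n))) ?_
      (2 * j) (2 * (g * n - j)) hcard (fun x hx => hx.2.1) (fun x hx => hx.2.1)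
    · have h3 : numRank S n m j = Module.finrank Ω (C j) - Module.finrank Ω
        ((S.cls n ⊓ tateOf D.F q n m j) ⊓ ⨅ y : (S.cls n ⊓ tateOf D.F q n m (g * n - j) :
        Submodule Ω (Coh Ω V n)), LinearMap.ker (LinearMap.mulRight Ω (y : Coh Ω V n)) :
          Submodule Ω (Coh Ω V n)) := by
        have h4 : (S.cls n ⊓ tateOf D.F q n m j : Submodule Ω (Coh Ω V n)) = C j := by
          ext x
          exact hmem j x
        show Module.finrank Ω (S.cls n ⊓ tateOf D.F q n m j : Submodule Ω (Coh Ω V n)) - _ = _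
        rw [h4]
        rfl
      rw [h3]
      refine h2.trans ?_
      congr 1
      ext J
      simp only [Finset.mem_filter, Finset.mem_univ, true_and]
      change ((mon (eb D.b n) J ∈ (S.lib D).cls n ∧ IsTate D.F q n m j (mon (eb D.b n) J)) ∧
        (mon (eb D.b n) Jᶜ ∈ (S.lib D).cls n ∧
          IsTate D.F q n m (g * n - j) (mon (eb D.b n) Jᶜ))) ↔ _
      rw [mon_tateOf_iff, mon_tateOf_iff, mon_S_iff, mon_S_iff, wt_compl]
      constructor
      · rintro ⟨⟨a1, a2, a3⟩, a4, a5, a6⟩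
        exact ⟨⟨⟨a1, a4⟩, a2⟩, a3⟩
      · rintro ⟨⟨⟨a1, a4⟩, a2⟩, a3⟩
        refine ⟨⟨a1, a2, a3⟩, a4, rel_neg D a2, ?_⟩
        rw [Finset.card_compl]
        omega
    · intro x
      constructor
      · rintro ⟨a1, a2⟩
        refine ⟨(hmem j x).1 a1, fun y hy => ?_⟩
        have a3 := (Submodule.mem_iInf _).1 a2 ⟨y, (hmem _ y).2 hy⟩
        exact a3
      · rintro ⟨a1, a2⟩
        refine ⟨(hmem j x).2 a1, (Submodule.mem_iInf _).2 fun y => ?_⟩
        exact a2 y.1 ((hmem _ y.1).1 y.2)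
  rw [Finset.sum_congr rfl h1, sum_card]
  · rfl
  · intro J hJ
    exact even_of_rel (D := D) (E := {m}) hJ.2

open Classical in
theorem sum_numRankBar (n : ℕ) :
    ∑ j ∈ Finset.range (g * n + 1), numRankBar S n j = cnt g n (gS S : Set (Fin g → ℤ)) := by
  have h1 : ∀ j ∈ Finset.range (g * n + 1), numRankBar S n j =
      (Finset.univ.filter fun J : Finset (Ix g n) =>
        wtHom g (tp J) ∈ gS S ∧ J.card = 2 * j).card := by
    intro j hj
    rw [Finset.mem_range] at hj
    have hcard : 2 * j + 2 * (g * n - j) = Fintype.card (Ix g n) := by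
      rw [card_Ix]
      have : 2 * g * n = 2 * (g * n) := by ring
      omega
    let C : ℕ → Submodule Ω (ExteriorAlgebra Ω (Fin n → V)) := fun j =>
      (S.lib D).cls n ⊓ (⋀[Ω]^(2 * j) (Fin n → V) : Submodule Ω (ExteriorAlgebra Ω (Fin n → V)))
    have hCd : ∀ j k x, x ∈ C j → ExteriorAlgebra.map (dbl (eb D.b n) k) x ∈ C j := by
      intro j k x hx
      exact ⟨cls_dbl D (S.lib D) n k x hx.1, map_mem_exteriorPower _ _ hx.2⟩
    have h2 := pairRank_lib (eb D.b n) (C j) (C (g * n - j)) (hCd j) (hCd _)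
      ((S.cls n ⊓ degree Ω V n (2 * j)) ⊓ ⨅ y : (S.cls n ⊓ degree Ω V n (2 * (g * n - j)) :
        Submodule Ω (Coh Ω V n)), LinearMap.ker (LinearMap.mulRight Ω (y : Coh Ω V n))) ?_
      (2 * j) (2 * (g * n - j)) hcard (fun x hx => hx.2) (fun x hx => hx.2)
    · refine Eq.trans (b := Module.finrank Ω (C j) - Module.finrank Ω
        ((S.cls n ⊓ degree Ω V n (2 * j)) ⊓ ⨅ y : (S.cls n ⊓ degree Ω V n (2 * (g * n - j)) :
        Submodule Ω (Coh Ω V n)), LinearMap.ker (LinearMap.mulRight Ω (y : Coh Ω V n)) :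
          Submodule Ω (Coh Ω V n))) rfl ?_
      refine h2.trans ?_
      congr 1
      ext J
      simp only [Finset.mem_filter, Finset.mem_univ, true_and]
      change ((mon (eb D.b n) J ∈ (S.lib D).cls n ∧ mon (eb D.b n) J ∈
        (⋀[Ω]^(2 * j) (Fin n → V) : Submodule Ω (ExteriorAlgebra Ω (Fin n → V)))) ∧
        (mon (eb D.b n) Jᶜ ∈ (S.lib D).cls n ∧ mon (eb D.b n) Jᶜ ∈
        (⋀[Ω]^(2 * (g * n - j)) (Fin n → V) :
          Submodule Ω (ExteriorAlgebra Ω (Fin n → V))))) ↔ _
      rw [mon_mem_degree_iff, mon_mem_degree_iff, mon_S_iff, mon_S_iff, wt_compl]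
      constructor
      · rintro ⟨⟨a1, a2⟩, a3, a4⟩
        exact ⟨⟨a1, a3⟩, a2⟩
      · rintro ⟨⟨a1, a3⟩, a2⟩
        refine ⟨⟨a1, a2⟩, a3, ?_⟩
        rw [Finset.card_compl]
        omega
    · intro x
      constructor
      · rintro ⟨a1, a2⟩
        refine ⟨a1, fun y hy => ?_⟩
        exact (Submodule.mem_iInf _).1 a2 ⟨y, hy⟩
      · rintro ⟨a1, a2⟩
        refine ⟨a1, (Submodule.mem_iInf _).2 fun y => ?_⟩
        exact a2 y.1 y.2
  rw [Finset.sum_congr rfl h1, sum_card]
  · rfl
  · intro J hJ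
    exact even_of_rel (D := D) (E := pos) (wS_subset D pos (S.lib D) hJ.1)

end Pool.Agent.K7.H8.AV
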