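import Pool.Agent.K7.H8.AV.Num3

/-!
# Growth exponents for poles, numerical ranks, algebraic classes
-/

set_option autoImplicit false

namespace Pool.Agent.K7.H8.AV

open Finset Module

variable {Ω V : Type*} [Field Ω] [CharZero Ω] [AddCommGroup V] [Module Ω V]
    {g q : ℕ} {D : AVData Ω V g q} (S : AlgSystem D)

lemma short_neg {ν : Fin g → ℤ} (h : ν ∈ short D) : -ν ∈ short D := by
  refine ⟨rel_neg D h.1, ?_⟩
  simp only [Pi.neg_apply, abs_neg]
  exact h.2

lemma L0_neg {ν : Fin g → ℤ} (h : ν ∈ L0 D) : -ν ∈ L0 D := by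
  unfold L0 at h ⊢
  induction h using AddSubmonoid.closure_induction with
  | mem ν hν => exact AddSubmonoid.subset_closure (short_neg hν)
  | zero => rw [neg_zero]; exact AddSubmonoid.zero_mem _
  | add ν μ _ _ h1 h2 => rw [neg_add]; exact AddSubmonoid.add_mem _ h1 h2

lemma L0_le_gS : L0 D ≤ gS S := fun _ h =>
  ⟨L0_le_wS D (S.lib D) h, L0_le_wS D (S.lib D) (L0_neg h)⟩

lemma gS_le : gS S ≤ wS D (S.lib D) := fun _ h => h.1

/-- the exponent of the numerical ranks -/
noncomputable def expoNum : ℕ := g - rk (gS S : Set (Fin g → ℤ))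

lemma rk_gS_inf {m : ℕ} : rk ((gS S ⊓ relMonOf D m : AddSubmonoid (Fin g → ℤ)) :
    Set (Fin g → ℤ)) = rk (gS S : Set (Fin g → ℤ)) := by
  apply rk_of_mul
  · exact fun _ h => h.1
  · intro ν hν
    obtain ⟨s, hs, h⟩ := rel_mul D (m := m) (wS_subset D pos (S.lib D) hν.1)
    exact ⟨s, hs, AddSubmonoid.nsmul_mem _ hν s, h⟩

variable (D) in
lemma rk_rel {m : ℕ} (hm : 0 < m) : rk (rel q D.α {m}) = rk (rel q D.α pos) :=
  rk_of_mul (rel_one_sub D hm) fun _ hν => rel_mul D hν

variable (D) in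
lemma growth_pole {m : ℕ} (hm : 0 < m) : Growth g (theta D)
    (fun n => ∑ j ∈ Finset.range (g * n + 1), poleOrder D.F q n m j) := by
  have h := growth_cnt (relMonOf D m)
  have h1 : rk (relMonOf D m : Set (Fin g → ℤ)) = rk (rel q D.α pos) := rk_rel D hm
  rw [h1] at h
  simp only [sum_poleOrder]
  exact h

lemma growth_numRank (m : ℕ) : Growth g (expoNum S)
    (fun n => ∑ j ∈ Finset.range (g * n + 1), numRank S n m j) := by
  have h := growth_cnt (gS S ⊓ relMonOf D m)
  rw [rk_gS_inf] at h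
  simp only [sum_numRank]
  exact h

lemma growth_numRankBar : Growth g (expoNum S)
    (fun n => ∑ j ∈ Finset.range (g * n + 1), numRankBar S n j) := by
  have h := growth_cnt (gS S)
  simp only [sum_numRankBar]
  exact h

lemma expo_le_expoNum : expo D (S.lib D) ≤ expoNum S := by
  unfold expo expoNum
  have := rk_mono (g := g) (M := (gS S : Set (Fin g → ℤ))) (N := wS D (S.lib D)) (gS_le S)
  omega

lemma expoNum_le_kappa : expoNum S ≤ kappa D := by
  unfold kappa expoNum
  have := rk_mono (g := g) (M := (L0 D : Set (Fin g → ℤ))) (N := gS S) (L0_le_gS S)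
  rw [rk_L0] at this
  omega

lemma theta_le_expoNum : theta D ≤ expoNum S :=
  (theta_le_expo D _).trans (expo_le_expoNum S)

/-- counting functions of monoids `N ≤ M` agree for all `n` iff the monoids agree -/
lemma cnt_eq_iff (N M : AddSubmonoid (Fin g → ℤ)) (h : N ≤ M) :
    (∀ n, cnt g n (N : Set (Fin g → ℤ)) = cnt g n (M : Set (Fin g → ℤ))) ↔ N = M := by
  classical
  constructor
  · intro h1
    apply le_antisymm h
    intro ν hν
    obtain ⟨n, J, rfl⟩ := exists_J ν
    by_contra hne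
    have h2 := h1 n
    unfold cnt at h2
    have h3 : (Finset.univ.filter fun J : Finset (Ix g n) => wt J ∈ (N : Set (Fin g → ℤ))) ⊂
        (Finset.univ.filter fun J : Finset (Ix g n) => wt J ∈ (M : Set (Fin g → ℤ))) := by
      rw [Finset.ssubset_iff_of_subset]
      · exact ⟨J, by rw [Finset.mem_filter]; exact ⟨Finset.mem_univ _, hν⟩, by
          rw [Finset.mem_filter]
          exact fun h => hne h.2⟩
      · intro J' hJ'
        rw [Finset.mem_filter] at hJ' ⊢
        exact ⟨hJ'.1, h hJ'.2⟩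
    exact (Finset.card_lt_card h3).ne h2
  · rintro rfl n
    rfl

lemma num_lef_iff : expoNum S = kappa D ↔
    ∀ n, ∑ j ∈ Finset.range (g * n + 1), numRankBar S n j = dim (lefschetz D.F q n) := by
  have h1 := rk_eq_iff D (gS S) (L0_le_gS S) (fun ν h => wS_subset D pos (S.lib D) h.1)
  have h2 : expoNum S = kappa D ↔ rk (gS S : Set (Fin g → ℤ)) = rk (short D) := by
    unfold expoNum kappa
    have h3 := rk_le (gS S : Set (Fin g → ℤ))
    have h4 := rk_le (short D)
    omega
  rw [h2, h1, eq_comm, ← cnt_eq_iff _ _ (L0_le_gS S)]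
  refine forall_congr' fun n => ?_
  rw [sum_numRankBar]
  change _ ↔ _ = Module.finrank Ω (lef D.F q pos n)
  rw [dim_lef, eq_comm]

/-- if the invertible weights have full rank then all weights are invertible -/
lemma gS_eq_of_rk (M : AddSubmonoid (Fin g → ℤ))
    (h : rk (symm M : Set (Fin g → ℤ)) = rk (M : Set (Fin g → ℤ))) : symm M = M := by
  apply le_antisymm (fun _ h => h.1)
  intro ν hν
  refine ⟨hν, ?_⟩
  have h2 : Submodule.span ℚ (cst '' (symm M : Set (Fin g → ℤ))) =
      Submodule.span ℚ (cst '' (M : Set (Fin g → ℤ))) :=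
    Submodule.eq_of_le_of_finrank_eq (Submodule.span_mono (Set.image_mono fun _ h => h.1))
      (by rw [← rk_eq, ← rk_eq, h])
  have h3 : cst ν ∈ Submodule.span ℚ (cst '' (symm M : Set (Fin g → ℤ))) := by
    rw [h2]
    exact Submodule.subset_span ⟨ν, hν, rfl⟩
  -- a multiple is in `symm M`
  have key : ∀ x ∈ Submodule.span ℚ (cst '' (symm M : Set (Fin g → ℤ))),
      ∃ s : ℕ, 0 < s ∧ ∃ μ ∈ symm M, (s : ℚ) • x = cst μ := by
    intro x hx
    induction hx using Submodule.span_induction with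
    | mem x hx =>
      obtain ⟨μ, hμ, rfl⟩ := hx
      exact ⟨1, one_pos, μ, hμ, by simp⟩
    | zero => exact ⟨1, one_pos, 0, (symm M).zero_mem, by funext i; simp [cst]⟩
    | add x y _ _ h1 h2 =>
      obtain ⟨s, hs, μ, hμ, h1⟩ := h1
      obtain ⟨t, ht, ρ, hρ, h2⟩ := h2
      refine ⟨s * t, Nat.mul_pos hs ht, t • μ + s • ρ, (symm M).add_mem
        ((symm M).nsmul_mem hμ t) ((symm M).nsmul_mem hρ s), ?_⟩
      funext i
      have e1 := congrFun h1 i
      have e2 := congrFun h2 i
      simp only [cst, Pi.smul_apply, smul_eq_mul] at e1 e2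
      show ((s * t : ℕ) : ℚ) * (x i + y i) = ((t • μ i + s • ρ i : ℤ) : ℚ)
      simp only [nsmul_eq_mul]
      push_cast
      rw [← e1, ← e2]
      ring
    | smul c x _ h1 =>
      obtain ⟨s, hs, μ, hμ, h1⟩ := h1
      have hd : (0 : ℚ) < c.den := by exact_mod_cast c.den_pos
      refine ⟨s * c.den, Nat.mul_pos hs c.den_pos, c.num • μ, ?_, ?_⟩
      · rcases Int.eq_nat_or_neg c.num with ⟨a, ha | ha⟩
        · rw [ha, natCast_zsmul]
          exact (symm M).nsmul_mem hμ a
        · rw [ha, neg_zsmul, natCast_zsmul]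
          have h4 := (symm M).nsmul_mem hμ a
          exact ⟨h4.2, by rw [neg_neg]; exact h4.1⟩
      · funext i
        have e1 := congrFun h1 i
        simp only [cst, Pi.smul_apply, smul_eq_mul] at e1 ⊢
        push_cast
        rw [← e1]
        have h5 : c * c.den = c.num := Rat.mul_den_eq_num c
        rw [← h5]
        ring
  obtain ⟨s, hs, μ, hμ, h4⟩ := key _ h3
  have h5 : s • ν = μ := by
    funext i
    have := congrFun h4 i
    simp only [cst, Pi.smul_apply, smul_eq_mul] at this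
    rw [Pi.smul_apply, nsmul_eq_mul]
    exact_mod_cast this
  have h6 : -ν = -μ + (s - 1) • ν := by
    rw [← h5]
    obtain ⟨t, rfl⟩ := Nat.exists_eq_add_of_le' hs
    rw [Nat.succ_sub_one, succ_nsmul]
    abel
  rw [h6]
  exact M.add_mem hμ.2 (M.nsmul_mem hν _)

lemma num_hom_iff : expo D (S.lib D) = expoNum S ↔
    ∀ n, ∑ j ∈ Finset.range (g * n + 1), numRankBar S n j = dim (S.cls n) := by
  have h2 : expo D (S.lib D) = expoNum S ↔
      rk (gS S : Set (Fin g → ℤ)) = rk (wS D (S.lib D) : Set (Fin g → ℤ)) := by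
    unfold expo expoNum
    have h3 := rk_le (gS S : Set (Fin g → ℤ))
    have h4 := rk_le (wS D (S.lib D) : Set (Fin g → ℤ))
    omega
  have h5 : rk (gS S : Set (Fin g → ℤ)) = rk (wS D (S.lib D) : Set (Fin g → ℤ)) ↔
      gS S = wS D (S.lib D) := by
    constructor
    · exact fun h => gS_eq_of_rk _ h
    · intro h
      rw [h]
  rw [h2, h5, ← cnt_eq_iff _ _ (gS_le S)]
  refine forall_congr' fun n => ?_
  rw [sum_numRankBar]
  change _ ↔ _ = Module.finrank Ω ((S.lib D).cls n)
  rw [dim_cls' D pos_nonempty]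

end Pool.Agent.K7.H8.AV
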