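import Mathlib

/-!
# Weil numbers and slopes: definitions
-/

set_option autoImplicit false

namespace Pool.Agent.K7.H8.AV

open NumberField IsDedekindDomain

/-- The numbers `a i` in the number field `K` are Weil numbers: all their complex absolute values are
`√q`. -/
def AreWeil {K : Type*} [Field K] {g : ℕ} (q : ℕ) (a : Fin g → K) : Prop :=
  ∀ (i : Fin g) (φ : K →+* ℂ), ‖φ (a i)‖ ^ 2 = q

/-- The slope `v (a i) / v (q)` is, for all places `v` of `K` above `p`, a fraction `z / d` with
`0 ≤ z ≤ d` (and `v (a i) = v (q) = 0` for the other finite places). -/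
def SlopesIn {K : Type*} [Field K] [NumberField K] {g : ℕ} (q d : ℕ) (a : Fin g → K) : Prop :=
  ∀ (i : Fin g) (v : HeightOneSpectrum (𝓞 K)),
    ∃ z ≤ d, v.valuation K (a i) ^ d = v.valuation K (q : K) ^ z

end Pool.Agent.K7.H8.AV
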