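import Pool.Agent.K7.H8.AV.Mono

/-!
# The dimension of the space of Tate classes
-/

set_option autoImplicit false

namespace Pool.Agent.K7.H8.AV

open Finset Module

variable {Ω V : Type*} [Field Ω] [CharZero Ω] [AddCommGroup V] [Module Ω V]
    {g q : ℕ} (D : AVData Ω V g q)

lemma map_mem_exteriorPower {W W' : Type*} [AddCommGroup W] [Module Ω W] [AddCommGroup W']
    [Module Ω W'] (f : W →ₗ[Ω] W') (d : ℕ) {x : ExteriorAlgebra Ω W}
    (hx : x ∈ (⋀[Ω]^d W : Submodule Ω (ExteriorAlgebra Ω W))) :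
    ExteriorAlgebra.map f x ∈ (⋀[Ω]^d W' : Submodule Ω (ExteriorAlgebra Ω W')) := by
  have h1 := Submodule.mem_map_of_mem (f := (ExteriorAlgebra.map f).toLinearMap) hx
  change ExteriorAlgebra.map f x ∈ _ at h1
  rw [Submodule.map_pow] at h1
  have h2 : Submodule.map (ExteriorAlgebra.map f).toLinearMap (LinearMap.range (ExteriorAlgebra.ι Ω)) ≤
      LinearMap.range (ExteriorAlgebra.ι Ω (M := W')) := by
    rintro _ ⟨_, ⟨v, rfl⟩, rfl⟩
    refine ⟨f v, ?_⟩
    show _ = ExteriorAlgebra.map f (ExteriorAlgebra.ι Ω v)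
    rw [ExteriorAlgebra.map_apply_ι]
  exact pow_le_pow_left' h2 d h1

lemma isTate_dbl {n s j : ℕ} {x : ExteriorAlgebra Ω (Fin n → V)} (h : IsTate D.F q n s j x)
    (k : Ix g n) : IsTate D.F q n s j (ExteriorAlgebra.map (dbl (eb D.b n) k) x) := by
  refine ⟨map_mem_exteriorPower _ _ h.1, ?_⟩
  have hcomm : ((D.F ^ s).compLeft (Fin n)) ∘ₗ dbl (eb D.b n) k =
      dbl (eb D.b n) k ∘ₗ (D.F ^ s).compLeft (Fin n) := by
    apply (eb D.b n).ext
    intro l
    rw [LinearMap.comp_apply, LinearMap.comp_apply, dbl_apply, D.pow_apply, map_smul, map_smul,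
      D.pow_apply, dbl_apply, smul_comm]
  have h1 : ExteriorAlgebra.map ((D.F ^ s).compLeft (Fin n))
      (ExteriorAlgebra.map (dbl (eb D.b n) k) x) =
      ExteriorAlgebra.map (dbl (eb D.b n) k)
        (ExteriorAlgebra.map ((D.F ^ s).compLeft (Fin n)) x) := by
    rw [← AlgHom.comp_apply, ← AlgHom.comp_apply, ExteriorAlgebra.map_comp_map,
      ExteriorAlgebra.map_comp_map, hcomm]
  rw [h1, h.2, map_smul]

/-- Tate classes for given `s` and `j`, as a subspace -/
noncomputable def tateSub (n s j : ℕ) : Submodule Ω (ExteriorAlgebra Ω (Fin n → V)) where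
  carrier := {x | IsTate D.F q n s j x}
  add_mem' := by
    rintro x y ⟨h1, h2⟩ ⟨h3, h4⟩
    refine ⟨Submodule.add_mem _ h1 h3, ?_⟩
    rw [map_add, h2, h4, smul_add]
  zero_mem' := ⟨Submodule.zero_mem _, by rw [map_zero, smul_zero]⟩
  smul_mem' := by
    rintro c x ⟨h1, h2⟩
    refine ⟨Submodule.smul_mem _ c h1, ?_⟩
    rw [map_smul, h2, smul_comm]

variable (E : Set ℕ)

lemma mon_mem_tate_iff {n : ℕ} (J : Finset (Ix g n)) :
    mon (eb D.b n) J ∈ tate D.F q E n ↔ wtHom g (tp J) ∈ rel q D.α E := by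
  constructor
  · intro h
    have h1 : ∃ x, (∃ s ∈ E, ∃ j : ℕ, IsTate D.F q n s j x) ∧
        (eb D.b n).ExteriorAlgebra.repr x J ≠ 0 := by
      by_contra hne
      push Not at hne
      have h2 : tate D.F q E n ≤ LinearMap.ker ((Finsupp.lapply (R := Ω) J).comp
          (eb D.b n).ExteriorAlgebra.repr.toLinearMap) := by
        unfold tate
        rw [Submodule.span_le]
        intro x hx
        exact hne x hx
      have h3 := h2 h
      rw [LinearMap.mem_ker] at h3
      change (eb D.b n).ExteriorAlgebra.repr ((eb D.b n).ExteriorAlgebra J) J = 0 at h3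
      simp at h3
    obtain ⟨x, ⟨s, hs, j, hx⟩, hJ⟩ := h1
    have h2 : mon (eb D.b n) J ∈ tateSub D n s j :=
      mon_mem_of_repr (eb D.b n) (tateSub D n s j) (fun k y hy => isTate_dbl D hy k) hx hJ
    exact (D.tate_mon J s j h2 hs).1
  · intro h
    obtain ⟨s, hs, j, _, h7⟩ := D.mon_tate J h
    exact Submodule.subset_span ⟨s, hs, j, h7⟩

lemma tate_dbl (n : ℕ) (k : Ix g n) (x : ExteriorAlgebra Ω (Fin n → V)) (hx : x ∈ tate D.F q E n) :
    ExteriorAlgebra.map (dbl (eb D.b n) k) x ∈ tate D.F q E n := by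
  unfold tate at hx ⊢
  induction hx using Submodule.span_induction with
  | mem x h =>
    obtain ⟨s, hs, j, h1⟩ := h
    exact Submodule.subset_span ⟨s, hs, j, isTate_dbl D h1 k⟩
  | zero => rw [map_zero]; exact Submodule.zero_mem _
  | add x y _ _ h1 h2 => rw [map_add]; exact Submodule.add_mem _ h1 h2
  | smul c x _ h => rw [map_smul]; exact Submodule.smul_mem _ _ h

open Classical in
theorem dim_tate (n : ℕ) :
    Module.finrank Ω (tate D.F q E n) =
      (Finset.univ.filter fun J : Finset (Ix g n) => wtHom g (tp J) ∈ rel q D.α E).card := by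
  rw [finrank_eq_card (eb D.b n) (tate D.F q E n) (tate_dbl D E n)]
  congr 1
  ext J
  simp only [Finset.mem_filter, Finset.mem_univ, true_and]
  exact mon_mem_tate_iff D E J

/-- the weights of a system of classes are weights of Tate classes -/
lemma wS_subset (S : ClassSystem Ω V g q D.F D.R E) :
    (wS D S : Set (Fin g → ℤ)) ⊆ rel q D.α E := by
  rintro _ ⟨t, ⟨n, J, h1, h2⟩, rfl⟩
  have h3 := (mon_mem_tate_iff D E J).1 (S.isTate n h2)
  have : tp J = t := by funext i s; exact h1 i s
  rwa [this] at h3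

/-- relations of length two are weights of every system of classes -/
lemma short_mem (S : ClassSystem Ω V g q D.F D.R E) {ν : Fin g → ℤ} (h : ν ∈ rel q D.α E)
    (h2 : ∑ i, |ν i| = 2) : ν ∈ wS D S := by
  classical
  set t : Fin g → Bool → ℕ := fun i s => if s then (ν i).toNat else (-ν i).toNat with ht
  have hw : wtHom g t = ν := by
    funext i
    simp only [wtHom, AddMonoidHom.coe_mk, ZeroHom.coe_mk, ht]
    simp
  obtain ⟨T, hT⟩ := bdd t
  have e1 : tp (bl T 0 t) = t := by
    funext i s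
    exact tp_bl T 0 t (by simpa using hT) i s
  refine ⟨t, ⟨T, bl T 0 t, fun i s => by rw [e1], ?_⟩, hw⟩
  have hc : (bl T 0 t).card = 2 * 1 := by
    rw [card_eq_tp, e1]
    have : ((∑ i, (t i true + t i false) : ℕ) : ℤ) = 2 := by
      push_cast
      rw [← h2]
      refine Finset.sum_congr rfl fun i _ => ?_
      simp only [ht]
      simp only [if_true]
      simp
    exact_mod_cast this
  obtain ⟨s, hs, j, hj, h7⟩ := D.mon_tate (E := E) (bl T 0 t) (by
    rw [e1]
    rwa [hw])
  have : j = 1 := by omega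
  subst this
  exact S.div T _ s hs h7

end Pool.Agent.K7.H8.AV
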