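import Pool.Agent.K7.H8.AV.Ext

/-!
# Subspaces of the exterior algebra that are stable under diagonal maps are spanned by monomials
-/

set_option autoImplicit false

namespace Pool.Agent.K7.H8.AV

open Finset Module

variable {Ω : Type*} [Field Ω] {W : Type*} [AddCommGroup W] [Module Ω W]
  {I : Type*} [LinearOrder I] (e : Module.Basis I Ω W)

/-- the map which doubles one basis vector -/
noncomputable def dbl (k : I) : W →ₗ[Ω] W := e.constr Ω fun j => if j = k then (2 : Ω) • e j else e j

lemma dbl_apply (k j : I) : dbl e k (e j) = (if j = k then (2 : Ω) else 1) • e j := by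
  unfold dbl
  rw [e.constr_basis]
  split_ifs <;> simp

lemma map_dbl_mon (k : I) (J : Finset I) :
    ExteriorAlgebra.map (dbl e k) (mon e J) = (if k ∈ J then (2 : Ω) else 1) • mon e J := by
  rw [map_mon_diag e (dbl e k) (fun j => if j = k then (2 : Ω) else 1) (dbl_apply e k)]
  congr 1
  rw [Finset.prod_ite_eq' J k (fun _ => (2 : Ω))]

/-- the projection on the monomials with a property -/
noncomputable def filt (p : Finset I → Prop) [DecidablePred p] :
    ExteriorAlgebra Ω W →ₗ[Ω] ExteriorAlgebra Ω W :=
  e.ExteriorAlgebra.constr Ω fun J => if p J then mon e J else 0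

lemma filt_mon (p : Finset I → Prop) [DecidablePred p] (J : Finset I) :
    filt e p (mon e J) = if p J then mon e J else 0 := by
  unfold filt
  exact e.ExteriorAlgebra.constr_basis Ω _ J

lemma filt_mem (C : Submodule Ω (ExteriorAlgebra Ω W))
    (hC : ∀ k, ∀ x ∈ C, ExteriorAlgebra.map (dbl e k) x ∈ C) (J : Finset I) (T : Finset I) :
    ∀ x ∈ C, filt e (fun J' => J' ∩ T = J ∩ T) x ∈ C := by
  classical
  induction T using Finset.induction_on with
  | empty =>
    intro x hx
    have : filt e (fun J' => J' ∩ ∅ = J ∩ ∅) = LinearMap.id := by
      apply e.ExteriorAlgebra.ext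
      intro J'
      have := filt_mon e (fun J' => J' ∩ ∅ = J ∩ ∅) J'
      simp only [Finset.inter_empty, if_true] at this
      simpa [mon] using this
    rw [this]
    exact hx
  | insert k T hk ih =>
    intro x hx
    have h1 := ih x hx
    have h2 := hC k _ h1
    by_cases hkJ : k ∈ J
    · have : filt e (fun J' => J' ∩ insert k T = J ∩ insert k T) x =
          ExteriorAlgebra.map (dbl e k) (filt e (fun J' => J' ∩ T = J ∩ T) x) -
            filt e (fun J' => J' ∩ T = J ∩ T) x := by
        have h3 : filt e (fun J' => J' ∩ insert k T = J ∩ insert k T) =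
          (ExteriorAlgebra.map (dbl e k)).toLinearMap ∘ₗ filt e (fun J' => J' ∩ T = J ∩ T) -
            filt e (fun J' => J' ∩ T = J ∩ T) := by
          apply e.ExteriorAlgebra.ext
          intro J'
          change filt e (fun J' => J' ∩ insert k T = J ∩ insert k T) (mon e J') =
            ExteriorAlgebra.map (dbl e k) (filt e (fun J' => J' ∩ T = J ∩ T) (mon e J')) -
            filt e (fun J' => J' ∩ T = J ∩ T) (mon e J')
          rw [filt_mon, filt_mon]
          by_cases h : J' ∩ T = J ∩ T
          · rw [if_pos h, map_dbl_mon]
            by_cases hk' : k ∈ J'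
            · rw [if_pos hk', if_pos, two_smul, add_sub_cancel_right]
              rw [Finset.inter_insert_of_mem hkJ, Finset.inter_insert_of_mem hk', h]
            · rw [if_neg hk', if_neg, one_smul, sub_self]
              intro h4
              apply hk'
              have : k ∈ J' ∩ insert k T := by
                rw [h4]
                exact Finset.mem_inter.2 ⟨hkJ, Finset.mem_insert_self _ _⟩
              exact (Finset.mem_inter.1 this).1
          · rw [if_neg h, map_zero, sub_zero, if_neg]
            intro h4
            apply h
            have := congrArg (· ∩ T) h4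
            simp only [Finset.inter_assoc, Finset.insert_inter_distrib] at this
            have h5 : insert k T ∩ T = T := by
              rw [Finset.inter_eq_right]
              exact Finset.subset_insert _ _
            rwa [h5] at this
        rw [h3]
        rfl
      rw [this]
      exact C.sub_mem h2 h1
    · have : filt e (fun J' => J' ∩ insert k T = J ∩ insert k T) x =
          (2 : Ω) • filt e (fun J' => J' ∩ T = J ∩ T) x -
          ExteriorAlgebra.map (dbl e k) (filt e (fun J' => J' ∩ T = J ∩ T) x) := by
        have h3 : filt e (fun J' => J' ∩ insert k T = J ∩ insert k T) =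
          (2 : Ω) • filt e (fun J' => J' ∩ T = J ∩ T) -
          (ExteriorAlgebra.map (dbl e k)).toLinearMap ∘ₗ filt e (fun J' => J' ∩ T = J ∩ T) := by
          apply e.ExteriorAlgebra.ext
          intro J'
          change filt e (fun J' => J' ∩ insert k T = J ∩ insert k T) (mon e J') =
            (2 : Ω) • filt e (fun J' => J' ∩ T = J ∩ T) (mon e J') -
            ExteriorAlgebra.map (dbl e k) (filt e (fun J' => J' ∩ T = J ∩ T) (mon e J'))
          rw [filt_mon, filt_mon]
          by_cases h : J' ∩ T = J ∩ T
          · rw [if_pos h, map_dbl_mon]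
            by_cases hk' : k ∈ J'
            · rw [if_pos hk', sub_self, if_neg]
              intro h4
              apply hkJ
              have : k ∈ J ∩ insert k T := by
                rw [← h4]
                exact Finset.mem_inter.2 ⟨hk', Finset.mem_insert_self _ _⟩
              exact (Finset.mem_inter.1 this).1
            · rw [if_neg hk', if_pos, two_smul, one_smul, add_sub_cancel_right]
              rw [Finset.inter_insert_of_notMem hkJ, Finset.inter_insert_of_notMem hk', h]
          · rw [if_neg h, map_zero, sub_zero, smul_zero, if_neg]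
            intro h4
            apply h
            have := congrArg (· ∩ T) h4
            simp only [Finset.inter_assoc, Finset.insert_inter_distrib] at this
            have h5 : insert k T ∩ T = T := by
              rw [Finset.inter_eq_right]
              exact Finset.subset_insert _ _
            rwa [h5] at this
        rw [h3]
        rfl
      rw [this]
      exact C.sub_mem (C.smul_mem _ h1) h2

variable [Fintype I]

/-- a monomial which occurs in an element of a subspace stable under diagonal maps belongs to it -/
lemma mon_mem_of_repr (C : Submodule Ω (ExteriorAlgebra Ω W))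
    (hC : ∀ k, ∀ x ∈ C, ExteriorAlgebra.map (dbl e k) x ∈ C) {x : ExteriorAlgebra Ω W} (hx : x ∈ C)
    {J : Finset I} (hJ : e.ExteriorAlgebra.repr x J ≠ 0) : mon e J ∈ C := by
  classical
  have h1 := filt_mem e C hC J Finset.univ x hx
  have h2 : filt e (fun J' => J' ∩ Finset.univ = J ∩ Finset.univ) x =
      e.ExteriorAlgebra.repr x J • mon e J := by
    conv_lhs => rw [← e.ExteriorAlgebra.sum_repr x]
    rw [map_sum]
    rw [Finset.sum_eq_single J]
    · rw [map_smul]
      have := filt_mon e (fun J' => J' ∩ Finset.univ = J ∩ Finset.univ) J
      rw [if_pos rfl] at this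
      rw [← this]
      rfl
    · intro J' _ hJ'
      rw [map_smul]
      have := filt_mon e (fun J' => J' ∩ Finset.univ = J ∩ Finset.univ) J'
      rw [if_neg (by simpa using hJ')] at this
      change _ • filt e _ (mon e J') = 0
      rw [this, smul_zero]
    · intro h
      exact absurd (Finset.mem_univ _) h
  rw [h2] at h1
  exact (C.smul_mem_iff hJ).1 h1

lemma eq_span (C : Submodule Ω (ExteriorAlgebra Ω W))
    (hC : ∀ k, ∀ x ∈ C, ExteriorAlgebra.map (dbl e k) x ∈ C) :
    C = Submodule.span Ω (mon e '' {J | mon e J ∈ C}) := by
  apply le_antisymm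
  · intro x hx
    rw [← e.ExteriorAlgebra.sum_repr x]
    refine Submodule.sum_mem _ fun J _ => ?_
    by_cases hJ : e.ExteriorAlgebra.repr x J = 0
    · rw [hJ, zero_smul]
      exact Submodule.zero_mem _
    · exact Submodule.smul_mem _ _ (Submodule.subset_span ⟨J, mon_mem_of_repr e C hC hx hJ, rfl⟩)
  · rw [Submodule.span_le]
    rintro _ ⟨J, hJ, rfl⟩
    exact hJ

open Classical in
lemma finrank_eq_card (C : Submodule Ω (ExteriorAlgebra Ω W))
    (hC : ∀ k, ∀ x ∈ C, ExteriorAlgebra.map (dbl e k) x ∈ C) :
    Module.finrank Ω C = (Finset.univ.filter fun J : Finset I => mon e J ∈ C).card := by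
  have h1 : LinearIndependent Ω (fun J : {J : Finset I // mon e J ∈ C} => mon e J.1) :=
    e.ExteriorAlgebra.linearIndependent.comp (fun J : {J : Finset I // mon e J ∈ C} => J.1)
      Subtype.val_injective
  have h2 := finrank_span_eq_card h1
  have h3 : Set.range (fun J : {J : Finset I // mon e J ∈ C} => mon e J.1) =
      mon e '' {J | mon e J ∈ C} := by
    ext x
    constructor
    · rintro ⟨J, rfl⟩
      exact ⟨J.1, J.2, rfl⟩
    · rintro ⟨J, hJ, rfl⟩
      exact ⟨⟨J, hJ⟩, rfl⟩
  rw [h3, ← eq_span e C hC] at h2
  rw [h2, Fintype.card_subtype]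

end Pool.Agent.K7.H8.AV
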