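import Pool.Agent.K7.H8.AV.Idx

/-!
# The weights of a system of classes
-/

set_option autoImplicit false

namespace Pool.Agent.K7.H8.AV

open Finset Module

section

variable {g : ℕ}

/-- the type of a set of basis vectors -/
noncomputable def tp {n : ℕ} (J : Finset (Ix g n)) (i : Fin g) (s : Bool) : ℕ :=
  (J.filter fun k => k.i = i ∧ k.s = s).card

lemma exists_sigma {m n : ℕ} (J : Finset (Ix g m)) (J' : Finset (Ix g n)) (hJ : J.Nonempty)
    (h : ∀ i s, tp J i s = tp J' i s) :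
    ∃ σ : Ix g m → Ix g n, (∀ k, (σ k).i = k.i ∧ (σ k).s = k.s) ∧ Set.InjOn σ J ∧
      J.image σ = J' := by
  classical
  have hn : 0 < n := by
    obtain ⟨k, hk⟩ := hJ
    have h1 : 0 < tp J k.i k.s := Finset.card_pos.2 ⟨k, by simp [hk]⟩
    rw [h] at h1
    obtain ⟨k', _⟩ := Finset.card_pos.1 h1
    exact k'.j.pos
  have he : ∀ c : Fin g × Bool, Nonempty ((J.filter fun k => k.i = c.1 ∧ k.s = c.2) ≃
      (J'.filter fun k => k.i = c.1 ∧ k.s = c.2)) := by
    intro c
    exact ⟨Finset.equivOfCardEq (h c.1 c.2)⟩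
  have e := fun c => (he c).some
  let σ : Ix g m → Ix g n := fun k =>
    if hk : k ∈ J then (e (k.i, k.s) ⟨k, by simp [hk]⟩).1 else ⟨k.i, k.s, ⟨0, hn⟩⟩
  have hσ : ∀ k (hk : k ∈ J), σ k = (e (k.i, k.s) ⟨k, by simp [hk]⟩).1 := by
    intro k hk
    simp only [σ, dif_pos hk]
  have hmem : ∀ k ∈ J, σ k ∈ J' ∧ (σ k).i = k.i ∧ (σ k).s = k.s := by
    intro k hk
    rw [hσ k hk]
    have := (e (k.i, k.s) ⟨k, by simp [hk]⟩).2
    rw [Finset.mem_filter] at this
    exact this
  refine ⟨σ, ?_, ?_, ?_⟩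
  · intro k
    by_cases hk : k ∈ J
    · exact (hmem k hk).2
    · simp [σ, dif_neg hk]
  · intro k hk l hl hkl
    have h1 := (hmem k hk).2
    have h2 := (hmem l hl).2
    have hi : k.i = l.i := by rw [← h1.1, ← h2.1, hkl]
    have hs : k.s = l.s := by rw [← h1.2, ← h2.2, hkl]
    rw [hσ k hk, hσ l hl] at hkl
    have key : ∀ (c c' : Fin g × Bool) (hc : c = c') (x : {k // k ∈ J.filter fun k => k.i = c.1 ∧ k.s = c.2})
        (y : {k // k ∈ J.filter fun k => k.i = c'.1 ∧ k.s = c'.2}),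
        ((e c x).1 : Ix g n) = (e c' y).1 → x.1 = y.1 := by
      rintro c c' rfl x y hxy
      have := (e c).injective (Subtype.ext hxy)
      rw [this]
    exact key _ _ (by rw [hi, hs]) _ _ hkl
  · ext l
    rw [Finset.mem_image]
    constructor
    · rintro ⟨k, hk, rfl⟩
      exact (hmem k hk).1
    · intro hl
      have hl' : l ∈ J'.filter fun k => k.i = (l.i, l.s).1 ∧ k.s = (l.i, l.s).2 := by simp [hl]
      set k := (e (l.i, l.s)).symm ⟨l, hl'⟩ with hk
      have hk2 := k.2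
      rw [Finset.mem_filter] at hk2
      refine ⟨k.1, hk2.1, ?_⟩
      rw [hσ k.1 hk2.1]
      have key : ∀ (c c' : Fin g × Bool) (hc : c = c')
        (x : {k // k ∈ J.filter fun k => k.i = c.1 ∧ k.s = c.2})
        (y : {k // k ∈ J.filter fun k => k.i = c'.1 ∧ k.s = c'.2}), x.1 = y.1 →
        ((e c x).1 : Ix g n) = (e c' y).1 := by
        rintro c c' rfl x y hxy
        rw [Subtype.ext hxy]
      rw [key (k.1.i, k.1.s) (l.i, l.s) (by rw [hk2.2.1, hk2.2.2]) _ k rfl, hk]
      simp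

/-- a standard set of basis vectors of given type -/
noncomputable def bl (n a : ℕ) (t : Fin g → Bool → ℕ) : Finset (Ix g n) :=
  Finset.univ.filter fun k => a ≤ k.j.1 ∧ k.j.1 < a + t k.i k.s

lemma tp_bl (n a : ℕ) (t : Fin g → Bool → ℕ) (h : ∀ i s, a + t i s ≤ n) (i : Fin g) (s : Bool) :
    tp (bl n a t) i s = t i s := by
  classical
  unfold tp
  have : t i s = (Finset.range (t i s)).card := by simp
  rw [this]
  symm
  refine Finset.card_bij (fun j hj => (⟨i, s, ⟨a + j, by
    have := h i s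
    rw [Finset.mem_range] at hj
    omega⟩⟩ : Ix g n)) ?_ ?_ ?_
  · intro j hj
    rw [Finset.mem_range] at hj
    simp [bl, hj]
  · intro j hj j' hj' hjj
    have := congrArg (fun k : Ix g n => k.j.1) hjj
    simp only at this
    omega
  · intro k hk
    simp only [bl, Finset.mem_filter, Finset.mem_univ, true_and] at hk
    obtain ⟨⟨h1, h2⟩, h3, h4⟩ := hk
    refine ⟨k.j.1 - a, ?_, ?_⟩
    · rw [Finset.mem_range]
      rw [h3, h4] at h2
      omega
    · apply Ix.ext' h3.symm h4.symm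
      apply Fin.ext
      simp only
      omega

lemma tp_union {n : ℕ} {J J' : Finset (Ix g n)} (h : Disjoint J J') (i : Fin g) (s : Bool) :
    tp (J ∪ J') i s = tp J i s + tp J' i s := by
  classical
  unfold tp
  rw [Finset.filter_union, Finset.card_union_of_disjoint]
  exact Finset.disjoint_filter_filter h

lemma tp_image {m n : ℕ} {J : Finset (Ix g m)} (σ : Ix g m → Ix g n)
    (hσ : ∀ k, (σ k).i = k.i ∧ (σ k).s = k.s) (hi : Set.InjOn σ J) (i : Fin g) (s : Bool) :
    tp (J.image σ) i s = tp J i s := by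
  classical
  unfold tp
  rw [Finset.filter_image, Finset.card_image_of_injOn]
  · congr 1
    ext k
    simp [(hσ k).1, (hσ k).2]
  · exact hi.mono (by intro k hk; simp at hk; exact hk.1)

lemma tp_univ (n : ℕ) (i : Fin g) (s : Bool) : tp (Finset.univ : Finset (Ix g n)) i s = n := by
  classical
  have h1 : (Finset.univ : Finset (Ix g n)) = bl n 0 (fun _ _ => n) := by
    ext k
    simp [bl]
  rw [h1]
  exact tp_bl n 0 _ (by simp) i s

end

section

variable {Ω V : Type*} [Field Ω] [CharZero Ω] [AddCommGroup V] [Module Ω V]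
    {g q : ℕ} (D : AVData Ω V g q)

/-- the eigenvalues -/
noncomputable def AVData.ev (i : Fin g) (s : Bool) : Ω := if s then D.α i else (q : Ω) / D.α i

lemma AVData.hF (i : Fin g) (s : Bool) : D.F (D.b (i, s)) = D.ev i s • D.b (i, s) :=
  D.hFb i s

lemma AVData.compLeft_eb (n : ℕ) (k : Ix g n) :
    (fun j => D.F (eb D.b n k j)) = D.ev k.i k.s • eb D.b n k := by
  rw [eb_apply]
  funext j
  by_cases h : j = k.j
  · subst h
    simp [D.hF]
  · simp [Pi.single_eq_of_ne h]

lemma AVData.comm {m n : ℕ} (f : (Fin m → V) →ₗ[Ω] (Fin n → V))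
    (h : ∀ k, (fun i => D.F (f (eb D.b m k) i)) = D.ev k.i k.s • f (eb D.b m k)) (v : Fin m → V) :
    f (fun j => D.F (v j)) = fun i => D.F (f v i) := by
  have h1 : f ∘ₗ D.F.compLeft (Fin m) = D.F.compLeft (Fin n) ∘ₗ f := by
    apply (eb D.b m).ext
    intro k
    show f (fun j => D.F (eb D.b m k j)) = fun i => D.F (f (eb D.b m k) i)
    rw [D.compLeft_eb, map_smul, h]
  exact congrArg (fun F => F v) h1

variable {E : Set ℕ} (S : ClassSystem Ω V g q D.F D.R E)

include S

lemma cls_of_tp {m n : ℕ} (J : Finset (Ix g m)) (J' : Finset (Ix g n))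
    (h : ∀ i s, tp J i s = tp J' i s) (hJ : mon (eb D.b m) J ∈ S.cls m) :
    mon (eb D.b n) J' ∈ S.cls n := by
  classical
  by_cases hne : J.Nonempty
  · obtain ⟨σ, h1, h2, h3⟩ := exists_sigma J J' hne h
    set f : (Fin m → V) →ₗ[Ω] (Fin n → V) := (eb D.b m).constr Ω fun k => eb D.b n (σ k) with hf
    have hfk : ∀ k, f (eb D.b m k) = eb D.b n (σ k) := fun k => (eb D.b m).constr_basis Ω _ k
    have h4 := S.pull' D f (D.comm f (by
      intro k
      rw [hfk]
      have := D.compLeft_eb n (σ k)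
      rw [(h1 k).1, (h1 k).2] at this
      exact this)) _ hJ
    have h5 := map_mon_inj (eb D.b m) (eb D.b n) f σ J (fun k _ => hfk k) h2
    rw [h3] at h5
    exact (h5.mem _).1 h4
  · rw [Finset.not_nonempty_iff_eq_empty] at hne
    have h1 : J' = ∅ := by
      by_contra hJ'
      obtain ⟨k, hk⟩ := Finset.nonempty_iff_ne_empty.2 hJ'
      have h2 : 0 < tp J' k.i k.s := Finset.card_pos.2 ⟨k, by simp [hk]⟩
      rw [← h, hne] at h2
      simp [tp] at h2
    rw [h1, mon_empty]
    exact S.one_mem n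

/-- the types that occur -/
def inT (t : Fin g → Bool → ℕ) : Prop :=
  ∃ (n : ℕ) (J : Finset (Ix g n)), (∀ i s, tp J i s = t i s) ∧ mon (eb D.b n) J ∈ S.cls n

lemma mem_iff_inT {n : ℕ} (J : Finset (Ix g n)) : mon (eb D.b n) J ∈ S.cls n ↔ inT D S (tp J) := by
  constructor
  · intro h
    exact ⟨n, J, fun _ _ => rfl, h⟩
  · rintro ⟨m, J', h1, h2⟩
    exact cls_of_tp D S J' J h1 h2

omit [Field Ω] [CharZero Ω] [AddCommGroup V] [Module Ω V] S in
lemma bdd {g : ℕ} (t : Fin g → Bool → ℕ) : ∃ T, ∀ i s, t i s ≤ T := by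
  refine ⟨∑ c : Fin g × Bool, t c.1 c.2, fun i s => ?_⟩
  exact Finset.single_le_sum (f := fun c : Fin g × Bool => t c.1 c.2) (fun _ _ => Nat.zero_le _)
    (Finset.mem_univ (i, s))

lemma inT_add {t t' : Fin g → Bool → ℕ} (h : inT D S t) (h' : inT D S t') :
    inT D S (fun i s => t i s + t' i s) := by
  classical
  obtain ⟨T, hT⟩ := bdd t
  obtain ⟨T', hT'⟩ := bdd t'
  have e1 : ∀ i s, tp (bl (T + T') 0 t) i s = t i s :=
    tp_bl _ _ _ fun i s => by have := hT i s; omega
  have e2 : ∀ i s, tp (bl (T + T') T t') i s = t' i s :=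
    tp_bl _ _ _ fun i s => by have := hT' i s; omega
  have m1 : mon (eb D.b (T + T')) (bl (T + T') 0 t) ∈ S.cls (T + T') := by
    rw [mem_iff_inT]
    have : tp (bl (T + T') 0 t) = t := by funext i s; exact e1 i s
    rwa [this]
  have m2 : mon (eb D.b (T + T')) (bl (T + T') T t') ∈ S.cls (T + T') := by
    rw [mem_iff_inT]
    have : tp (bl (T + T') T t') = t' := by funext i s; exact e2 i s
    rwa [this]
  have hd : Disjoint (bl (T + T') 0 t) (bl (T + T') T t') := by
    rw [Finset.disjoint_left]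
    intro k hk hk'
    simp only [bl, Finset.mem_filter, Finset.mem_univ, true_and] at hk hk'
    have := hT k.i k.s
    omega
  refine ⟨T + T', bl (T + T') 0 t ∪ bl (T + T') T t', ?_, ?_⟩
  · intro i s
    rw [tp_union hd, e1, e2]
  · exact ((mon_mul (eb D.b (T + T')) hd).mem _).1 (S.mul_mem _ _ m1 _ m2)

lemma inT_zero : inT D S (fun _ _ => 0) :=
  ⟨0, ∅, fun i s => by simp [tp], by rw [mon_empty]; exact S.one_mem 0⟩

end

end Pool.Agent.K7.H8.AV
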